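import Mathlib

/-!
# A dimension argument over uncountable algebraically closed fields (pure linear algebra)

PLAN.  Let `t ∈ P`, `t ∉ Q`.  For `a ∉ Z` choose `s_a ∈ P` with `t - (X - a) s_a ∈ Q`.  In the quotient
`M = V ⧸ Q` (rank `≤ ℵ₀`, `rank_quotient_le`) the family `(mk s_a)_{a ∉ Z}` indexed by the uncountable
set `Zᶜ` (`Z` countable, `k` uncountable) is not linearly independent (`LinearIndependent.cardinal_le_rank` /
`cardinal_lift_le_rank`, `Cardinal.mk_le_aleph0_iff`, `Set.Countable`…).  So there are distinct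
`a_1, …, a_n ∉ Z` and `b_j`, not all zero, with `Σ b_j s_{a_j} ∈ Q` (`linearIndependent_iff'`).  Apply
`Π_i (X - a_i)` (as `Polynomial.aeval X (Π (X - C a_i))`; it preserves `Q`): since
`Π_i (X - a_i) s_{a_j} ≡ Π_{i≠j} (X - a_i) t` mod `Q`, the polynomial
`F = Σ_j b_j Π_{i ≠ j} (X - C a_i)` satisfies `F(X) t ∈ Q`; `F(a_j) = b_j Π_{i≠j} (a_j - a_i) ≠ 0` for some
`j`, so `F ≠ 0`.  Finally `inj_poly`: if `F ≠ 0`, `t ∈ P`, `F(X) t ∈ Q` then `t ∈ Q`: induction on the degree of `F`:
`F` constant: clear.  Otherwise `F` has a root `a` (`IsAlgClosed.exists_root`), `F = (X - C a) * F1`, and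
`F1(X) t ∈ P`, `(X - a) (F1(X) t) ∈ Q`, so `F1(X) t ∈ Q` by `hinj`.
-/

namespace Pool.Agent.Helper26.FI

private theorem aeval_mem {k V : Type*} [Field k] [AddCommGroup V] [Module k V]
    {P : Submodule k V} (X : V →ₗ[k] V) (hP : ∀ v ∈ P, X v ∈ P) (F : Polynomial k)
    {t : V} (ht : t ∈ P) : Polynomial.aeval X F t ∈ P := by
  have hpow : ∀ n : ℕ, (X ^ n) t ∈ P := by
    intro n
    induction n with
    | zero => exact ht
    | succ n ih =>
      rw [pow_succ', Module.End.mul_apply]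
      exact hP _ ih
  induction F using Polynomial.induction_on' with
  | add p q hp hq =>
    rw [map_add, LinearMap.add_apply]
    exact P.add_mem hp hq
  | monomial n a =>
    rw [Polynomial.aeval_monomial, Module.End.mul_apply, Module.algebraMap_end_apply]
    exact P.smul_mem _ (hpow n)

theorem inj_poly {k V : Type*} [Field k] [IsAlgClosed k] [AddCommGroup V] [Module k V]
    (P Q : Submodule k V) (X : V →ₗ[k] V) (hP : ∀ v ∈ P, X v ∈ P)
    (hinj : ∀ (a : k), ∀ v ∈ P, X v - a • v ∈ Q → v ∈ Q) (F : Polynomial k) (hF : F ≠ 0)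
    {t : V} (ht : t ∈ P) (h : Polynomial.aeval X F t ∈ Q) : t ∈ Q := by
  obtain ⟨n, hn⟩ : ∃ n, n = F.natDegree := ⟨_, rfl⟩
  induction n generalizing F with
  | zero =>
    have h1 := Polynomial.eq_C_of_natDegree_eq_zero hn.symm
    have hc : F.coeff 0 ≠ 0 := by
      intro h0
      rw [h0, map_zero] at h1
      exact hF h1
    rw [h1, Polynomial.aeval_C, Module.algebraMap_end_apply] at h
    have h2 := Q.smul_mem (F.coeff 0)⁻¹ h
    rwa [smul_smul, inv_mul_cancel₀ hc, one_smul] at h2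
  | succ n ih =>
    have hdeg : F.degree ≠ 0 := by
      intro h0
      have := Polynomial.natDegree_eq_zero_iff_degree_le_zero.2 h0.le
      omega
    obtain ⟨a, ha⟩ := IsAlgClosed.exists_root F hdeg
    obtain ⟨G, hG⟩ := Polynomial.dvd_iff_isRoot.2 ha
    have hG0 : G ≠ 0 := by
      rintro rfl
      rw [mul_zero] at hG
      exact hF hG
    have hdG : n = G.natDegree := by
      have h1 := congrArg Polynomial.natDegree hG
      rw [Polynomial.natDegree_mul (Polynomial.X_sub_C_ne_zero a) hG0,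
        Polynomial.natDegree_X_sub_C] at h1
      omega
    refine ih G hG0 ?_ hdG
    refine hinj a _ (aeval_mem X hP G ht) ?_
    rw [hG, map_mul, Module.End.mul_apply, map_sub, Polynomial.aeval_X, Polynomial.aeval_C,
      LinearMap.sub_apply, Module.algebraMap_end_apply] at h
    exact h

theorem dim_argument {k V : Type*} [Field k] [IsAlgClosed k] [Uncountable k] [AddCommGroup V]
    [Module k V] (hV : Module.rank k V ≤ Cardinal.aleph0)
    (P Q : Submodule k V) (X : V →ₗ[k] V) (hP : ∀ v ∈ P, X v ∈ P) (hQ : ∀ v ∈ Q, X v ∈ Q)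
    (hinj : ∀ (a : k), ∀ v ∈ P, X v - a • v ∈ Q → v ∈ Q) (Z : Set k) (hZ : Z.Countable)
    (hsurj : ∀ a ∉ Z, ∀ v ∈ P, ∃ s ∈ P, v - (X s - a • s) ∈ Q) : P ≤ Q := by
  classical
  intro t ht
  by_contra htQ
  have hsurj' : ∀ a, ∃ s, a ∉ Z → s ∈ P ∧ t - (X s - a • s) ∈ Q := by
    intro a
    by_cases ha : a ∈ Z
    · exact ⟨0, fun h => absurd ha h⟩
    · obtain ⟨s, h1, h2⟩ := hsurj a ha t ht
      exact ⟨s, fun _ => ⟨h1, h2⟩⟩
  choose s hs using hsurj'
  have hnli : ¬ LinearIndependent k (fun a : (Zᶜ : Set k) => Q.mkQ (s a)) := by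
    intro hli
    have h1 := hli.cardinal_lift_le_rank
    have h2 : Module.rank k (V ⧸ Q) ≤ Cardinal.aleph0 := (rank_quotient_le Q).trans hV
    have h3 := h1.trans (Cardinal.lift_le_aleph0.2 h2)
    rw [Cardinal.lift_le_aleph0, Cardinal.mk_le_aleph0_iff] at h3
    have h4 : (Zᶜ : Set k).Countable := Set.countable_coe_iff.1 h3
    have h5 : (Set.univ : Set k).Countable := by
      rw [← Set.union_compl_self Z]
      exact hZ.union h4
    exact Set.not_countable_univ h5
  rw [linearIndependent_iff'] at hnli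
  push Not at hnli
  obtain ⟨T, g, hg, i0, hi0, hgi0⟩ := hnli
  obtain ⟨G, hG⟩ : ∃ G : Polynomial k, G = ∏ i ∈ T, (Polynomial.X - Polynomial.C (i : k)) :=
    ⟨_, rfl⟩
  obtain ⟨E, hE⟩ : ∃ E : (Zᶜ : Set k) → Polynomial k,
      E = fun j => ∏ i ∈ T.erase j, (Polynomial.X - Polynomial.C (i : k)) := ⟨_, rfl⟩
  have hGE : ∀ j ∈ T, G = E j * (Polynomial.X - Polynomial.C (j : k)) := by
    intro j hj
    rw [hG, hE]
    exact (Finset.prod_erase_mul T _ hj).symm
  have h1 : ∀ j ∈ T, Polynomial.aeval X (E j) t - Polynomial.aeval X G (s j) ∈ Q := by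
    intro j hj
    have h2 := (hs j j.2).2
    have h3 := aeval_mem X hQ (E j) h2
    rw [map_sub] at h3
    rw [hGE j hj, map_mul, Module.End.mul_apply, map_sub, Polynomial.aeval_X,
      Polynomial.aeval_C, LinearMap.sub_apply, Module.algebraMap_end_apply]
    exact h3
  have h2 : ∑ j ∈ T, g j • s j ∈ Q := by
    rw [← Submodule.Quotient.mk_eq_zero, ← Submodule.mkQ_apply, map_sum]
    simp only [map_smul]
    exact hg
  have h3 : Polynomial.aeval X (∑ j ∈ T, Polynomial.C (g j) * E j) t ∈ Q := by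
    have e1 : Polynomial.aeval X (∑ j ∈ T, Polynomial.C (g j) * E j) t =
        ∑ j ∈ T, g j • (Polynomial.aeval X (E j) t - Polynomial.aeval X G (s j)) +
          Polynomial.aeval X G (∑ j ∈ T, g j • s j) := by
      rw [map_sum, LinearMap.sum_apply, map_sum, ← Finset.sum_add_distrib]
      refine Finset.sum_congr rfl fun j _ => ?_
      rw [map_mul, Module.End.mul_apply, Polynomial.aeval_C, Module.algebraMap_end_apply,
        map_smul, smul_sub, sub_add_cancel]
    rw [e1]
    exact Q.add_mem (Q.sum_mem fun j hj => Q.smul_mem _ (h1 j hj)) (aeval_mem X hQ G h2)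
  refine htQ (inj_poly P Q X hP hinj _ ?_ ht h3)
  intro h0
  have h4 := congrArg (Polynomial.eval (i0 : k)) h0
  rw [Polynomial.eval_finsetSum, Finset.sum_eq_single_of_mem i0 hi0, Polynomial.eval_mul,
    Polynomial.eval_C, Polynomial.eval_zero, hE] at h4
  · rcases mul_eq_zero.1 h4 with h5 | h5
    · exact hgi0 h5
    · rw [Polynomial.eval_prod, Finset.prod_eq_zero_iff] at h5
      obtain ⟨i, hi, hi2⟩ := h5
      rw [Polynomial.eval_sub, Polynomial.eval_X, Polynomial.eval_C, sub_eq_zero] at hi2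
      exact (Finset.mem_erase.1 hi).1 (Subtype.ext hi2.symm)
  · intro j hj hne
    rw [Polynomial.eval_mul, hE, Polynomial.eval_prod,
      Finset.prod_eq_zero (Finset.mem_erase.2 ⟨hne.symm, hi0⟩), mul_zero]
    rw [Polynomial.eval_sub, Polynomial.eval_X, Polynomial.eval_C, sub_self]

end Pool.Agent.Helper26.FI
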