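import Pool.Agent.Helper26.FI.R0M

/-!
# Surjectivity of `x - a` on `TV L / Q L` when some polynomial of the list does not vanish at `a`

PLAN.  `L = f1 :: L'`, `c = f1(a) ≠ 0`, `M = L'.map (fun f => c • f - f(a) • f1)`, all of whose members
vanish at `a`.
* `LI_map`: linear independence of `M`: `Σ b_i (c f_i - f_i(a) f1) = 0` is a relation between `f1, f_i` with
  coefficients `c b_i` of `f_i`; `LI (f1 :: L')` gives `b_i = 0` (`linearIndependent_finCons`, or
  `Fintype.linearIndependent_iff`; `List.get`/`List.length_map` bookkeeping: it may be easier to prove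
  `LI` is equivalent to: for all `b : ℕ → k`, `Σ_{i < length} b i • L.getD i 0 = 0 → ∀ i < length, b i = 0`).
* `TV (f1 :: L') ≤ TV M` (`D_add`, `D_smul`; `D (c • f - d • f1) t = c • D f t - d • D f1 t`).
* So `t = ρ + Dl M s` (`mem_Q`, hypothesis).  `D f1 (t * y) = t * pol f1` (`D_mul_y`, `D f1 t = 0`), and
  `t * pol f1 = c • t + t * pol f1' * el a` (`pol_dq`).  On the other side
  `D f1 (ρ * y) = ρ * pol f1 ∈ R0`, and `D f1 (Dl M s * y) = D f1 (Dl M (s * y) + u * el a)`
  (`Dl_mul_y_mod`) `= c ^ n • D f1 (Dl L' (s * y)) + D f1 u * el a` (`Dl_scale`, `D_mul_el`), and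
  `D f1 (Dl L' (s * y)) = Dl (f1 :: L') (s * y)`.  Hence
  `c • t = (ρ * pol f1 + c ^ n • Dl L (s y)) + (D f1 u - t * pol f1') * el a`.
* Divide by `c`: `t = q + s' * el a` with `q ∈ Q L`.  Apply `cmp yw n` (`Q_cmp`, `cmp_mul_el`) to have
  `s' ∈ hm yw n`.  Then `s' * el a = t - q ∈ TV L` (`Q_le_TV`), so `s' ∈ TV L` (`TV_mul_el`).
-/

namespace Pool.Agent.Helper26.FI

open Pool.Agent.Helper71.FreeCore

universe u

variable {k : Type u} [Field k]

theorem LI_map {f1 : Polynomial k} {L : List (Polynomial k)} (h : LI (f1 :: L)) (a : k)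
    (hc : f1.eval a ≠ 0) : LI (L.map (fun f => f1.eval a • f - f.eval a • f1)) := by
  have h1 : LinearIndependent k (Fin.cons f1 (fun i : Fin L.length => L.get i) :
      Fin (L.length + 1) → Polynomial k) := by
    have h2 : (fun i : Fin (f1 :: L).length => (f1 :: L).get i) =
        (Fin.cons f1 (fun i : Fin L.length => L.get i) : Fin (L.length + 1) → Polynomial k) := by
      funext i
      refine Fin.cases ?_ (fun j => ?_) i
      · rfl
      · rfl
    have h3 : LinearIndependent k (fun i : Fin (f1 :: L).length => (f1 :: L).get i) := h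
    rw [h2] at h3
    exact h3
  rw [linearIndependent_finCons] at h1
  obtain ⟨h1, h2⟩ := h1
  have h3 : LinearIndependent k (fun i : Fin L.length =>
      f1.eval a • L.get i - (L.get i).eval a • f1) := by
    rw [Fintype.linearIndependent_iff] at h1 ⊢
    intro b hb i
    have h4 : f1.eval a • ∑ i, b i • L.get i = (∑ i, b i * (L.get i).eval a) • f1 := by
      rw [← sub_eq_zero, Finset.smul_sum, Finset.sum_smul, ← Finset.sum_sub_distrib, ← hb]
      refine Finset.sum_congr rfl fun j _ => ?_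
      rw [smul_sub, smul_smul, smul_smul, smul_smul, mul_comm (f1.eval a)]
    have h5 : ∑ i, b i * (L.get i).eval a = 0 := by
      by_contra h5
      refine h2 ?_
      have h6 : f1 = (∑ i, b i * (L.get i).eval a)⁻¹ • f1.eval a • ∑ i, b i • L.get i := by
        rw [h4, smul_smul, inv_mul_cancel₀ h5, one_smul]
      rw [h6]
      refine Submodule.smul_mem _ _ (Submodule.smul_mem _ _ (Submodule.sum_mem _ fun j _ =>
        Submodule.smul_mem _ _ (Submodule.subset_span ⟨j, rfl⟩)))
    rw [h5, zero_smul] at h4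
    exact h1 b ((smul_eq_zero.1 h4).resolve_left hc) i
  refine (linearIndependent_equiv' (finCongr (List.length_map _)) ?_).2 h3
  funext i
  simp only [Function.comp_apply, List.get_eq_getElem, List.getElem_map, finCongr_apply,
    Fin.val_cast]

theorem surj_step [CharP k 2] (a : k) {f1 : Polynomial k} {L : List (Polynomial k)}
    (hc : f1.eval a ≠ 0)
    (IH : TV (L.map (fun f => f1.eval a • f - f.eval a • f1)) ≤
      Q (L.map (fun f => f1.eval a • f - f.eval a • f1))) (n : ℕ)
    {t : T k} (ht : t ∈ TV (f1 :: L)) (hn : t ∈ hm yw n) :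
    ∃ s ∈ TV (f1 :: L), s ∈ (hm yw n : Submodule k (T k)) ∧ t - s * el a ∈ Q (f1 :: L) := by
  set c := f1.eval a with hcdef
  set M := L.map (fun f => c • f - f.eval a • f1) with hM
  have ht1 : D f1 t = 0 := ht f1 (List.mem_cons_self)
  have htM : t ∈ TV M := by
    intro g hg
    obtain ⟨f, hf, rfl⟩ := List.mem_map.1 hg
    have htf : D f t = 0 := ht f (List.mem_cons_of_mem _ hf)
    rw [sub_eq_add_neg, ← neg_smul, D_add, D_smul, D_smul, htf, ht1, smul_zero, smul_zero,
      add_zero]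
  obtain ⟨ρ, hρ, s, hts⟩ := mem_Q.1 (IH htM)
  have hMa : ∀ g ∈ M, g.eval a = 0 := by
    intro g hg
    obtain ⟨f, hf, rfl⟩ := List.mem_map.1 hg
    rw [Polynomial.eval_sub, Polynomial.eval_smul, Polynomial.eval_smul, smul_eq_mul, smul_eq_mul,
      ← hcdef, mul_comm, sub_self]
  obtain ⟨u, hu⟩ := Dl_mul_y_mod a M hMa s
  have e1 : D f1 (t * y) = t * pol f1 := by rw [D_mul_y, ht1, zero_mul, zero_add]
  have e2 : t * pol f1 = c • t + t * pol (dq a f1) * el a := by
    rw [pol_dq a f1, mul_add, ← hcdef, ← Algebra.commutes, ← Algebra.smul_def, ← mul_assoc]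
  have e3 : D f1 (t * y) = ρ * pol f1 + (c ^ L.length • Dl (f1 :: L) (s * y) + D f1 u * el a) := by
    have e4 : D f1 (Dl M (s * y)) = c ^ L.length • Dl (f1 :: L) (s * y) :=
      Dl_scale f1 a c L (s * y)
    rw [hts, add_mul, map_add, D_mul_y, D_R0 f1 hρ, zero_mul, zero_add, hu, map_add, e4, D_mul_el]
  have e5 : c • t = (ρ * pol f1 + c ^ L.length • Dl (f1 :: L) (s * y)) +
      (D f1 u - t * pol (dq a f1)) * el a := by
    have e6 : c • t = t * pol f1 - t * pol (dq a f1) * el a := by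
      rw [e2]
      abel
    rw [e6, ← e1, e3, sub_mul]
    abel
  have hq0 : ρ * pol f1 + c ^ L.length • Dl (f1 :: L) (s * y) ∈ Q (f1 :: L) :=
    Submodule.add_mem _ (R0_le_Q _ (Subalgebra.mul_mem _ hρ (pol_mem_R0 f1)))
      (Submodule.smul_mem _ _ (Dl_mem_Q _ _))
  set q0 := ρ * pol f1 + c ^ L.length • Dl (f1 :: L) (s * y) with hq0def
  set w := D f1 u - t * pol (dq a f1) with hw
  have e7 : t = c⁻¹ • q0 + (c⁻¹ • w) * el a := by
    rw [smul_mul_assoc, ← smul_add, ← e5, smul_smul, inv_mul_cancel₀ hc, one_smul]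
  have e8 : t = cmp yw n (c⁻¹ • q0) + cmp yw n (c⁻¹ • w) * el a := by
    have e9 := congrArg (cmp yw n) e7
    rwa [map_add, cmp_mul_el, cmp_of_hm yw hn] at e9
  have hq1 : cmp yw n (c⁻¹ • q0) ∈ Q (f1 :: L) := Q_cmp _ n (Submodule.smul_mem _ _ hq0)
  have e10 : t - cmp yw n (c⁻¹ • w) * el a = cmp yw n (c⁻¹ • q0) := by
    nth_rewrite 1 [e8]
    abel
  refine ⟨cmp yw n (c⁻¹ • w), ?_, cmp_mem_hm yw _ _, ?_⟩
  · rw [← TV_mul_el (f1 :: L) a]
    have e11 : cmp yw n (c⁻¹ • w) * el a = t - cmp yw n (c⁻¹ • q0) := by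
      rw [← e10]
      abel
    rw [e11]
    exact Submodule.sub_mem _ ht (Q_le_TV _ hq1)
  · rw [e10]
    exact hq1

end Pool.Agent.Helper26.FI
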