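import Pool.Agent.Helper26.FI.Inj
import Pool.Agent.Helper26.FI.Surj
import Pool.Agent.Helper26.FI.Dim

/-!
# `TV L ≤ Q L` over uncountable algebraically closed fields of characteristic two
-/

namespace Pool.Agent.Helper26.FI

open Pool.Agent.Helper71.FreeCore

universe u

variable {k : Type u} [Field k]

/-- Right multiplication by `x`. -/
noncomputable def RX : T k →ₗ[k] T k := LinearMap.mulRight k x

theorem mem_of_cmp {t : T k} (M : Submodule k (T k))
    (h : ∀ n, cmp yw n t ∈ M) : t ∈ M := by
  obtain ⟨N, hN⟩ := exists_fl yw t
  have key : ∀ N, ∀ t : T k, t ∈ fl yw N → (∀ n, cmp yw n t ∈ M) → t ∈ M := by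
    intro N
    induction N with
    | zero =>
      intro t ht _
      rw [fl_zero] at ht
      rw [(Submodule.mem_bot k).1 ht]
      exact M.zero_mem
    | succ N ih =>
      intro t ht hM
      have h1 := sub_cmp_mem yw ht
      have h2 : t - cmp yw N t ∈ M := by
        apply ih _ h1
        intro n
        rw [map_sub]
        by_cases hn : N = n
        · subst hn
          rw [cmp_of_hm yw (cmp_mem_hm yw _ _), sub_self]
          exact M.zero_mem
        · rw [cmp_of_hm_ne yw (cmp_mem_hm yw N t) hn, sub_zero]
          exact hM n
      have h3 := M.add_mem h2 (hM N)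
      rwa [sub_add_cancel] at h3
  exact key N t hN h

theorem big [CharP k 2] [IsAlgClosed k] [Uncountable k] :
    ∀ (r : ℕ) (L : List (Polynomial k)), L.length = r → LI L → TV L ≤ Q L := by
  intro r
  induction r with
  | zero =>
    intro L hL _ t _
    have : L = [] := List.length_eq_zero_iff.1 hL
    subst this
    exact Dl_mem_Q [] t
  | succ r ih =>
    intro L hL hLI
    obtain ⟨f1, L', rfl⟩ := List.exists_cons_of_ne_nil (l := L) (by rintro rfl; simp at hL)
    have hL' : L'.length = r := by simpa using hL
    have hf1 : f1 ≠ 0 := by
      have := hLI.ne_zero ⟨0, by simp⟩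
      simpa using this
    have key : ∀ n : ℕ, ∀ t ∈ TV (f1 :: L'), t ∈ hm yw n → t ∈ Q (f1 :: L') := by
      intro n
      induction n using Nat.strong_induction_on with
      | _ n IH =>
        intro t ht hn
        have hmain := dim_argument (k := k) (V := T k) rank_T_le
          (TV (f1 :: L') ⊓ hm yw n) (Q (f1 :: L')) RX
          (fun v hv => ?_) (fun v hv => ?_) (fun a v hv h => ?_)
          {a : k | f1.eval a = 0} ?_ (fun a ha v hv => ?_)
        · exact hmain ⟨ht, hn⟩
        · have h1 : RX v = v * el 0 := by simp [RX, el]
          rw [h1]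
          refine ⟨(TV_mul_el _ _).2 hv.1, ?_⟩
          have h2 := cmp_mul_el 0 n v
          rw [cmp_of_hm yw hv.2] at h2
          rw [← h2]
          exact cmp_mem_hm yw _ _
        · have h1 : RX v = v * el 0 := by simp [RX, el]
          rw [h1]
          exact Q_mul_el _ hv 0
        · have h1 : RX v - a • v = v * el a := by
            simp [RX, el, mul_sub, Algebra.algebraMap_eq_smul_one]
          rw [h1] at h
          exact inj_step a (by simp) n (fun m hm' s hs hs' => IH m hm' s hs hs') hv.1 hv.2 h
        · classical
          have : {a : k | f1.eval a = 0} ⊆ (f1.roots.toFinset : Set k) := by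
            intro a ha
            change f1.eval a = 0 at ha
            rw [Finset.mem_coe, Multiset.mem_toFinset]
            exact (Polynomial.mem_roots hf1).2 ha
          exact (Set.Finite.subset (Finset.finite_toSet _) this).countable
        · have hLI' := LI_map hLI a ha
          have hIH := ih _ (by simpa using hL') hLI'
          obtain ⟨s, hs1, hs2, hs3⟩ := surj_step a ha hIH n hv.1 hv.2
          refine ⟨s, ⟨hs1, hs2⟩, ?_⟩
          have h1 : RX s - a • s = s * el a := by
            simp [RX, el, mul_sub, Algebra.algebraMap_eq_smul_one]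
          rw [h1]
          exact hs3
    intro t ht
    exact mem_of_cmp _ (fun n => key n _ (TV_cmp _ n ht) (cmp_mem_hm yw _ _))

end Pool.Agent.Helper26.FI
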