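import Pool.Agent.Helper26.FI.GrpC

/-!
# Finite triangular groups over the field with two elements
-/

namespace Pool.Agent.Helper26.FI

open Pool.Agent.Helper71.FreeCore Pool.Agent.Helper71.FreeDefs

private theorem pol_inj : Function.Injective (pol : Polynomial (ZMod 2) →ₐ[ZMod 2] T (ZMod 2)) := by
  let e : T (ZMod 2) →ₐ[ZMod 2] Polynomial (ZMod 2) :=
    FreeAlgebra.lift (ZMod 2) (fun i : Fin 2 => if i = 0 then Polynomial.X else 0)
  have h : e.comp pol = AlgHom.id (ZMod 2) _ := by
    apply Polynomial.algHom_ext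
    simp [e, pol, x]
  intro a b hab
  have h1 := congrArg e hab
  have h2 : ∀ q, e (pol q) = q := fun q => DFunLike.congr_fun h q
  rwa [h2, h2] at h1

private theorem fix_pol {g : FreeAlgebra (ZMod 2) (Fin 2) ≃ₐ[ZMod 2] FreeAlgebra (ZMod 2) (Fin 2)}
    (hg : g (x : T (ZMod 2)) = x) (q : Polynomial (ZMod 2)) : g (pol q) = pol q := by
  have h : (g : T (ZMod 2) →ₐ[ZMod 2] T (ZMod 2)).comp pol = pol := by
    apply Polynomial.algHom_ext
    simp [pol, hg]
  exact DFunLike.congr_fun h q

/-- The polynomials `f` with `y ↦ y + f(x)` in the group. -/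
private noncomputable def Wsub
    (G : Subgroup (FreeAlgebra (ZMod 2) (Fin 2) ≃ₐ[ZMod 2] FreeAlgebra (ZMod 2) (Fin 2))) :
    Submodule (ZMod 2) (Polynomial (ZMod 2)) where
  carrier := {f | ∃ g ∈ G, g (x : T (ZMod 2)) = x ∧ g (y : T (ZMod 2)) = y + pol f}
  zero_mem' := ⟨1, G.one_mem, rfl, by rw [map_zero, add_zero]; rfl⟩
  add_mem' := by
    rintro a b ⟨g, hg, hgx, hgy⟩ ⟨h, hh, hhx, hhy⟩
    refine ⟨g * h, G.mul_mem hg hh, ?_, ?_⟩
    · change g (h x) = x
      rw [hhx, hgx]
    · change g (h y) = _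
      rw [hhy, map_add, hgy, fix_pol hgx, map_add, add_assoc]
  smul_mem' := by
    intro c a ha
    have hc : c = 0 ∨ c = 1 := by
      revert c
      decide
    rcases hc with rfl | rfl
    · rw [zero_smul]
      exact ⟨1, G.one_mem, rfl, by rw [map_zero, add_zero]; rfl⟩
    · rw [one_smul]
      exact ha

theorem f2_tri (G : Subgroup (FreeAlgebra (ZMod 2) (Fin 2) ≃ₐ[ZMod 2] FreeAlgebra (ZMod 2) (Fin 2)))
    [Finite G]
    (htri : ∀ g ∈ G, (∃ a b : ZMod 2, g (x : T (ZMod 2)) = a • x + algebraMap (ZMod 2) _ b) ∧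
      ∃ (c : ZMod 2) (f : Polynomial (ZMod 2)), g (y : T (ZMod 2)) = c • y + pol f) :
    IsFree (invariants G) := by
  classical
  have hfin : Finite (Wsub G) := by
    have h1 : ∀ f : Wsub G, ∃ g : G, (g : FreeAlgebra (ZMod 2) (Fin 2) ≃ₐ[ZMod 2]
        FreeAlgebra (ZMod 2) (Fin 2)) (y : T (ZMod 2)) = y + pol (f : Polynomial (ZMod 2)) := by
      rintro ⟨f, g, hg, _, hgy⟩
      exact ⟨⟨g, hg⟩, hgy⟩
    choose F hF using h1
    refine Finite.of_injective F ?_
    intro a b hab
    apply Subtype.ext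
    apply pol_inj
    have h2 := hF a
    rw [hab, hF b] at h2
    exact (add_left_cancel h2).symm
  have : Module.Finite (ZMod 2) (Wsub G) := Module.Finite.of_finite
  let b := Module.finBasis (ZMod 2) (Wsub G)
  let L : List (Polynomial (ZMod 2)) := List.ofFn (fun i => ((b i : Wsub G) : Polynomial (ZMod 2)))
  have hmemL : ∀ f, f ∈ L ↔ ∃ i, ((b i : Wsub G) : Polynomial (ZMod 2)) = f := by
    intro f
    simp [L, List.mem_ofFn]
  have hLI : LI L := by
    have h1 : LinearIndependent (ZMod 2) (fun i => ((b i : Wsub G) : Polynomial (ZMod 2))) := by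
      have := b.linearIndependent.map' (Wsub G).subtype (Submodule.ker_subtype _)
      exact this
    have h2 : L.length = Module.finrank (ZMod 2) (Wsub G) := List.length_ofFn
    have h3 := h1.comp (Fin.cast h2) (Fin.cast_injective h2)
    unfold LI
    convert h3 using 1
    funext i
    simp only [L, List.get_ofFn, Function.comp_apply]
  refine tri_free G htri L hLI ?_
  intro f
  have key : f ∈ Wsub G ↔ f ∈ AddSubgroup.closure {f : Polynomial (ZMod 2) | f ∈ L} := by
    constructor
    · intro hf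
      have h1 := b.sum_repr ⟨f, hf⟩
      have h2 : ((∑ i, (b.repr ⟨f, hf⟩) i • b i : Wsub G) : Polynomial (ZMod 2)) = f :=
        congrArg Subtype.val h1
      rw [← h2]
      simp only [Submodule.coe_sum, Submodule.coe_smul]
      refine AddSubgroup.sum_mem _ (fun i _ => ?_)
      have hc : ∀ c : ZMod 2, c = 0 ∨ c = 1 := by decide
      rcases hc (b.repr ⟨f, hf⟩ i) with h | h
      · rw [h, zero_smul]
        exact AddSubgroup.zero_mem _
      · rw [h, one_smul]
        exact AddSubgroup.subset_closure ((hmemL _).2 ⟨i, rfl⟩)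
    · intro hf
      have h1 : AddSubgroup.closure {f : Polynomial (ZMod 2) | f ∈ L} ≤ (Wsub G).toAddSubgroup := by
        rw [AddSubgroup.closure_le]
        intro f hf
        obtain ⟨i, rfl⟩ := (hmemL f).1 hf
        exact (b i).2
      exact h1 hf
  exact key

end Pool.Agent.Helper26.FI
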