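import Pool.Agent.Helper26.FI.S4C
import Pool.Agent.Helper26.FI.F2T

/-!
# Finite affine groups over the field with two elements

PLAN.  Every `g ∈ G` is `g x = a x + b y + e`, `g y = c x + d y + f` over `ZMod 2` (`haff`), with invertible linear part.
Let `V = span {x, y}` and for `v ∈ V` write `g v = g_0 v + g_1 v` with `g_0 v ∈ V`, `g_1 v ∈ ZMod 2` (constant term).
Translations in `G`: `g_0 = 1`; they form a subgroup `Tr` of `Hom(V, ZMod 2)` (order 1, 2 or 4).
* `Tr` contains all four translations: `aff_all`.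
* `Tr = {1, t}` with `t v = v + λ(v)`, `λ ≠ 0`: for `g ∈ G`, `g t g⁻¹ = t` (conjugates of translations are translations, `≠ 1`), so
  `λ ∘ g_0⁻¹ = λ`; so every `g_0` preserves `ker λ = {0, u}`: `g u = u + const`.  Choose a linear automorphism `φ` of
  `T` with `φ u = x` (there are three possibilities for `u`: `x`, `y`, `x + y`); then `φ G φ⁻¹` is triangular
  (`φ g φ⁻¹ x = x + const`, `φ g φ⁻¹ y ∈ span {1, x, y}`, `= c • y + pol f`): `f2_tri` and `isFree_conj`.
* `Tr = 1`: `g ↦ g_0` is injective on `G`.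
  - some `h ∈ G` with `h_0` of order three (equivalently `h_0` has no fixed vector `≠ 0` in `V`): there is exactly one algebra map
    `p : T → ZMod 2` (a point `(p x, p y) ∈ (ZMod 2)^2`) with `p ∘ h = p` (decidable: four points; `h_0 - 1` is invertible).
    `{1, h, h²}` is normal in `G` (index at most two in `G ≅ G_0 ≤ GL_2(𝔽_2)`; or directly: for `g ∈ G`, `(g h g⁻¹)_0` is one of
    the two elements of order three, i.e. `h_0` or `h_0²`, so by injectivity `g h g⁻¹ ∈ {h, h²}`), so `p ∘ g` is also fixed by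
    `h`, so `p ∘ g = p` for all `g ∈ G`.  Conjugating by the translation `φ` with `φ x = x + p x`, `φ y = y + p y`
    the group becomes linear (`g v ∈ V`), and `FreeThms.homogeneous` (weights `1`) applies; use `isFree_conj`
    (`invariants` of a group versus `fixedAlgebra` of a set: same carrier).
  - otherwise every `g_0` has a nonzero fixed vector, `G_0` has order at most two (an element of order two fixes exactly one nonzero
    vector; two different involutions of `GL_2(𝔽_2)` have a product of order three), so all `g ∈ G` fix a common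
    `u ∈ V`, `u ≠ 0` up to constants: triangular as above.
A brute force way: the linear part is one of six matrices; the case distinctions above are decidable statements about
`Matrix (Fin 2) (Fin 2) (ZMod 2)` and `decide` can settle the needed facts.
-/

namespace Pool.Agent.Helper26.FI

open Pool.Agent.Helper71.FreeDefs Pool.Agent.Helper71.FreeCore

/-! ### affine data over `ZMod 2` -/

private structure A6 where
  a : ZMod 2
  b : ZMod 2
  c : ZMod 2
  d : ZMod 2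
  e : ZMod 2
  f : ZMod 2
deriving DecidableEq

private def mulA (s t : A6) : A6 :=
  ⟨t.a * s.a + t.b * s.c, t.a * s.b + t.b * s.d, t.c * s.a + t.d * s.c, t.c * s.b + t.d * s.d,
    t.a * s.e + t.b * s.f + t.e, t.c * s.e + t.d * s.f + t.f⟩

private def oneA : A6 := ⟨1, 0, 0, 1, 0, 0⟩

private def invA (s : A6) : A6 :=
  ⟨s.d, s.b, s.c, s.a, s.d * s.e + s.b * s.f, s.c * s.e + s.a * s.f⟩

private def fixPt (s : A6) (p q : ZMod 2) : Prop :=
  s.a * p + s.b * q + s.e = p ∧ s.c * p + s.d * q + s.f = q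

private def ord3 (s : A6) : Prop := s.a * s.d + s.b * s.c = 1 ∧ s.a + s.d = 1

private def det1 (s : A6) : Prop := s.a * s.d + s.b * s.c = 1

private theorem fact_inv' : ∀ a b c d e f a' b' c' d' e' f' : ZMod 2,
    mulA ⟨a, b, c, d, e, f⟩ ⟨a', b', c', d', e', f'⟩ = oneA →
      (⟨a', b', c', d', e', f'⟩ : A6) = invA ⟨a, b, c, d, e, f⟩ ∧ a * d + b * c = 1 := by
  unfold mulA oneA invA
  decide +kernel

private theorem fact_inv (s t : A6) (h : mulA s t = oneA) : t = invA s ∧ det1 s := by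
  obtain ⟨a, b, c, d, e, f⟩ := s
  obtain ⟨a', b', c', d', e', f'⟩ := t
  exact fact_inv' _ _ _ _ _ _ _ _ _ _ _ _ h

private theorem fact_inv1' : ∀ a b c d e f : ZMod 2, a * d + b * c = 1 →
    mulA ⟨a, b, c, d, e, f⟩ (invA ⟨a, b, c, d, e, f⟩) = oneA ∧
      mulA (invA ⟨a, b, c, d, e, f⟩) ⟨a, b, c, d, e, f⟩ = oneA := by
  unfold mulA oneA invA
  decide +kernel

private theorem fact_inv1 (s : A6) (h : det1 s) :
    mulA s (invA s) = oneA ∧ mulA (invA s) s = oneA := by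
  obtain ⟨a, b, c, d, e, f⟩ := s
  exact fact_inv1' _ _ _ _ _ _ h

set_option synthInstance.maxSize 100000 in
private theorem fact_ord' : ∀ a b c d a' b' c' d' a'' b'' c'' d'' : ZMod 2,
    a * d + b * c = 1 → a' * d' + b' * c' = 1 → a'' * d'' + b'' * c'' = 1 →
    ¬ (a = 1 ∧ b = 0) → ¬ (c' = 0 ∧ d' = 1) → ¬ (a'' + c'' = 1 ∧ b'' + d'' = 1) →
    a + d = 1 ∨ a' + d' = 1 ∨ a'' + d'' = 1 ∨
      (a' * a + b' * c) + (c' * b + d' * d) = 1 ∨
      (a'' * a + b'' * c) + (c'' * b + d'' * d) = 1 ∨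
      (a'' * a' + b'' * c') + (c'' * b' + d'' * d') = 1 := by
  decide +kernel

private theorem fact_det' : ∀ a b c d a' b' c' d' : ZMod 2,
    a * d + b * c = 1 → a' * d' + b' * c' = 1 →
    (a' * a + b' * c) * (c' * b + d' * d) + (a' * b + b' * d) * (c' * a + d' * c) = 1 := by
  decide +kernel

private theorem fact_ord (s t u : A6) (hs : det1 s) (ht : det1 t) (hu : det1 u)
    (h1 : ¬ (s.a = 1 ∧ s.b = 0)) (h2 : ¬ (t.c = 0 ∧ t.d = 1))
    (h3 : ¬ (u.a + u.c = 1 ∧ u.b + u.d = 1)) :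
    ord3 s ∨ ord3 t ∨ ord3 u ∨ ord3 (mulA s t) ∨ ord3 (mulA s u) ∨ ord3 (mulA t u) := by
  obtain ⟨a, b, c, d, e, f⟩ := s
  obtain ⟨a', b', c', d', e', f'⟩ := t
  obtain ⟨a'', b'', c'', d'', e'', f''⟩ := u
  rcases fact_ord' _ _ _ _ _ _ _ _ _ _ _ _ hs ht hu h1 h2 h3 with h | h | h | h | h | h
  · exact Or.inl ⟨hs, h⟩
  · exact Or.inr (Or.inl ⟨ht, h⟩)
  · exact Or.inr (Or.inr (Or.inl ⟨hu, h⟩))
  · exact Or.inr (Or.inr (Or.inr (Or.inl ⟨fact_det' _ _ _ _ _ _ _ _ hs ht, h⟩)))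
  · exact Or.inr (Or.inr (Or.inr (Or.inr (Or.inl ⟨fact_det' _ _ _ _ _ _ _ _ hs hu, h⟩))))
  · exact Or.inr (Or.inr (Or.inr (Or.inr (Or.inr ⟨fact_det' _ _ _ _ _ _ _ _ ht hu, h⟩))))

private theorem fact_fix' : ∀ a b c d e f : ZMod 2, a * d + b * c = 1 → a + d = 1 →
    ∃ p q : ZMod 2, a * p + b * q + e = p ∧ c * p + d * q + f = q := by
  decide +kernel

private theorem fact_fix (s : A6) (h : ord3 s) : ∃ p q, fixPt s p q := by
  obtain ⟨a, b, c, d, e, f⟩ := s
  exact fact_fix' _ _ _ _ _ _ h.1 h.2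

/-- words in `h`, `g` -/
private def wrd (h g : A6) : List A6 :=
  let k := mulA (mulA g h) (invA g)
  let t1 := mulA k (invA h)
  let t2 := mulA (invA k) (invA h)
  let s1 := mulA (mulA h t1) (invA h)
  let s2 := mulA (mulA h t2) (invA h)
  [t1, s1, mulA t1 s1, t2, s2, mulA t2 s2]

private theorem fact_gen' : ∀ a b c d e f : ZMod 2, a * d + b * c = 1 → a + d = 1 →
    ∀ p q : ZMod 2, a * p + b * q + e = p → c * p + d * q + f = q →
    ∀ a' b' c' d' e' f' : ZMod 2, a' * d' + b' * c' = 1 →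
    ¬ (a' * p + b' * q + e' = p ∧ c' * p + d' * q + f' = q) →
    (⟨1, 0, 0, 1, 1, 0⟩ : A6) ∈ wrd ⟨a, b, c, d, e, f⟩ ⟨a', b', c', d', e', f'⟩ ∧
      (⟨1, 0, 0, 1, 0, 1⟩ : A6) ∈ wrd ⟨a, b, c, d, e, f⟩ ⟨a', b', c', d', e', f'⟩ := by
  unfold wrd mulA invA
  decide +kernel

private theorem fact_gen (h g : A6) (p q : ZMod 2) (h1 : ord3 h) (h2 : det1 g)
    (h3 : fixPt h p q) (h4 : ¬ fixPt g p q) :
    (⟨1, 0, 0, 1, 1, 0⟩ : A6) ∈ wrd h g ∧ (⟨1, 0, 0, 1, 0, 1⟩ : A6) ∈ wrd h g := by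
  obtain ⟨a, b, c, d, e, f⟩ := h
  obtain ⟨a', b', c', d', e', f'⟩ := g
  exact fact_gen' _ _ _ _ _ _ h1.1 h1.2 _ _ h3.1 h3.2 _ _ _ _ _ _ h2 h4

/-- conjugation by a translation makes a map with a fixed point linear -/
private theorem fact_lin' : ∀ a b c d e f p q : ZMod 2, a * p + b * q + e = p →
    c * p + d * q + f = q →
    (mulA (mulA ⟨1, 0, 0, 1, p, q⟩ ⟨a, b, c, d, e, f⟩) ⟨1, 0, 0, 1, p, q⟩).e = 0 ∧
    (mulA (mulA ⟨1, 0, 0, 1, p, q⟩ ⟨a, b, c, d, e, f⟩) ⟨1, 0, 0, 1, p, q⟩).f = 0 := by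
  unfold mulA
  decide +kernel

private theorem fact_tr : ∀ p q : ZMod 2,
    mulA ⟨1, 0, 0, 1, p, q⟩ ⟨1, 0, 0, 1, p, q⟩ = oneA := by
  unfold mulA oneA
  decide +kernel

private theorem fact_y' : ∀ a b c d e f : ZMod 2, c = 0 ∧ d = 1 →
    (mulA (mulA ⟨0, 1, 1, 0, 0, 0⟩ ⟨a, b, c, d, e, f⟩) ⟨0, 1, 1, 0, 0, 0⟩).b = 0 := by
  unfold mulA
  decide +kernel

private theorem fact_xy' : ∀ a b c d e f : ZMod 2, a + c = 1 ∧ b + d = 1 →
    (mulA (mulA ⟨1, 1, 0, 1, 0, 0⟩ ⟨a, b, c, d, e, f⟩) ⟨1, 1, 0, 1, 0, 0⟩).b = 0 := by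
  unfold mulA
  decide +kernel

/-! ### algebra maps with affine data -/

private abbrev T2 : Type := T (ZMod 2)

private abbrev Au : Type := FreeAlgebra (ZMod 2) (Fin 2) ≃ₐ[ZMod 2] FreeAlgebra (ZMod 2) (Fin 2)

private structure Rep (g : T2 → T2) (s : A6) : Prop where
  hx : g x = s.a • x + s.b • y + algebraMap (ZMod 2) T2 s.e
  hy : g y = s.c • x + s.d • y + algebraMap (ZMod 2) T2 s.f

private theorem rep_mul {g h : T2 →ₐ[ZMod 2] T2} {s t : A6} (hg : Rep g s) (hh : Rep h t) :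
    Rep (g.comp h) (mulA s t) where
  hx := by
    rw [AlgHom.comp_apply, hh.hx, map_add, map_add, map_smul, map_smul, AlgHom.commutes, hg.hx,
      hg.hy]
    simp only [mulA, map_add, map_mul, mul_add, add_mul, mul_assoc, Algebra.smul_def]
    abel
  hy := by
    rw [AlgHom.comp_apply, hh.hy, map_add, map_add, map_smul, map_smul, AlgHom.commutes, hg.hx,
      hg.hy]
    simp only [mulA, map_add, map_mul, mul_add, add_mul, mul_assoc, Algebra.smul_def]
    abel

private theorem rep_mul' {g h : Au} {s t : A6} (hg : Rep g s) (hh : Rep h t) :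
    Rep (g * h : Au) (mulA s t) := rep_mul (g := (g : T2 →ₐ[ZMod 2] T2))
      (h := (h : T2 →ₐ[ZMod 2] T2)) hg hh

private noncomputable def ev (p q : ZMod 2) : T2 →ₐ[ZMod 2] ZMod 2 :=
  FreeAlgebra.lift (ZMod 2) ![p, q]

private theorem ev_x (p q : ZMod 2) : ev p q x = p := by
  unfold ev x
  rw [FreeAlgebra.lift_ι_apply]
  rfl

private theorem ev_y (p q : ZMod 2) : ev p q y = q := by
  unfold ev y
  rw [FreeAlgebra.lift_ι_apply]
  rfl

private theorem rep_unique {g : T2 → T2} {s t : A6} (hs : Rep g s) (ht : Rep g t) : s = t := by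
  have key : ∀ a b e a' b' e' : ZMod 2, (a • x + b • y + algebraMap (ZMod 2) T2 e : T2) =
      a' • x + b' • y + algebraMap (ZMod 2) T2 e' → a = a' ∧ b = b' ∧ e = e' := by
    intro a b e a' b' e' h
    have h1 : ∀ p q : ZMod 2, a * p + b * q + e = a' * p + b' * q + e' := by
      intro p q
      have h2 := congrArg (ev p q) h
      rw [map_add, map_add, map_smul, map_smul, AlgHom.commutes, map_add, map_add, map_smul,
        map_smul, AlgHom.commutes, ev_x, ev_y] at h2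
      exact h2
    have h3 := h1 0 0
    have h4 := h1 1 0
    have h5 := h1 0 1
    simp only [mul_zero, zero_add, mul_one, add_zero] at h3 h4 h5
    subst h3
    exact ⟨add_right_cancel h4, add_right_cancel h5, rfl⟩
  obtain ⟨h1, h2, h3⟩ := key _ _ _ _ _ _ (hs.hx.symm.trans ht.hx)
  obtain ⟨h4, h5, h6⟩ := key _ _ _ _ _ _ (hs.hy.symm.trans ht.hy)
  obtain ⟨a, b, c, d, e, f⟩ := s
  obtain ⟨a', b', c', d', e', f'⟩ := t
  simp only at h1 h2 h3 h4 h5 h6
  subst h1 h2 h3 h4 h5 h6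
  rfl

private theorem rep_one : Rep (fun t : T2 => t) oneA where
  hx := by simp [oneA]
  hy := by simp [oneA]

private theorem rep_inv {g : Au} {s t : A6} (hs : Rep g s) (ht : Rep (g⁻¹ : Au) t) :
    t = invA s ∧ det1 s := by
  have h1 := rep_mul' hs ht
  rw [mul_inv_cancel] at h1
  exact fact_inv s t (rep_unique h1 rep_one)

private theorem exists_rep (g : T2 → T2) (h : ∀ i, g (FreeAlgebra.ι (ZMod 2) i) ∈
      Submodule.span (ZMod 2) (insert 1 (Set.range (FreeAlgebra.ι (ZMod 2))))) :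
    ∃ s, Rep g s := by
  have key : ∀ t : T2, t ∈ Submodule.span (ZMod 2)
      (insert 1 (Set.range (FreeAlgebra.ι (ZMod 2)))) →
      ∃ a b e : ZMod 2, t = a • x + b • y + algebraMap (ZMod 2) T2 e := by
    intro t ht
    rw [Submodule.mem_span_insert] at ht
    obtain ⟨e, z, hz, rfl⟩ := ht
    rw [Submodule.mem_span_range_iff_exists_fun] at hz
    obtain ⟨c, rfl⟩ := hz
    refine ⟨c 0, c 1, e, ?_⟩
    rw [Fin.sum_univ_two, Algebra.algebraMap_eq_smul_one, add_comm]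
    rfl
  obtain ⟨a, b, e, h1⟩ := key _ (h 0)
  obtain ⟨c, d, f, h2⟩ := key _ (h 1)
  exact ⟨⟨a, b, c, d, e, f⟩, ⟨h1, h2⟩⟩

/-- the algebra map with given affine data -/
private noncomputable def aff (s : A6) : T2 →ₐ[ZMod 2] T2 :=
  FreeAlgebra.lift (ZMod 2) ![s.a • x + s.b • y + algebraMap (ZMod 2) T2 s.e,
    s.c • x + s.d • y + algebraMap (ZMod 2) T2 s.f]

private theorem rep_aff (s : A6) : Rep (aff s) s where
  hx := by
    unfold aff x
    rw [FreeAlgebra.lift_ι_apply]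
    rfl
  hy := by
    unfold aff y
    rw [FreeAlgebra.lift_ι_apply]
    rfl

private theorem rep_ext {g h : T2 →ₐ[ZMod 2] T2} {s : A6} (hg : Rep g s) (hh : Rep h s) :
    g = h := by
  apply FreeAlgebra.hom_ext
  funext i
  fin_cases i
  · exact hg.hx.trans hh.hx.symm
  · exact hg.hy.trans hh.hy.symm

/-- the automorphism with affine data `s`, `s * s = 1` -/
private noncomputable def affE (s : A6) (hs : mulA s s = oneA) : Au :=
  AlgEquiv.ofAlgHom (aff s) (aff s)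
    (rep_ext (s := oneA) (by rw [← hs]; exact rep_mul (rep_aff s) (rep_aff s)) rep_one)
    (rep_ext (s := oneA) (by rw [← hs]; exact rep_mul (rep_aff s) (rep_aff s)) rep_one)

private theorem rep_affE (s : A6) (hs : mulA s s = oneA) : Rep (affE s hs) s := rep_aff s

private theorem rep_affE_inv (s : A6) (hs : mulA s s = oneA) : Rep ((affE s hs)⁻¹ : Au) s :=
  rep_aff s

/-- groups with affine data -/
private theorem conj_rep (φ : Au) (s : A6) (h1 : Rep φ s) (h2 : Rep (φ⁻¹ : Au) s) (G : Subgroup Au)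
    (haff : ∀ g ∈ G, ∃ t, Rep g t) (P Q : A6 → Prop) (hP : ∀ g ∈ G, ∀ t, Rep g t → P t)
    (hPQ : ∀ t, P t → Q (mulA (mulA s t) s)) :
    ∀ g ∈ G.map (MulAut.conj φ).toMonoidHom, ∃ t, Rep g t ∧ Q t := by
  rintro _ ⟨g, hg, rfl⟩
  obtain ⟨t, ht⟩ := haff g hg
  refine ⟨mulA (mulA s t) s, ?_, hPQ t (hP g hg t ht)⟩
  exact rep_mul' (rep_mul' h1 ht) h2

/-- triangular groups -/
private theorem free_tri (G : Subgroup Au) [Finite G] (h : ∀ g ∈ G, ∃ t, Rep g t ∧ t.b = 0) :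
    IsFree (invariants G) := by
  apply f2_tri
  intro g hg
  obtain ⟨t, ht, hb⟩ := h g hg
  refine ⟨⟨t.a, t.e, ?_⟩, t.d, Polynomial.C t.c * Polynomial.X + Polynomial.C t.f, ?_⟩
  · rw [ht.hx, hb, zero_smul, add_zero]
  · rw [ht.hy]
    unfold pol
    rw [map_add, map_mul, Polynomial.aeval_C, Polynomial.aeval_C, Polynomial.aeval_X,
      Algebra.smul_def t.c]
    abel

/-- linear groups -/
private theorem free_lin (G : Subgroup Au) (h : ∀ g ∈ G, ∃ t, Rep g t ∧ (t.e = 0 ∧ t.f = 0)) :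
    IsFree (invariants G) := by
  set S : Set (T2 →ₐ[ZMod 2] T2) := {φ | ∃ g ∈ G, φ = (g : T2 →ₐ[ZMod 2] T2)} with hS
  have hinv : invariants G = fixedAlgebra S := by
    ext f
    constructor
    · rintro hf _ ⟨g, hg, rfl⟩
      exact hf g hg
    · intro hf g hg
      exact hf _ ⟨g, hg, rfl⟩
  rw [hinv]
  refine Pool.Agent.Helper71.FreeThms.homogeneous (fun _ => 1) (fun _ => Nat.one_pos) S ?_
  intro f hf n
  rw [Pool.Agent.Helper71.FreeThms.component_eq]
  rintro _ ⟨g, hg, rfl⟩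
  have hfg : g f = f := hf _ ⟨g, hg, rfl⟩
  obtain ⟨t, ht, he, hf'⟩ := h g hg
  have hι : ∀ i : Fin 2, (FreeAlgebra.ι (ZMod 2) i : T2) ∈ hm (fun _ => 1) 1 := by
    intro i
    have h1 : (mon [i] : T2) ∈ hm (fun _ => 1) 1 := mon_mem_hm _ (by simp [wt])
    simpa [mon] using h1
  have hgι : ∀ i : Fin 2, g (FreeAlgebra.ι (ZMod 2) i : T2) ∈ hm (fun _ => 1) 1 := by
    intro i
    fin_cases i
    · have h1 := ht.hx
      rw [he, map_zero, add_zero] at h1
      show g x ∈ _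
      rw [h1]
      exact Submodule.add_mem _ (Submodule.smul_mem _ _ (hι 0)) (Submodule.smul_mem _ _ (hι 1))
    · have h1 := ht.hy
      rw [hf', map_zero, add_zero] at h1
      show g y ∈ _
      rw [h1]
      exact Submodule.add_mem _ (Submodule.smul_mem _ _ (hι 0)) (Submodule.smul_mem _ _ (hι 1))
  have hgm : ∀ l : List (Fin 2), g (mon l : T2) ∈ hm (fun _ => 1) (wt (fun _ => 1) l) := by
    intro l
    induction l with
    | nil =>
      rw [mon_nil, map_one, wt_nil, ← mon_nil]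
      exact mon_mem_hm _ (wt_nil _)
    | cons i l ih =>
      rw [mon_cons, map_mul, wt_cons]
      exact mul_mem_hm _ (hgι i) ih
  have hcomm : ∀ f : T2, g (cmp (fun _ => 1) n f) = cmp (fun _ => 1) n (g f) := by
    intro f
    refine mon_ind (p := fun f => g (cmp (fun _ => 1) n f) = cmp (fun _ => 1) n (g f)) f
      ?_ ?_ ?_ ?_
    · intro l
      rw [cmp_mon]
      split_ifs with hl
      · subst hl
        rw [cmp_of_hm _ (hgm l)]
      · rw [map_zero, cmp_of_hm_ne _ (hgm l) hl]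
    · simp only [map_zero]
    · intro a b ha hb
      simp only [map_add, ha, hb]
    · intro c a ha
      simp only [map_smul, ha]
  show g (cmp (fun _ => 1) n f) = cmp (fun _ => 1) n f
  rw [hcomm, hfg]

theorem f2_aff (G : Subgroup (FreeAlgebra (ZMod 2) (Fin 2) ≃ₐ[ZMod 2] FreeAlgebra (ZMod 2) (Fin 2)))
    [Finite G]
    (haff : ∀ g ∈ G, ∀ i, g (FreeAlgebra.ι (ZMod 2) i) ∈
      Submodule.span (ZMod 2) (insert 1 (Set.range (FreeAlgebra.ι (ZMod 2))))) :
    IsFree (invariants G) := by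
  have hrep : ∀ g ∈ G, ∃ t, Rep g t := fun g hg => exists_rep g (haff g hg)
  have hfin : ∀ φ : Au, Finite (G.map (MulAut.conj φ).toMonoidHom) := fun φ =>
    Finite.of_surjective _ ((MulAut.conj φ).toMonoidHom.subgroupMap_surjective G)
  -- the set of affine data of `G`
  let A : A6 → Prop := fun s => ∃ g ∈ G, Rep g s
  have hAm : ∀ s t, A s → A t → A (mulA s t) := by
    rintro s t ⟨g, hg, hs⟩ ⟨h, hh, ht⟩
    exact ⟨g * h, G.mul_mem hg hh, rep_mul' hs ht⟩
  have hAi : ∀ s, A s → A (invA s) := by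
    rintro s ⟨g, hg, hs⟩
    obtain ⟨t, ht⟩ := hrep _ (G.inv_mem hg)
    rw [← (rep_inv hs ht).1]
    exact ⟨_, G.inv_mem hg, ht⟩
  have hAd : ∀ s, A s → det1 s := by
    rintro s ⟨g, hg, hs⟩
    obtain ⟨t, ht⟩ := hrep _ (G.inv_mem hg)
    exact (rep_inv hs ht).2
  by_cases hx : ∀ s, A s → s.a = 1 ∧ s.b = 0
  · refine free_tri G fun g hg => ?_
    obtain ⟨t, ht⟩ := hrep g hg
    exact ⟨t, ht, (hx t ⟨g, hg, ht⟩).2⟩
  by_cases hy : ∀ s, A s → s.c = 0 ∧ s.d = 1
  · have hs : mulA ⟨0, 1, 1, 0, 0, 0⟩ ⟨0, 1, 1, 0, 0, 0⟩ = oneA := by decide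
    refine isFree_conj (affE _ hs) G (free_tri _ ?_)
    refine conj_rep _ _ (rep_affE _ hs) (rep_affE_inv _ hs) G hrep
      (fun s => s.c = 0 ∧ s.d = 1) _ (fun g hg t ht => hy t ⟨g, hg, ht⟩) ?_
    rintro ⟨a, b, c, d, e, f⟩ h
    exact fact_y' a b c d e f h
  by_cases hxy : ∀ s, A s → s.a + s.c = 1 ∧ s.b + s.d = 1
  · have hs : mulA ⟨1, 1, 0, 1, 0, 0⟩ ⟨1, 1, 0, 1, 0, 0⟩ = oneA := by decide
    refine isFree_conj (affE _ hs) G (free_tri _ ?_)
    refine conj_rep _ _ (rep_affE _ hs) (rep_affE_inv _ hs) G hrep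
      (fun s => s.a + s.c = 1 ∧ s.b + s.d = 1) _ (fun g hg t ht => hxy t ⟨g, hg, ht⟩) ?_
    rintro ⟨a, b, c, d, e, f⟩ h
    exact fact_xy' a b c d e f h
  push Not at hx hy hxy
  obtain ⟨s1, hs1, h1⟩ := hx
  obtain ⟨s2, hs2, h2⟩ := hy
  obtain ⟨s3, hs3, h3⟩ := hxy
  obtain ⟨h, hh, hord⟩ : ∃ h, A h ∧ ord3 h := by
    rcases fact_ord s1 s2 s3 (hAd _ hs1) (hAd _ hs2) (hAd _ hs3) (fun h => h1 h.1 h.2)
      (fun h => h2 h.1 h.2) (fun h => h3 h.1 h.2) with h | h | h | h | h | h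
    · exact ⟨_, hs1, h⟩
    · exact ⟨_, hs2, h⟩
    · exact ⟨_, hs3, h⟩
    · exact ⟨_, hAm _ _ hs1 hs2, h⟩
    · exact ⟨_, hAm _ _ hs1 hs3, h⟩
    · exact ⟨_, hAm _ _ hs2 hs3, h⟩
  obtain ⟨p, q, hpq⟩ := fact_fix h hord
  by_cases hfix : ∀ s, A s → fixPt s p q
  · have hs := fact_tr p q
    refine isFree_conj (affE _ hs) G (free_lin _ ?_)
    refine conj_rep _ _ (rep_affE _ hs) (rep_affE_inv _ hs) G hrep
      (fun s => fixPt s p q) _ (fun g hg t ht => hfix t ⟨g, hg, ht⟩) ?_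
    rintro ⟨a, b, c, d, e, f⟩ h
    exact fact_lin' a b c d e f p q h.1 h.2
  · push Not at hfix
    obtain ⟨g, hg, hgp⟩ := hfix
    have hw : ∀ s ∈ wrd h g, A s := by
      intro s hs
      unfold wrd at hs
      simp only [List.mem_cons, List.not_mem_nil, or_false] at hs
      have i1 := hAi _ hh
      have i2 := hAi _ hg
      have k := hAm _ _ (hAm _ _ hg hh) i2
      have t1 := hAm _ _ k i1
      have t2 := hAm _ _ (hAi _ k) i1
      have r1 := hAm _ _ (hAm _ _ hh t1) i1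
      have r2 := hAm _ _ (hAm _ _ hh t2) i1
      rcases hs with rfl | rfl | rfl | rfl | rfl | rfl
      · exact t1
      · exact r1
      · exact hAm _ _ t1 r1
      · exact t2
      · exact r2
      · exact hAm _ _ t2 r2
    obtain ⟨hX, hY⟩ := fact_gen h g p q hord (hAd _ hg) hpq hgp
    obtain ⟨gX, hgX, rX⟩ := hw _ hX
    obtain ⟨gY, hgY, rY⟩ := hw _ hY
    refine aff_all G haff ⟨gX, hgX, ?_, ?_⟩ ⟨gY, hgY, ?_, ?_⟩
    · rw [rX.hx]; simp
    · rw [rX.hy]; simp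
    · rw [rY.hx]; simp
    · rw [rY.hy]; simp

end Pool.Agent.Helper26.FI
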