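import Pool.Agent.Helper71.FreeThms

/-!
# Freeness of invariants is stable under conjugation
-/

namespace Pool.Agent.Helper26.FI

open Pool.Agent.Helper71.FreeDefs

universe u v w

variable {k : Type u} [Field k] {X : Type v}

theorem isFree_of_lift {I : Type w} (ψ : FreeAlgebra k I →ₐ[k] FreeAlgebra k X)
    (hinj : Function.Injective ψ) (S : Subalgebra k (FreeAlgebra k X))
    (hS : ∀ t, t ∈ S ↔ ∃ u, ψ u = t) : IsFree S := by
  let τ : I → S := fun i => ⟨ψ (FreeAlgebra.ι k i), (hS _).2 ⟨_, rfl⟩⟩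
  have hτ : ∀ P : FreeAlgebra k I,
      ((FreeAlgebra.lift k τ P : S) : FreeAlgebra k X) = ψ P := by
    intro P
    have : S.val.comp (FreeAlgebra.lift k τ) = ψ := by
      apply FreeAlgebra.hom_ext
      funext i
      simp [τ]
    exact DFunLike.congr_fun this P
  have hbij : Function.Bijective (FreeAlgebra.lift k τ) := by
    constructor
    · intro P Q hPQ
      apply hinj
      rw [← hτ, ← hτ, hPQ]
    · intro s
      obtain ⟨P, hP⟩ := (hS s).1 s.2
      exact ⟨P, Subtype.ext (by rw [hτ]; exact hP)⟩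
  have hτinj : Function.Injective τ := by
    intro i j hij
    apply FreeAlgebra.ι_injective (R := k)
    apply hbij.1
    rw [FreeAlgebra.lift_ι_apply, FreeAlgebra.lift_ι_apply, hij]
  refine ⟨Set.range τ, ?_⟩
  let e : I ≃ Set.range τ := Equiv.ofInjective τ hτinj
  let E : FreeAlgebra k I →ₐ[k] FreeAlgebra k (Set.range τ) :=
    FreeAlgebra.lift k (fun i => FreeAlgebra.ι k (e i))
  let E' : FreeAlgebra k (Set.range τ) →ₐ[k] FreeAlgebra k I :=
    FreeAlgebra.lift k (fun y => FreeAlgebra.ι k (e.symm y))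
  have hEE' : E'.comp E = AlgHom.id k _ := by
    apply FreeAlgebra.hom_ext
    funext i
    simp [E, E']
  have hE'E : E.comp E' = AlgHom.id k _ := by
    apply FreeAlgebra.hom_ext
    funext i
    simp [E, E']
  have hcomp : (FreeAlgebra.lift k (fun y : Set.range τ => (y : S))) =
      (FreeAlgebra.lift k τ).comp E' := by
    apply FreeAlgebra.hom_ext
    funext y
    simp only [Function.comp_apply, FreeAlgebra.lift_ι_apply, AlgHom.comp_apply, E']
    obtain ⟨i, hi⟩ := e.surjective y
    rw [← hi, Equiv.symm_apply_apply]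
    rfl
  rw [hcomp]
  have hE'bij : Function.Bijective E' := by
    constructor
    · intro P Q hPQ
      have := congrArg E hPQ
      have h1 : ∀ P, E (E' P) = P := fun P => DFunLike.congr_fun hE'E P
      rwa [h1, h1] at this
    · intro P
      exact ⟨E P, DFunLike.congr_fun hEE' P⟩
  exact hbij.comp hE'bij

/-- Transport of a free subalgebra along an injective algebra map. -/
theorem isFree_transport {I : Type w} (ψ : FreeAlgebra k I →ₐ[k] FreeAlgebra k X)
    (hinj : Function.Injective ψ) (S' : Subalgebra k (FreeAlgebra k I)) (h : IsFree S')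
    (S : Subalgebra k (FreeAlgebra k X)) (hS : ∀ t, t ∈ S ↔ ∃ u ∈ S', ψ u = t) : IsFree S := by
  obtain ⟨Y, hY⟩ := h
  refine isFree_of_lift (ψ.comp (S'.val.comp (FreeAlgebra.lift k (fun y : Y => (y : S'))))) ?_ S ?_
  · intro P Q hPQ
    apply hY.1
    apply Subtype.ext
    exact hinj hPQ
  · intro t
    rw [hS t]
    constructor
    · rintro ⟨u, hu, rfl⟩
      obtain ⟨P, hP⟩ := hY.2 ⟨u, hu⟩
      refine ⟨P, ?_⟩
      change ψ ((FreeAlgebra.lift k (fun y : Y => (y : S')) P : S') : FreeAlgebra k I) = ψ u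
      rw [hP]
    · rintro ⟨P, rfl⟩
      exact ⟨_, (FreeAlgebra.lift k (fun y : Y => (y : S')) P).2, rfl⟩

theorem isFree_conj (φ : FreeAlgebra k X ≃ₐ[k] FreeAlgebra k X)
    (G : Subgroup (FreeAlgebra k X ≃ₐ[k] FreeAlgebra k X))
    (h : IsFree (invariants (G.map (MulAut.conj φ).toMonoidHom))) : IsFree (invariants G) := by
  refine isFree_transport (φ.symm : FreeAlgebra k X →ₐ[k] FreeAlgebra k X) φ.symm.injective _ h _ ?_
  intro t
  constructor
  · intro ht
    refine ⟨φ t, ?_, φ.symm_apply_apply t⟩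
    rintro _ ⟨g, hg, rfl⟩
    change φ (g (φ⁻¹ (φ t))) = φ t
    have h1 : (φ⁻¹ : FreeAlgebra k X ≃ₐ[k] FreeAlgebra k X) (φ t) = t := φ.symm_apply_apply t
    rw [h1, ht g hg]
  · rintro ⟨u, hu, rfl⟩ g hg
    have h1 := hu _ ⟨g, hg, rfl⟩
    change φ (g (φ⁻¹ u)) = u at h1
    have h2 := congrArg φ.symm h1
    rw [φ.symm_apply_apply] at h2
    exact h2

end Pool.Agent.Helper26.FI
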