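import Pool.Agent.Helper26.FI.Defs

/-!
# The decomposition `T = k ⊕ T (x - a) ⊕ T y`

PLAN.  For `a = 0` this is the decomposition of words by their last letter:
`mon (l ++ [i]) = mon l * ι i` (`mon_append`), so `t = c + u * x + v * y` exists by `mon_ind`
(induction over monomials; split a list at its last letter with `List.reverseRecOn` or
`List.eq_nil_or_concat`), and uniqueness follows by comparing coefficients: use the linear map
`strip [i]` of `FreeCore` (`strip u (mon (v ++ u)) = mon v`, `strip u (mon l) = 0` if `u` is not a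
suffix of `l`): `strip [0] (u * x) = u`, `strip [0] (v * y) = 0`, `strip [0] (algebraMap c) = 0`
(linear in `u`, check on monomials by `mon_ind`), similarly `strip [1]`.
For general `a`: `u * x = u * el a + a • u`, so existence for `a` is not an immediate consequence for the
same `u`; use the algebra automorphism `σ_a : x ↦ x + a, y ↦ y` (`FreeAlgebra.lift`), inverse `σ_{-a}`,
with `σ_a (el a) = x`: apply the case `a = 0` to `σ_a t` and go back.  `σ_a` maps `hm yw n` to itself
(induction over monomials with `mul_mem_hm`).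
* `dec_exists_hom`, `dec_exists_zero`: apply `cmp yw _` to the decomposition:
  `cmp yw (n+1) (u * el a) = cmp yw (n+1) u * el a` and `cmp yw (n+1) (v * y) = cmp yw n v * y`
  (there is `cmp_hm_mul` for left multiplication; prove the right versions on monomials).
* `pol_yhom'`, `mul_el_cancel`, `mul_pol_cancel`: `FreeAlgebra k (Fin 2)` has no zero divisors
  (instance `FreeAlgebra` `NoZeroDivisors`/`IsDomain` is in Mathlib), `el a ≠ 0`, `pol q ≠ 0` for `q ≠ 0`
  (`pol` is injective: compose with the algebra map `T → k[X]`, `x ↦ X`, `y ↦ 0`).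
-/

namespace Pool.Agent.Helper26.FI

open Pool.Agent.Helper71.FreeCore

universe u

variable {k : Type u} [Field k]

private theorem x_mon : (x : T k) = mon [0] := by
  rw [mon_cons, mon_nil, mul_one]
  rfl

private theorem y_mon : (y : T k) = mon [1] := by
  rw [mon_cons, mon_nil, mul_one]
  rfl

private theorem cst_mem (c : k) : algebraMap k (T k) c ∈ hm yw 0 := by
  rw [Algebra.algebraMap_eq_smul_one, ← mon_nil]
  exact Submodule.smul_mem _ _ (mon_mem_hm yw (wt_nil _))

private theorem x_mem : (x : T k) ∈ hm yw 0 := by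
  rw [x_mon]
  exact mon_mem_hm yw (by rw [wt_cons, wt_nil]; rfl)

private theorem y_mem : (y : T k) ∈ hm yw 1 := by
  rw [y_mon]
  exact mon_mem_hm yw (by rw [wt_cons, wt_nil]; rfl)

private theorem el_mem (a : k) : (el a : T k) ∈ hm yw 0 :=
  Submodule.sub_mem _ x_mem (cst_mem a)

/-- right version of `cmp_hm_mul` -/
private theorem cmp_mul_hm' {m : ℕ} {b : T k} (hb : b ∈ hm yw m) (N : ℕ) (a : T k) :
    cmp yw N (a * b) = if m ≤ N then cmp yw (N - m) a * b else 0 := by
  refine mon_ind (p := fun a => cmp yw N (a * b) = if m ≤ N then cmp yw (N - m) a * b else 0) a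
    ?_ ?_ ?_ ?_
  · intro l
    have h1 : mon l * b ∈ hm yw (wt yw l + m) := mul_mem_hm yw (mon_mem_hm yw rfl) hb
    rw [cmp_mon]
    split_ifs with h2 h3
    · have : N = wt yw l + m := by omega
      rw [this]
      exact cmp_of_hm yw h1
    · rw [zero_mul]
      exact cmp_of_hm_ne yw h1 (by omega)
    · exact cmp_of_hm_ne yw h1 (by omega)
  · simp
  · intro a b h1 h2
    rw [add_mul, map_add, h1, h2]
    split_ifs <;> simp [add_mul]
  · intro c a h1
    rw [smul_mul_assoc, map_smul, h1]
    split_ifs <;> simp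

private theorem strip_x (u : T k) : strip [0] (u * x) = u := by
  rw [x_mon]
  refine mon_ind (p := fun u => strip [0] (u * mon [0]) = u) u ?_ ?_ ?_ ?_
  · intro l
    rw [← mon_append, strip_append]
  · rw [zero_mul, map_zero]
  · intro a b h1 h2
    rw [add_mul, map_add, h1, h2]
  · intro c a h1
    rw [smul_mul_assoc, map_smul, h1]

private theorem strip_x_y (u : T k) : strip [0] (u * y) = 0 := by
  rw [y_mon]
  refine mon_ind (p := fun u => strip [0] (u * mon [1]) = 0) u ?_ ?_ ?_ ?_
  · intro l
    rw [← mon_append]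
    apply strip_not
    rintro ⟨t, ht⟩
    have := List.append_inj_right' ht rfl
    simp at this
  · rw [zero_mul, map_zero]
  · intro a b h1 h2
    rw [add_mul, map_add, h1, h2, add_zero]
  · intro c a h1
    rw [smul_mul_assoc, map_smul, h1, smul_zero]

private theorem strip_cst (c : k) : strip [0] (algebraMap k (T k) c) = 0 := by
  rw [Algebra.algebraMap_eq_smul_one, ← mon_nil, map_smul, strip_not, smul_zero]
  rintro ⟨t, ht⟩
  simp at ht

private theorem y_ne : (y : T k) ≠ 0 := by
  intro h
  have h1 : bs.repr (y : T k) [1] = 1 := by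
    rw [y_mon, repr_mon, Finsupp.single_eq_same]
  rw [h, map_zero, Finsupp.zero_apply] at h1
  exact zero_ne_one h1

private theorem dec0 {c : k} {u v : T k}
    (h : algebraMap k (T k) c + u * x + v * y = 0) : c = 0 ∧ u = 0 ∧ v = 0 := by
  have h1 := congrArg (strip [0]) h
  rw [map_add, map_add, strip_x, strip_x_y, strip_cst, map_zero, zero_add, add_zero] at h1
  subst h1
  rw [zero_mul, add_zero] at h
  have h2 := congrArg (cmp yw 0) h
  rw [map_add, cmp_of_hm yw (cst_mem c), cmp_mul_hm' y_mem, if_neg (by omega), map_zero,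
    add_zero] at h2
  have h3 : c = 0 := (FreeAlgebra.algebraMap_eq_zero_iff c).1 h2
  subst h3
  rw [map_zero, zero_add] at h
  exact ⟨rfl, rfl, (mul_eq_zero.1 h).resolve_right y_ne⟩

/-- the automorphism `x ↦ x + a` -/
private noncomputable def sg (a : k) : T k →ₐ[k] T k :=
  FreeAlgebra.lift k (fun i : Fin 2 => if i = 0 then x + algebraMap k (T k) a else y)

private theorem sg_x (a : k) : sg a (x : T k) = x + algebraMap k (T k) a := by
  unfold sg x
  rw [FreeAlgebra.lift_ι_apply, if_pos rfl]

private theorem sg_y (a : k) : sg a (y : T k) = y := by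
  unfold sg
  conv_lhs => rw [y]
  rw [FreeAlgebra.lift_ι_apply, if_neg (by decide)]
  rfl

private theorem sg_sg (a : k) (t : T k) : sg (-a) (sg a t) = t := by
  have h : (sg (-a)).comp (sg a) = AlgHom.id k (T k) := by
    apply FreeAlgebra.hom_ext
    funext i
    fin_cases i
    · change sg (-a) (sg a x) = x
      rw [sg_x, map_add, sg_x, AlgHom.commutes, map_neg]
      abel
    · change sg (-a) (sg a y) = y
      rw [sg_y, sg_y]
  exact DFunLike.congr_fun h t

private theorem sg_inj (a : k) {t : T k} (h : sg a t = 0) : t = 0 := by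
  rw [← sg_sg a t, h, map_zero]

theorem dec_exists (a : k) (t : T k) : ∃ (c : k) (u v : T k),
    t = algebraMap k (T k) c + u * el a + v * y := by
  refine mon_ind (p := fun t => ∃ (c : k) (u v : T k),
    t = algebraMap k (T k) c + u * el a + v * y) t ?_ ?_ ?_ ?_
  · intro l
    induction l with
    | nil =>
      exact ⟨1, 0, 0, by rw [mon_nil, map_one, zero_mul, zero_mul, add_zero, add_zero]⟩
    | cons i l ih =>
      obtain ⟨c, u, v, h⟩ := ih
      have hi : i = 0 ∨ i = 1 := by fin_cases i <;> simp
      rcases hi with rfl | rfl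
      · refine ⟨c * a, algebraMap k (T k) c + x * u, x * v, ?_⟩
        rw [mon_cons, h]
        change x * _ = _
        have e1 : algebraMap k (T k) c * x = x * algebraMap k (T k) c := Algebra.commutes c x
        rw [el, map_mul, mul_add, mul_add, ← e1, add_mul, mul_sub (algebraMap k (T k) c),
          mul_assoc, mul_assoc]
        abel
      · refine ⟨0, y * u, algebraMap k (T k) c + y * v, ?_⟩
        rw [mon_cons, h]
        change y * _ = _
        have e1 : algebraMap k (T k) c * y = y * algebraMap k (T k) c := Algebra.commutes c y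
        rw [map_zero, zero_add, mul_add, mul_add, ← e1, add_mul, mul_assoc, mul_assoc]
        abel
  · exact ⟨0, 0, 0, by rw [map_zero, zero_mul, zero_mul, add_zero, add_zero]⟩
  · rintro _ _ ⟨c, u, v, rfl⟩ ⟨c', u', v', rfl⟩
    refine ⟨c + c', u + u', v + v', ?_⟩
    rw [map_add, add_mul, add_mul]
    abel
  · rintro r _ ⟨c, u, v, rfl⟩
    refine ⟨r * c, r • u, r • v, ?_⟩
    rw [smul_add, smul_add, smul_mul_assoc, smul_mul_assoc, map_mul,
      Algebra.smul_def r (algebraMap k (T k) c)]

theorem dec_unique (a : k) {c : k} {u v : T k}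
    (h : algebraMap k (T k) c + u * el a + v * y = 0) : c = 0 ∧ u = 0 ∧ v = 0 := by
  have h1 := congrArg (sg a) h
  rw [map_add, map_add, map_mul, map_mul, AlgHom.commutes, sg_y, el, map_sub, sg_x,
    AlgHom.commutes, add_sub_cancel_right, map_zero] at h1
  obtain ⟨h2, h3, h4⟩ := dec0 h1
  exact ⟨h2, sg_inj a h3, sg_inj a h4⟩

theorem dec_exists_hom (a : k) {n : ℕ} {t : T k} (ht : t ∈ hm yw (n + 1)) :
    ∃ u ∈ (hm yw (n + 1) : Submodule k (T k)), ∃ v ∈ (hm yw n : Submodule k (T k)),
      t = u * el a + v * y := by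
  obtain ⟨c, u, v, h⟩ := dec_exists a t
  refine ⟨cmp yw (n + 1) u, cmp_mem_hm yw _ u, cmp yw n v, cmp_mem_hm yw _ v, ?_⟩
  have h1 := congrArg (cmp yw (n + 1)) h
  rw [cmp_of_hm yw ht, map_add, map_add, cmp_of_hm_ne yw (cst_mem c) (by omega), zero_add,
    cmp_mul_hm' (el_mem a), if_pos (by omega), cmp_mul_hm' y_mem, if_pos (by omega)] at h1
  exact h1

theorem dec_exists_zero (a : k) {t : T k} (ht : t ∈ hm yw 0) :
    ∃ (c : k), ∃ u ∈ (hm yw 0 : Submodule k (T k)),
      t = algebraMap k (T k) c + u * el a := by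
  obtain ⟨c, u, v, h⟩ := dec_exists a t
  refine ⟨c, cmp yw 0 u, cmp_mem_hm yw _ u, ?_⟩
  have h1 := congrArg (cmp yw 0) h
  rw [cmp_of_hm yw ht, map_add, map_add, cmp_of_hm yw (cst_mem c),
    cmp_mul_hm' (el_mem a), if_pos le_rfl, cmp_mul_hm' y_mem, if_neg (by omega), add_zero] at h1
  exact h1

theorem cmp_mul_el (a : k) (n : ℕ) (u : T k) :
    cmp yw n (u * el a) = cmp yw n u * el a := by
  rw [cmp_mul_hm' (el_mem a), if_pos (Nat.zero_le _), Nat.sub_zero]

theorem cmp_mul_y (n : ℕ) (v : T k) : cmp yw (n + 1) (v * y) = cmp yw n v * y := by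
  rw [cmp_mul_hm' y_mem, if_pos (by omega), Nat.add_sub_cancel]

theorem cmp_mul_y_zero (v : T k) : cmp yw 0 (v * y) = 0 := by
  rw [cmp_mul_hm' y_mem, if_neg (by omega)]

theorem pol_injective : Function.Injective (pol : Polynomial k → T k) := by
  have h : (FreeAlgebra.lift k (fun i : Fin 2 => if i = 0 then (Polynomial.X : Polynomial k)
      else 0)).comp pol = AlgHom.id k (Polynomial k) := by
    apply Polynomial.algHom_ext
    rw [AlgHom.comp_apply, pol, Polynomial.aeval_X, x, FreeAlgebra.lift_ι_apply, if_pos rfl]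
    rfl
  intro p q hpq
  have h1 := DFunLike.congr_fun h p
  have h2 := DFunLike.congr_fun h q
  rw [AlgHom.comp_apply] at h1 h2
  rw [hpq] at h1
  exact h1.symm.trans h2

theorem mul_el_cancel (a : k) {u : T k} (h : u * el a = 0) : u = 0 := by
  refine (mul_eq_zero.1 h).resolve_right ?_
  intro h1
  have h2 := (dec_unique (k := k) 0 (c := -a) (u := 1) (v := 0) (by
    rw [el, map_zero, sub_zero, one_mul, zero_mul, add_zero, map_neg, neg_add_eq_sub]
    exact h1)).2.1
  exact one_ne_zero h2

theorem mul_pol_cancel {q : Polynomial k} (hq : q ≠ 0) {u : T k} (h : u * pol q = 0) :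
    u = 0 := by
  refine (mul_eq_zero.1 h).resolve_right ?_
  intro h1
  exact hq (pol_injective (by rw [h1, map_zero]))

theorem el_eq_pol (a : k) : (el a : T k) = pol (Polynomial.X - Polynomial.C a) := by
  rw [pol, map_sub, Polynomial.aeval_X, Polynomial.aeval_C, el]

/-- `f(x) = f(a) + f'(x) (x - a)`. -/
theorem pol_dq (a : k) (f : Polynomial k) :
    (pol f : T k) = algebraMap k (T k) (f.eval a) + pol (dq a f) * el a := by
  have h := Polynomial.modByMonic_add_div f (Polynomial.X - Polynomial.C a)
  rw [Polynomial.modByMonic_X_sub_C_eq_C_eval] at h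
  have h1 : (pol (Polynomial.C (f.eval a)) : T k) = algebraMap k (T k) (f.eval a) := by
    rw [pol, Polynomial.aeval_C]
  conv_lhs => rw [← h]
  rw [map_add, h1, mul_comm (Polynomial.X - Polynomial.C a), map_mul, ← el_eq_pol]
  rfl

theorem pol_comm_el (a : k) (q : Polynomial k) : (pol q : T k) * el a = el a * pol q := by
  rw [el_eq_pol, ← map_mul, ← map_mul, mul_comm]

/-- `y (x - a) - (x - a) y = - z`. -/
theorem y_mul_el (a : k) : (y : T k) * el a = el a * y - z := by
  rw [el, z, mul_sub, sub_mul, Algebra.commutes a y]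
  abel

/-- The space of constants plus homogeneous elements is countable dimensional. -/
theorem rank_T_le : Module.rank k (T k) ≤ Cardinal.aleph0 := by
  have h := (bs : Module.Basis (List (Fin 2)) k (T k)).mk_eq_rank
  have h2 : Cardinal.mk (List (Fin 2)) ≤ Cardinal.aleph0 := Cardinal.mk_le_aleph0
  have h3 : Cardinal.lift.{0} (Module.rank k (T k)) ≤ Cardinal.aleph0 := by
    rw [← h, Cardinal.lift_le_aleph0]
    exact h2
  rwa [Cardinal.lift_le_aleph0] at h3

end Pool.Agent.Helper26.FI
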