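import Pool.Agent.Helper71.FreeThms

/-!
# Free invariants of triangular groups in rank two: definitions

`T k = k⟨x, y⟩`, `pol : k[X] → T k` the embedding `X ↦ x`, `z = x y - y x`,
`D f` the derivation of `T k` with `D f x = 0`, `D f y = f(x)`, `R0 = k⟨x, z⟩`,
`Dl L` the product of the derivations `D f`, `f ∈ L`.
-/

namespace Pool.Agent.Helper26.FI

open Pool.Agent.Helper71.FreeCore

universe u

/-- The free algebra of rank two. -/
abbrev T (k : Type u) [Field k] := FreeAlgebra k (Fin 2)

variable {k : Type u} [Field k]

/-- The first variable. -/
noncomputable def x : T k := FreeAlgebra.ι k 0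

/-- The second variable. -/
noncomputable def y : T k := FreeAlgebra.ι k 1

/-- The commutator of the variables. -/
noncomputable def z : T k := x * y - y * x

/-- The embedding of `k[X]` with `X ↦ x`. -/
noncomputable def pol : Polynomial k →ₐ[k] T k := Polynomial.aeval (x : T k)

/-- The algebra map `T → T[ε]` defining the derivation `D f`. -/
noncomputable def phi (f : Polynomial k) : T k →ₐ[k] DualNumber (T k) :=
  FreeAlgebra.lift k (fun i : Fin 2 =>
    if i = 0 then (TrivSqZeroExt.inl x : DualNumber (T k))
    else TrivSqZeroExt.inl y + TrivSqZeroExt.inr (pol f))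

/-- The derivation with `D f x = 0` and `D f y = f(x)`. -/
noncomputable def D (f : Polynomial k) : T k →ₗ[k] T k where
  toFun t := (phi f t).snd
  map_add' a b := by rw [map_add, TrivSqZeroExt.snd_add]
  map_smul' c a := by rw [map_smul, TrivSqZeroExt.snd_smul, RingHom.id_apply]

/-- The commutator `[y, q(x)]`. -/
noncomputable def dlt (q : Polynomial k) : T k := y * pol q - pol q * y

/-- The subalgebra generated by `x` and `z`. -/
noncomputable def R0 (k : Type u) [Field k] : Subalgebra k (T k) := Algebra.adjoin k {x, z}

/-- The product of the derivations in a list. -/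
noncomputable def Dl : List (Polynomial k) → (T k →ₗ[k] T k)
  | [] => LinearMap.id
  | f :: L => D f ∘ₗ Dl L

/-- The common kernel of the derivations in a list. -/
noncomputable def TV (L : List (Polynomial k)) : Submodule k (T k) where
  carrier := {t | ∀ f ∈ L, D f t = 0}
  add_mem' ha hb f hf := by rw [map_add, ha f hf, hb f hf, add_zero]
  zero_mem' f _ := map_zero _
  smul_mem' c a ha f hf := by rw [map_smul, ha f hf, smul_zero]

/-- The space `R0 + range (Dl L)`. -/
noncomputable def Q (L : List (Polynomial k)) : Submodule k (T k) :=
  Subalgebra.toSubmodule (R0 k) ⊔ LinearMap.range (Dl L)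

/-- Linear independence of a list of polynomials. -/
def LI (L : List (Polynomial k)) : Prop := LinearIndependent k (fun i : Fin L.length => L.get i)

/-- The weights counting the letter `y`. -/
def yw : Fin 2 → ℕ := ![0, 1]

/-- The linear polynomial `x - a`. -/
noncomputable def el (a : k) : T k := x - algebraMap k (T k) a

/-- The quotient of `f - f(a)` by `X - a`. -/
noncomputable def dq (a : k) (f : Polynomial k) : Polynomial k := f /ₘ (Polynomial.X - Polynomial.C a)

end Pool.Agent.Helper26.FI
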