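import Pool.Agent.Helper26.FI.Defs

/-!
# The derivations `D f`

PLAN.  `phi f` is an algebra map `T → T[ε]` (`DualNumber (T k) = TrivSqZeroExt (T k) (T k)`).
* `phi_fst`: both `t ↦ (phi f t).fst` (an algebra map, `TrivSqZeroExt.fstHom`) and the identity agree
  on `ι i` (`FreeAlgebra.hom_ext`).
* `D_mul`: `TrivSqZeroExt.snd_mul` : `(a * b).snd = a.fst • b.snd + op b.fst • a.snd`
  (`smul_eq_mul`, `op_smul_eq_mul`), and `phi_fst`.
* `D_pol`: induction on `q` (`Polynomial.induction_on'` or: `pol q ∈ Algebra.adjoin k {x}`;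
  or `Polynomial.induction_on`), `D_x`, `D_mul`.
* `D_comm`: `fun t => D f (D g t) - D g (D f t)` is a derivation (use `D_mul`, `noncomm_ring`)
  vanishing on the generators (`D_x`, `D_y`, `D_pol`); conclude with `FreeAlgebra.induction`
  (or `der_ext` below, which you prove first).
* `D_sq`: in characteristic two `D f ∘ D f` is a derivation (the middle term is
  `2 * (D f a * D f b) = 0`, `CharTwo`), vanishing on the generators.
* `D_add`, `D_smul`: `der_ext` again.
* `D_yhom`: `hm_ind`-induction over monomials `mon l` with `wt yw l = n + 1`: prove for all lists `l`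
  by induction: `D f (mon l) ∈ hm yw n` if `wt yw l = n + 1`, and `D f (mon l) = 0` if
  `wt yw l = 0`; use `mon_cons`, `D_mul`, `mul_mem_hm`, `mon_mem_hm`, `pol_yhom`
  (`pol q ∈ hm yw 0`: `Polynomial.induction_on'`).
-/

namespace Pool.Agent.Helper26.FI

open Pool.Agent.Helper71.FreeCore

universe u

variable {k : Type u} [Field k]

theorem phi_fst (f : Polynomial k) (t : T k) : (phi f t).fst = t := by
  have h : (TrivSqZeroExt.fstHom k (T k) (T k)).comp (phi f) = AlgHom.id k (T k) := by
    apply FreeAlgebra.hom_ext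
    funext i
    fin_cases i
    · change (phi f (FreeAlgebra.ι k 0)).fst = FreeAlgebra.ι k 0
      rw [phi, FreeAlgebra.lift_ι_apply]
      rfl
    · change (phi f (FreeAlgebra.ι k 1)).fst = FreeAlgebra.ι k 1
      rw [phi, FreeAlgebra.lift_ι_apply, if_neg (by decide), TrivSqZeroExt.fst_add,
        TrivSqZeroExt.fst_inl, TrivSqZeroExt.fst_inr, add_zero]
      rfl
  exact DFunLike.congr_fun h t

theorem D_mul (f : Polynomial k) (a b : T k) : D f (a * b) = D f a * b + a * D f b := by
  change (phi f (a * b)).snd = (phi f a).snd * b + a * (phi f b).snd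
  rw [map_mul, TrivSqZeroExt.snd_mul, phi_fst, phi_fst, smul_eq_mul, op_smul_eq_mul,
    add_comm]

theorem D_x (f : Polynomial k) : D f (x : T k) = 0 := by
  change (phi f (FreeAlgebra.ι k 0)).snd = 0
  rw [phi, FreeAlgebra.lift_ι_apply]
  rfl

theorem D_y (f : Polynomial k) : D f (y : T k) = pol f := by
  change (phi f (FreeAlgebra.ι k 1)).snd = pol f
  rw [phi, FreeAlgebra.lift_ι_apply, if_neg (by decide), TrivSqZeroExt.snd_add,
    TrivSqZeroExt.snd_inl, TrivSqZeroExt.snd_inr, zero_add]

/-- a map with the Leibniz rule kills constants -/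
private theorem der_const (d : T k →ₗ[k] T k) (hd : ∀ a b, d (a * b) = d a * b + a * d b) (c : k) :
    d (algebraMap k (T k) c) = 0 := by
  have h1 : d 1 = 0 := by
    have h := hd 1 1
    rw [mul_one, mul_one, one_mul] at h
    exact left_eq_add.1 h
  rw [Algebra.algebraMap_eq_smul_one, map_smul, h1, smul_zero]

theorem D_alg (f : Polynomial k) (c : k) : D f (algebraMap k (T k) c) = 0 :=
  der_const (D f) (D_mul f) c

/-- Two additive maps satisfying the Leibniz rule and agreeing on constants, `x`, `y` are equal. -/
theorem der_ext (d e : T k →ₗ[k] T k)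
    (hd : ∀ a b, d (a * b) = d a * b + a * d b) (he : ∀ a b, e (a * b) = e a * b + a * e b)
    (hx : d x = e x) (hy : d y = e y) (t : T k) : d t = e t := by
  refine FreeAlgebra.induction k (Fin 2) (motive := fun t => d t = e t) ?_ ?_ ?_ ?_ t
  · intro c
    change d (algebraMap k (T k) c) = e (algebraMap k (T k) c)
    rw [der_const d hd, der_const e he]
  · intro i
    fin_cases i
    · exact hx
    · exact hy
  · intro a b ha hb
    change d (a * b) = e (a * b)
    rw [hd, he, ha, hb]
  · intro a b ha hb
    change d (a + b) = e (a + b)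
    rw [map_add, map_add, ha, hb]

private theorem pol_X : pol (Polynomial.X : Polynomial k) = x := Polynomial.aeval_X _

private theorem pol_comm (f g : Polynomial k) : pol f * pol g = pol g * pol f := by
  rw [← map_mul, ← map_mul, mul_comm]

theorem D_pol (f q : Polynomial k) : D f (pol q) = 0 := by
  induction q using Polynomial.induction_on' with
  | add p q hp hq => rw [map_add, map_add, hp, hq, add_zero]
  | monomial n a =>
    rw [← mul_one a, ← smul_eq_mul, ← Polynomial.smul_monomial, map_smul, map_smul]
    have h : ∀ n : ℕ, D f (pol (Polynomial.monomial n (1 : k))) = 0 := by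
      intro n
      induction n with
      | zero =>
        rw [Polynomial.monomial_zero_one, map_one, ← map_one (algebraMap k (T k)), D_alg]
      | succ n ih =>
        rw [← Polynomial.monomial_mul_X, map_mul, pol_X, D_mul, D_x, ih, zero_mul, mul_zero,
          add_zero]
    rw [h, smul_zero]

theorem D_mul_pol (f : Polynomial k) (a : T k) (q : Polynomial k) :
    D f (a * pol q) = D f a * pol q := by
  rw [D_mul, D_pol, mul_zero, add_zero]

theorem D_pol_mul (f : Polynomial k) (a : T k) (q : Polynomial k) :
    D f (pol q * a) = pol q * D f a := by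
  rw [D_mul, D_pol, zero_mul, zero_add]

theorem D_mul_el (f : Polynomial k) (a : T k) (c : k) : D f (a * el c) = D f a * el c := by
  have h : D f (el c) = 0 := by
    rw [el, map_sub, D_x, D_alg, sub_zero]
  rw [D_mul, h, mul_zero, add_zero]

theorem D_mul_y (f : Polynomial k) (a : T k) : D f (a * y) = D f a * y + a * pol f := by
  rw [D_mul, D_y]

theorem D_z (f : Polynomial k) : D f (z : T k) = 0 := by
  rw [z, map_sub, D_mul, D_mul, D_x, D_y, zero_mul, mul_zero, zero_add, add_zero, ← pol_X,
    pol_comm, sub_self]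

theorem D_dlt (f q : Polynomial k) : D f (dlt q) = 0 := by
  rw [dlt, map_sub, D_mul_pol, D_pol_mul, D_y, pol_comm, sub_self]

theorem D_R0 (f : Polynomial k) {r : T k} (hr : r ∈ R0 k) : D f r = 0 := by
  refine Algebra.adjoin_induction (p := fun r _ => D f r = 0) ?_ ?_ ?_ ?_ hr
  · intro a ha
    rcases ha with rfl | ha
    · exact D_x f
    · rw [Set.mem_singleton_iff.1 ha]
      exact D_z f
  · intro c
    exact D_alg f c
  · intro a b _ _ ha hb
    rw [map_add, ha, hb, add_zero]
  · intro a b _ _ ha hb
    rw [D_mul, ha, hb, zero_mul, mul_zero, add_zero]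

theorem D_comm (f g : Polynomial k) (t : T k) : D f (D g t) = D g (D f t) := by
  have h := der_ext (D f ∘ₗ D g - D g ∘ₗ D f) 0
    (fun a b => by
      simp only [LinearMap.sub_apply, LinearMap.comp_apply]
      rw [D_mul, D_mul, map_add, map_add, D_mul, D_mul, D_mul, D_mul]
      noncomm_ring)
    (fun a b => by simp)
    (by simp only [LinearMap.sub_apply, LinearMap.comp_apply, D_x, map_zero, sub_self,
          LinearMap.zero_apply])
    (by simp only [LinearMap.sub_apply, LinearMap.comp_apply, D_y, D_pol, sub_self,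
          LinearMap.zero_apply]) t
  exact sub_eq_zero.1 h

theorem D_sq [CharP k 2] (f : Polynomial k) (t : T k) : D f (D f t) = 0 := by
  have h2 : ∀ u : T k, u + u = 0 := by
    intro u
    have h3 : (2 : k) = 0 := by exact_mod_cast CharP.cast_eq_zero k 2
    rw [← two_smul k u, h3, zero_smul]
  have h := der_ext (D f ∘ₗ D f) 0
    (fun a b => by
      simp only [LinearMap.comp_apply]
      rw [D_mul, map_add, D_mul, D_mul]
      have h4 : D f (D f a) * b + D f a * D f b + (D f a * D f b + a * D f (D f b))
          = D f (D f a) * b + a * D f (D f b) + (D f a * D f b + D f a * D f b) := by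
        abel
      rw [h4, h2, add_zero])
    (fun a b => by simp)
    (by simp only [LinearMap.comp_apply, D_x, map_zero, LinearMap.zero_apply])
    (by simp only [LinearMap.comp_apply, D_y, D_pol, LinearMap.zero_apply]) t
  exact h

theorem D_add (f g : Polynomial k) (t : T k) : D (f + g) t = D f t + D g t :=
  der_ext (D (f + g)) (D f + D g) (D_mul _)
    (fun a b => by
      simp only [LinearMap.add_apply]
      rw [D_mul, D_mul]
      noncomm_ring)
    (by simp only [LinearMap.add_apply, D_x, add_zero])
    (by simp only [LinearMap.add_apply, D_y, map_add]) t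

theorem D_smul (c : k) (f : Polynomial k) (t : T k) : D (c • f) t = c • D f t :=
  der_ext (D (c • f)) (c • D f) (D_mul _)
    (fun a b => by
      simp only [LinearMap.smul_apply]
      rw [D_mul, smul_add, smul_mul_assoc, mul_smul_comm])
    (by simp only [LinearMap.smul_apply, D_x, smul_zero])
    (by simp only [LinearMap.smul_apply, D_y, map_smul]) t

private theorem x_hm : (x : T k) ∈ hm yw 0 := by
  have h : (mon [(0 : Fin 2)] : T k) ∈ hm yw 0 := mon_mem_hm yw (by decide)
  rwa [mon_cons, mon_nil, mul_one] at h

private theorem y_hm : (y : T k) ∈ hm yw 1 := by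
  have h : (mon [(1 : Fin 2)] : T k) ∈ hm yw 1 := mon_mem_hm yw (by decide)
  rwa [mon_cons, mon_nil, mul_one] at h

private theorem one_hm : (1 : T k) ∈ hm yw 0 := by
  have h : (mon ([] : List (Fin 2)) : T k) ∈ hm yw 0 := mon_mem_hm yw (by decide)
  rwa [mon_nil] at h

theorem pol_yhom (q : Polynomial k) : (pol q : T k) ∈ hm yw 0 := by
  induction q using Polynomial.induction_on' with
  | add p q hp hq => rw [map_add]; exact Submodule.add_mem _ hp hq
  | monomial n a =>
    rw [← mul_one a, ← smul_eq_mul, ← Polynomial.smul_monomial, map_smul]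
    refine Submodule.smul_mem _ _ ?_
    induction n with
    | zero => rw [Polynomial.monomial_zero_one, map_one]; exact one_hm
    | succ n ih =>
      rw [← Polynomial.monomial_mul_X, map_mul, pol_X]
      have h1 := mul_mem_hm yw ih (x_hm (k := k))
      rwa [zero_add] at h1

private theorem D_mon (f : Polynomial k) (l : List (Fin 2)) :
    (wt yw l = 0 → D f (mon l) = 0) ∧ (∀ n, wt yw l = n + 1 → D f (mon l) ∈ hm yw n) := by
  induction l with
  | nil =>
    refine ⟨fun _ => ?_, fun n h => ?_⟩
    · rw [mon_nil, ← map_one (algebraMap k (T k)), D_alg]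
    · rw [wt_nil] at h
      omega
  | cons i l ih =>
    rw [mon_cons, wt_cons]
    fin_cases i
    · have h0 : yw 0 = 0 := rfl
      change (yw 0 + wt yw l = 0 → D f (x * mon l) = 0)
        ∧ (∀ n, yw 0 + wt yw l = n + 1 → D f (x * mon l) ∈ hm yw n)
      rw [h0, zero_add, D_mul, D_x, zero_mul, zero_add]
      refine ⟨fun h => ?_, fun n h => ?_⟩
      · rw [ih.1 h, mul_zero]
      · have h1 := mul_mem_hm yw (x_hm (k := k)) (ih.2 n h)
        rwa [zero_add] at h1
    · have h0 : yw 1 = 1 := rfl
      change (yw 1 + wt yw l = 0 → D f (y * mon l) = 0)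
        ∧ (∀ n, yw 1 + wt yw l = n + 1 → D f (y * mon l) ∈ hm yw n)
      rw [h0]
      refine ⟨fun h => absurd h (by omega), fun n h => ?_⟩
      have h1 : wt yw l = n := by omega
      rw [D_mul, D_y]
      refine Submodule.add_mem _ ?_ ?_
      · have h2 := mul_mem_hm yw (pol_yhom f) (mon_mem_hm (k := k) yw h1)
        rwa [zero_add] at h2
      · cases n with
        | zero => rw [ih.1 h1, mul_zero]; exact Submodule.zero_mem _
        | succ m =>
          have h2 := mul_mem_hm yw (y_hm (k := k)) (ih.2 m h1)
          rwa [add_comm 1 m] at h2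

theorem D_yhom (f : Polynomial k) {n : ℕ} {t : T k} (ht : t ∈ hm yw (n + 1)) :
    D f t ∈ hm yw n := by
  refine hm_ind yw (p := fun t => D f t ∈ hm yw n) ht ?_ ?_ ?_ ?_
  · intro l hl
    exact (D_mon f l).2 n hl
  · rw [map_zero]; exact Submodule.zero_mem _
  · intro a b ha hb
    rw [map_add]; exact Submodule.add_mem _ ha hb
  · intro c a ha
    rw [map_smul]; exact Submodule.smul_mem _ _ ha

theorem D_yhom_zero (f : Polynomial k) {t : T k} (ht : t ∈ hm yw 0) : D f t = 0 := by
  refine hm_ind yw (p := fun t => D f t = 0) ht ?_ ?_ ?_ ?_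
  · intro l hl
    exact (D_mon f l).1 hl
  · rw [map_zero]
  · intro a b ha hb
    rw [map_add, ha, hb, add_zero]
  · intro c a ha
    rw [map_smul, ha, smul_zero]

/-- `D f` commutes with taking homogeneous components in `y`. -/
theorem D_cmp (f : Polynomial k) (n : ℕ) (t : T k) :
    D f (cmp yw (n + 1) t) = cmp yw n (D f t) := by
  refine mon_ind (p := fun t => D f (cmp yw (n + 1) t) = cmp yw n (D f t)) t ?_ ?_ ?_ ?_
  · intro l
    rw [cmp_mon]
    obtain ⟨h1, h2⟩ := D_mon f l
    split_ifs with h
    · exact (cmp_of_hm yw (h2 n h)).symm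
    · rw [map_zero]
      rcases Nat.eq_zero_or_pos (wt yw l) with h3 | h3
      · rw [h1 h3, map_zero]
      · obtain ⟨m, hm⟩ : ∃ m, wt yw l = m + 1 := ⟨wt yw l - 1, by omega⟩
        exact (cmp_of_hm_ne yw (h2 m hm) (by omega)).symm
  · simp only [map_zero]
  · intro a b ha hb
    rw [map_add, map_add, map_add, map_add, ha, hb]
  · intro c a ha
    rw [map_smul, map_smul, map_smul, map_smul, ha]

end Pool.Agent.Helper26.FI
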