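import Mathlib

/-!
# A large field extension

PLAN.  Let `K = AlgebraicClosure (FractionRing (MvPolynomial ℝ k))`: algebraically closed, of characteristic two
(`charP_of_injective_algebraMap`), uncountable (`ℝ → K`, `r ↦ X r`, is injective: `MvPolynomial.X_injective`,
`IsFractionRing.injective`, field embedding; so `Uncountable K` from `Uncountable ℝ`,
`Function.Injective.uncountable`).  (Any other uncountable algebraically closed extension will do.)
-/

namespace Pool.Agent.Helper26.FI

universe u

/-- A field extension that is algebraically closed and uncountable. -/
theorem exists_big (k : Type u) [Field k] [CharP k 2] :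
    ∃ (K : Type u) (_ : Field K) (_ : Algebra k K), IsAlgClosed K ∧ Uncountable K ∧ CharP K 2 := by
  let L : Type u := FractionRing (MvPolynomial ℝ k)
  let K : Type u := AlgebraicClosure L
  refine ⟨K, inferInstance, inferInstance, inferInstance, ?_, ?_⟩
  · have h1 : Function.Injective (fun r : ℝ => algebraMap L K
        (algebraMap (MvPolynomial ℝ k) L (MvPolynomial.X r))) := by
      intro r s h
      have h2 := (algebraMap L K).injective h
      have h3 := IsFractionRing.injective (MvPolynomial ℝ k) L h2
      exact MvPolynomial.X_injective h3
    exact h1.uncountable
  · exact charP_of_injective_algebraMap (algebraMap k K).injective 2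

end Pool.Agent.Helper26.FI
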