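import Pool.Agent.Helper26.FI.Defs

/-!
# Linear independence and field extensions
-/

namespace Pool.Agent.Helper26.FI

open Pool.Agent.Helper71.FreeCore

universe u

private theorem li_map {k K : Type u} [Field k] [Field K] [Algebra k K] {ι : Type} [Fintype ι]
    {v : ι → Polynomial k} (hv : LinearIndependent k v) :
    LinearIndependent K (fun i => (v i).map (algebraMap k K)) := by
  rw [Fintype.linearIndependent_iff] at hv ⊢
  intro g hg i
  rw [← Module.forall_dual_apply_eq_zero_iff k (g i)]
  intro ψ
  refine hv (fun i => ψ (g i)) ?_ i
  ext n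
  have h1 := congrArg (fun p : Polynomial K => ψ (p.coeff n)) hg
  simp only [Polynomial.finsetSum_coeff, Polynomial.coeff_smul, Polynomial.coeff_map, smul_eq_mul,
    map_sum, Polynomial.coeff_zero, map_zero] at h1 ⊢
  rw [← h1]
  refine Finset.sum_congr rfl fun j _ => ?_
  rw [mul_comm (g j), ← Algebra.smul_def, map_smul, smul_eq_mul, mul_comm]

theorem LI_baseChange {k K : Type u} [Field k] [Field K] [Algebra k K] {L : List (Polynomial k)}
    (h : LI L) : LI (L.map (Polynomial.map (algebraMap k K))) := by
  have h1 := li_map (K := K) h
  have h2 := h1.comp (finCongr (List.length_map (as := L) (Polynomial.map (algebraMap k K))))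
    (finCongr _).injective
  unfold LI
  convert h2 using 1
  funext i
  simp

end Pool.Agent.Helper26.FI
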