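import Pool.Agent.Helper26.FI.R0M

/-!
# Descent of the inclusion `TV L ≤ Q L` from an extension field

PLAN.
* `bc K : T k →ₐ[k] T K`: `FreeAlgebra.lift k (FreeAlgebra.ι K)` (`T K` is a `k`-algebra through `K`; if the
  `Algebra k (FreeAlgebra K _)` instance makes trouble use a ring homomorphism built from the monoid algebra, or
  `k`-linear map on the basis `bs`); it maps `mon l` to `mon l`, `pol q` to `pol (q.map (algebraMap k K))`, `x, y, z` to
  `x, y, z`, and `D (f.map _) (bc t) = bc (D f t)` (induction over monomials or `FreeAlgebra.induction`).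
* `ret φ : T K → T k` for a `k`-linear `φ : K →ₗ[k] k` with `φ 1 = 1` (`LinearMap.exists_leftInverse_of_injective`):
  on the basis, `ret (a • mon l) = φ a • mon l`; construct it as an additive (`k`-linear) map
  through `bs.repr` and `Finsupp.mapRange`.  `ret (a • bc u) = φ a • u`.
* `D f (ret u) = ret (D (f.map _) u)`: by additivity it is enough to check `u = a • mon l = a • bc (mon l)`.  Hence
  `Dl L (ret u) = ret (Dl (L.map _) u)`.
* `ret` maps `R0 K` into `R0 k`: `R0 K` is the `K`-span of the products of `x, z` (`Algebra.adjoin_eq_span`), these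
  products are `bc` of products, `ret (a • bc m) = φ a • m`.
* Conclusion: `t ∈ TV L`, then `bc t ∈ TV (L.map (map _)) ≤ Q (L.map (map _))`, so
  `bc t = r + Dl _ c` (`mem_Q`), and `t = ret (bc t) = ret r + Dl L (ret c)`.
-/

namespace Pool.Agent.Helper26.FI

open Pool.Agent.Helper71.FreeCore

universe u

section BC

variable {k K : Type u} [Field k] [Field K] [Algebra k K]

/-- Base change. -/
private noncomputable def bc (k K : Type u) [Field k] [Field K] [Algebra k K] : T k →ₐ[k] T K :=
  FreeAlgebra.lift k (FreeAlgebra.ι K)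

private theorem bc_iota (i : Fin 2) : bc k K (FreeAlgebra.ι k i) = FreeAlgebra.ι K i := by
  simp [bc]

private theorem bc_x : bc k K x = x := bc_iota 0

private theorem bc_y : bc k K y = y := bc_iota 1

private theorem bc_z : bc k K z = z := by
  simp only [z, map_sub, map_mul, bc_x, bc_y]

private theorem bc_mon (l : List (Fin 2)) : bc k K (mon l) = mon l := by
  induction l with
  | nil => rw [mon_nil, mon_nil, map_one]
  | cons i l ih => rw [mon_cons, mon_cons, map_mul, ih, bc_iota]

private theorem alg_T (c : k) : algebraMap k (T K) c = algebraMap K (T K) (algebraMap k K c) := by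
  rfl

private theorem smul_T (c : k) (u : T K) : c • u = (algebraMap k K c) • u := by
  rw [Algebra.smul_def, Algebra.smul_def, alg_T]

private theorem bc_alg (c : k) :
    bc k K (algebraMap k (T k) c) = algebraMap K (T K) (algebraMap k K c) := by
  rw [AlgHom.commutes, alg_T]

private theorem bc_pol (q : Polynomial k) :
    bc k K (pol q) = pol (q.map (algebraMap k K)) := by
  induction q using Polynomial.induction_on' with
  | add p q hp hq => rw [map_add, map_add, hp, hq, Polynomial.map_add, map_add]
  | monomial n a =>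
    simp only [pol, Polynomial.map_monomial, Polynomial.aeval_monomial, map_mul, map_pow, bc_x,
      bc_alg]

private theorem bc_D (f : Polynomial k) (t : T k) :
    D (f.map (algebraMap k K)) (bc k K t) = bc k K (D f t) := by
  induction t using FreeAlgebra.induction with
  | grade0 r => rw [bc_alg, D_alg, D_alg, map_zero]
  | grade1 i =>
    fin_cases i
    · change D (f.map (algebraMap k K)) (bc k K x) = bc k K (D f x)
      rw [bc_x, D_x, D_x, map_zero]
    · change D (f.map (algebraMap k K)) (bc k K y) = bc k K (D f y)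
      rw [bc_y, D_y, D_y, bc_pol]
  | mul a b ha hb => rw [map_mul, D_mul, ha, hb, D_mul, map_add, map_mul, map_mul]
  | add a b ha hb => rw [map_add, map_add, ha, hb, map_add, map_add]

/-- Retraction. -/
private noncomputable def ret (φ : K →ₗ[k] k) : T K →+ T k :=
  ((bs.repr.symm : (List (Fin 2) →₀ k) ≃ₗ[k] T k).toLinearMap.toAddMonoidHom.comp
    (Finsupp.mapRange.addMonoidHom φ.toAddMonoidHom)).comp
    ((bs.repr : T K ≃ₗ[K] (List (Fin 2) →₀ K)).toLinearMap.toAddMonoidHom)

private theorem ret_apply (φ : K →ₗ[k] k) (u : T K) :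
    ret φ u = (bs.repr.symm : (List (Fin 2) →₀ k) ≃ₗ[k] T k)
      (Finsupp.mapRange.addMonoidHom φ.toAddMonoidHom (bs.repr u)) := rfl

private theorem ret_mon (φ : K →ₗ[k] k) (a : K) (l : List (Fin 2)) :
    ret φ (a • mon l) = φ a • (mon l : T k) := by
  rw [ret_apply, map_smul, repr_mon, Finsupp.smul_single, smul_eq_mul, mul_one]
  rw [Finsupp.mapRange.addMonoidHom_apply, Finsupp.mapRange_single]
  change bs.repr.symm (Finsupp.single l (φ a)) = _
  have h1 : (Finsupp.single l (φ a) : List (Fin 2) →₀ k) = bs.repr (φ a • (mon l : T k)) := by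
    rw [map_smul, repr_mon, Finsupp.smul_single, smul_eq_mul, mul_one]
  rw [h1, LinearEquiv.symm_apply_apply]

private theorem ret_smul_bc (φ : K →ₗ[k] k) (u : T k) :
    ∀ a : K, ret φ (a • bc k K u) = φ a • u := by
  refine mon_ind (p := fun u => ∀ a : K, ret φ (a • bc k K u) = φ a • u) u ?_ ?_ ?_ ?_
  · intro l a
    rw [bc_mon, ret_mon]
  · intro a
    rw [map_zero, smul_zero, map_zero, smul_zero]
  · intro u v hu hv a
    rw [map_add, smul_add, map_add, hu, hv, smul_add]
  · intro c u hu a
    have h1 : a • bc k K (c • u) = (c • a) • bc k K u := by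
      rw [map_smul, smul_T c, smul_smul, Algebra.smul_def c a, mul_comm]
    rw [h1, hu, map_smul, smul_eq_mul, smul_smul, mul_comm]

private theorem ret_D (φ : K →ₗ[k] k) (f : Polynomial k) (u : T K) :
    D f (ret φ u) = ret φ (D (f.map (algebraMap k K)) u) := by
  have key : ∀ a : K, D f (ret φ (a • u)) = ret φ (D (f.map (algebraMap k K)) (a • u)) := by
    refine mon_ind (p := fun u => ∀ a : K,
      D f (ret φ (a • u)) = ret φ (D (f.map (algebraMap k K)) (a • u))) u ?_ ?_ ?_ ?_
    · intro l a
      rw [← bc_mon (k := k), ret_smul_bc, map_smul (D f),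
        map_smul (D (f.map (algebraMap k K))), bc_D, ret_smul_bc]
    · intro a
      simp only [smul_zero, map_zero]
    · intro u v hu hv a
      simp only [smul_add, map_add, hu a, hv a]
    · intro c u hu a
      rw [smul_smul]
      exact hu _
  have h := key 1
  rwa [one_smul] at h

private theorem ret_Dl (φ : K →ₗ[k] k) (L : List (Polynomial k)) (u : T K) :
    Dl L (ret φ u) = ret φ (Dl (L.map (Polynomial.map (algebraMap k K))) u) := by
  induction L with
  | nil => rfl
  | cons f L ih =>
    rw [List.map_cons]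
    change D f (Dl L (ret φ u)) = ret φ (D (f.map (algebraMap k K))
      (Dl (L.map (Polynomial.map (algebraMap k K))) u))
    rw [ih, ret_D]

private theorem ret_R0 (φ : K →ₗ[k] k) {r : T K} (hr : r ∈ R0 K) : ret φ r ∈ R0 k := by
  have h1 : r ∈ Submodule.span K ((Submonoid.closure ({x, z} : Set (T K)) : Submonoid (T K)) :
      Set (T K)) := by
    rw [← Algebra.adjoin_eq_span]
    exact hr
  have h2 : ∀ m ∈ (Submonoid.closure ({x, z} : Set (T K)) : Submonoid (T K)),
      ∃ m' ∈ R0 k, bc k K m' = m := by
    intro m hm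
    induction hm using Submonoid.closure_induction with
    | mem m hm =>
      rcases hm with rfl | rfl
      · exact ⟨x, x_mem_R0, bc_x⟩
      · exact ⟨z, z_mem_R0, bc_z⟩
    | one => exact ⟨1, one_mem _, map_one _⟩
    | mul a b _ _ ha hb =>
      obtain ⟨a', ha', rfl⟩ := ha
      obtain ⟨b', hb', rfl⟩ := hb
      exact ⟨a' * b', mul_mem ha' hb', map_mul _ _ _⟩
  have h3 : ∀ a : K, ret φ (a • r) ∈ R0 k := by
    refine Submodule.span_induction (p := fun r _ => ∀ a : K, ret φ (a • r) ∈ R0 k)
      ?_ ?_ ?_ ?_ h1
    · intro m hm a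
      obtain ⟨m', hm', rfl⟩ := h2 m hm
      rw [ret_smul_bc]
      exact Subalgebra.smul_mem _ hm' _
    · intro a
      rw [smul_zero, map_zero]
      exact zero_mem _
    · intro u v _ _ hu hv a
      rw [smul_add, map_add]
      exact add_mem (hu a) (hv a)
    · intro c u _ hu a
      rw [smul_smul]
      exact hu _
  have h := h3 1
  rwa [one_smul] at h

end BC

theorem descent {k K : Type u} [Field k] [Field K] [Algebra k K] (L : List (Polynomial k))
    (h : TV (L.map (Polynomial.map (algebraMap k K))) ≤ Q (L.map (Polynomial.map (algebraMap k K)))) :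
    TV L ≤ Q L := by
  intro t ht
  obtain ⟨φ, hφ⟩ := LinearMap.exists_leftInverse_of_injective (Algebra.linearMap k K)
    (LinearMap.ker_eq_bot.mpr (algebraMap k K).injective)
  have hφ1 : φ 1 = 1 := by
    have h1 := LinearMap.congr_fun hφ 1
    simpa using h1
  have h1 : bc k K t ∈ TV (L.map (Polynomial.map (algebraMap k K))) := by
    intro f hf
    obtain ⟨g, hg, rfl⟩ := List.mem_map.mp hf
    rw [bc_D, ht g hg, map_zero]
  obtain ⟨r, hr, c, hc⟩ := mem_Q.mp (h h1)
  refine mem_Q.mpr ⟨ret φ r, ret_R0 φ hr, ret φ c, ?_⟩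
  have h2 := ret_smul_bc φ t 1
  rw [one_smul, hφ1, one_smul] at h2
  rw [ret_Dl, ← map_add, ← hc, h2]

end Pool.Agent.Helper26.FI
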