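import Pool.Agent.Helper26.FI.Big
import Pool.Agent.Helper26.FI.DescA
import Pool.Agent.Helper26.FI.DescB
import Pool.Agent.Helper26.FI.DescC

/-!
# The common kernel of the derivations in characteristic two
-/

namespace Pool.Agent.Helper26.FI

open Pool.Agent.Helper71.FreeCore

universe u

/-- In characteristic two the common kernel of the derivations `D f`, `f ∈ L`, with `L`
linearly independent, is `k⟨x, z⟩ + Π_{f ∈ L} D f (T)`. -/
theorem TV_le_Q {k : Type u} [Field k] [CharP k 2] (L : List (Polynomial k)) (hL : LI L) :
    TV L ≤ Q L := by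
  obtain ⟨K, _, _, _, _, _⟩ := exists_big k
  exact descent (K := K) L (big _ _ rfl (LI_baseChange hL))

end Pool.Agent.Helper26.FI
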