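import Pool.Agent.Helper26.FI.ListAux

/-!
# Echelon form of a list of polynomials (characteristic two)

PLAN.  `exists_reduce`: let `E` be a list of monic polynomials and `f` a polynomial not in the span of `E`.  Among
the elements of the coset `f + span E` choose `v` with minimal `natDegree` (well-foundedness of `<` on `ℕ`,
`WellFounded.min` or `Nat.find`).  `v ≠ 0`.  If `v.natDegree = e.natDegree` for some `e ∈ E` then
`v - v.leadingCoeff • e` is in the coset and has smaller degree (`Polynomial.degree_sub_lt`), unless its `natDegree` is `0`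
and it is `0` - impossible, or both have `natDegree 0`, when `v - c e = 0` - impossible; contradiction.  So
`v.natDegree ∉ E.map natDegree`.
`exists_ech`: induction on `L`.  For `f :: L`: `LI (f :: L)` gives `LI L` and `f ∉ span L`
(`linearIndependent_fin_cons` or by hand).  The span of `E` is contained in the span of `L`, so `f ∉ span E`; take
`v = f + Σ c_j e_j` as above, `c = v.leadingCoeff`, `e = c⁻¹ • v` monic, `E' = e :: E`.
`Dl (f :: L) t = D f (c0 • Dl E t) = c0 • D (v - Σ c_j e_j) (Dl E t) = c0 • D v (Dl E t)` since
`D e_j (Dl E t) = 0` (`D_Dl_mem`); `D v = c • D e` (`D_smul`).  (For `D u (Dl E t) = 0` for all `u ∈ span E` use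
`Submodule.span_induction`, `D_add`, `D_smul`.)
`LI_mono`: monomials of distinct degrees are linearly independent (coefficients; or `Polynomial.basisMonomials`
composed with the injective map `i ↦ ds.get i`).
-/

namespace Pool.Agent.Helper26.FI

open Pool.Agent.Helper71.FreeCore

universe u

variable {k : Type u} [Field k]

private theorem ec_reduce (E : List (Polynomial k)) (hE : ∀ e ∈ E, e.Monic) (f : Polynomial k)
    (hf : f ∉ Submodule.span k {g : Polynomial k | g ∈ E}) :
    ∃ u ∈ Submodule.span k {g : Polynomial k | g ∈ E}, f + u ≠ 0 ∧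
      (f + u).natDegree ∉ E.map Polynomial.natDegree := by
  classical
  set S := Submodule.span k {g : Polynomial k | g ∈ E} with hS
  have hne : ∀ u ∈ S, f + u ≠ 0 := by
    intro u hu h
    apply hf
    have h1 : f = -u := eq_neg_of_add_eq_zero_left h
    rw [h1]
    exact S.neg_mem hu
  have hex : ∃ n, ∃ u ∈ S, (f + u).natDegree = n := ⟨_, 0, S.zero_mem, rfl⟩
  obtain ⟨u, hu, hun⟩ := Nat.find_spec hex
  have hmin : ∀ v ∈ S, (f + u).natDegree ≤ (f + v).natDegree := by
    intro v hv
    rw [hun]
    exact Nat.find_min' hex ⟨v, hv, rfl⟩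
  refine ⟨u, hu, hne u hu, fun hmem => ?_⟩
  obtain ⟨e, he, hde⟩ := List.mem_map.1 hmem
  have hem := hE e he
  set c := (f + u).leadingCoeff with hc
  have hc0 : c ≠ 0 := Polynomial.leadingCoeff_ne_zero.2 (hne u hu)
  have hw : u - c • e ∈ S :=
    S.sub_mem hu (S.smul_mem c (Submodule.subset_span he))
  have h1 : f + (u - c • e) = (f + u) - c • e := by ring
  have hdeg : (f + (u - c • e)).degree < (f + u).degree := by
    rw [h1]
    refine Polynomial.degree_sub_lt ?_ (hne u hu) ?_
    · rw [Polynomial.smul_eq_C_mul, Polynomial.degree_C_mul hc0,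
        Polynomial.degree_eq_natDegree (hne u hu), Polynomial.degree_eq_natDegree hem.ne_zero, hde]
    · rw [Polynomial.smul_eq_C_mul, Polynomial.leadingCoeff_mul, Polynomial.leadingCoeff_C,
        hem.leadingCoeff, mul_one]
  have hlt := Polynomial.natDegree_lt_natDegree (hne _ hw) hdeg
  exact absurd (hmin _ hw) (not_le.2 hlt)

private theorem ec_span_zero [CharP k 2] (E : List (Polynomial k)) {u : Polynomial k}
    (hu : u ∈ Submodule.span k {g : Polynomial k | g ∈ E}) (t : T k) : D u (Dl E t) = 0 := by
  refine Submodule.span_induction (p := fun u _ => D u (Dl E t) = 0) ?_ ?_ ?_ ?_ hu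
  · intro g hg
    exact D_Dl_mem hg t
  · have h := D_smul (0 : k) (0 : Polynomial k) (Dl E t)
    rw [zero_smul, zero_smul] at h
    exact h
  · intro a b _ _ ha hb
    rw [D_add, ha, hb, add_zero]
  · intro c a _ ha
    rw [D_smul, ha, smul_zero]

theorem exists_ech [CharP k 2] (L : List (Polynomial k)) (hL : LI L) :
    ∃ (E : List (Polynomial k)) (c : k), c ≠ 0 ∧ (∀ t : T k, Dl L t = c • Dl E t) ∧
      (∀ e ∈ E, e.Monic ∧ e ∈ Submodule.span k {f : Polynomial k | f ∈ L}) ∧
      (E.map Polynomial.natDegree).Nodup ∧ E.length = L.length := by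
  induction L with
  | nil =>
    refine ⟨[], 1, one_ne_zero, fun t => (one_smul _ _).symm, ?_, ?_, rfl⟩
    · intro e he
      exact absurd he (by simp)
    · simp
  | cons f L ih =>
    have hLI : LinearIndependent k (Fin.cons f (fun i : Fin L.length => L.get i) :
        Fin (L.length + 1) → Polynomial k) := by
      have h1 : (fun i : Fin (f :: L).length => (f :: L).get i) =
          (Fin.cons f (fun i : Fin L.length => L.get i) : Fin (L.length + 1) → Polynomial k) := by
        funext i
        refine Fin.cases ?_ (fun j => ?_) i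
        · rfl
        · rfl
      rw [← h1]
      exact hL
    rw [linearIndependent_finCons] at hLI
    obtain ⟨hLI1, hLI2⟩ := hLI
    obtain ⟨E, c, hc, hDl, hE, hnd, hlen⟩ := ih hLI1
    have hrange : Set.range (fun i : Fin L.length => L.get i) = {g : Polynomial k | g ∈ L} := by
      ext g
      constructor
      · rintro ⟨i, rfl⟩
        exact List.get_mem _ _
      · intro hg
        obtain ⟨i, hi⟩ := List.get_of_mem (show g ∈ L from hg)
        exact ⟨i, hi⟩
    rw [hrange] at hLI2
    have hle : Submodule.span k {g : Polynomial k | g ∈ E} ≤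
        Submodule.span k {g : Polynomial k | g ∈ L} :=
      Submodule.span_le.2 (fun g hg => (hE g hg).2)
    have hle2 : Submodule.span k {g : Polynomial k | g ∈ L} ≤
        Submodule.span k {g : Polynomial k | g ∈ f :: L} :=
      Submodule.span_mono (fun g hg => List.mem_cons_of_mem _ hg)
    obtain ⟨u, hu, hne, hnm⟩ := ec_reduce E (fun e he => (hE e he).1) f
      (fun h => hLI2 (hle h))
    set d := (f + u).leadingCoeff with hd
    have hd0 : d ≠ 0 := Polynomial.leadingCoeff_ne_zero.2 hne
    have hmem : f + u ∈ Submodule.span k {g : Polynomial k | g ∈ f :: L} :=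
      Submodule.add_mem _ (Submodule.subset_span List.mem_cons_self) (hle2 (hle hu))
    have hdeg : (d⁻¹ • (f + u)).natDegree = (f + u).natDegree :=
      Polynomial.natDegree_smul _ (inv_ne_zero hd0)
    refine ⟨(d⁻¹ • (f + u)) :: E, c * d, mul_ne_zero hc hd0, ?_, ?_, ?_, ?_⟩
    · intro t
      change D f (Dl L t) = (c * d) • D (d⁻¹ • (f + u)) (Dl E t)
      rw [hDl t, map_smul, D_smul, D_add, ec_span_zero E hu t, add_zero, smul_smul]
      congr 1
      field_simp
    · intro e he
      rcases List.mem_cons.1 he with h1 | h1
      · subst h1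
        refine ⟨?_, Submodule.smul_mem _ _ hmem⟩
        rw [Polynomial.Monic, Polynomial.smul_eq_C_mul, Polynomial.leadingCoeff_mul,
          Polynomial.leadingCoeff_C, inv_mul_cancel₀ hd0]
      · exact ⟨(hE e h1).1, hle2 (hE e h1).2⟩
    · rw [List.map_cons, List.nodup_cons]
      refine ⟨?_, hnd⟩
      rw [hdeg]
      exact hnm
    · rw [List.length_cons, List.length_cons, hlen]

theorem LI_mono (E : List (Polynomial k)) (h : (E.map Polynomial.natDegree).Nodup) :
    LI (E.map (fun e => (Polynomial.X : Polynomial k) ^ e.natDegree)) := by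
  have hinj : Function.Injective (fun i : Fin (E.map
      (fun e => (Polynomial.X : Polynomial k) ^ e.natDegree)).length =>
        (E.get (Fin.cast (List.length_map _) i)).natDegree) := by
    intro i j hij
    have h1 := List.nodup_iff_injective_get.1 h
    have h2 : (E.map Polynomial.natDegree).get
        (Fin.cast (List.length_map _).symm (Fin.cast (List.length_map _) i)) =
        (E.map Polynomial.natDegree).get
        (Fin.cast (List.length_map _).symm (Fin.cast (List.length_map _) j)) := by
      simpa using hij
    have h3 := h1 h2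
    ext
    have h4 := congrArg Fin.val h3
    simpa using h4
  have hli := (Polynomial.basisMonomials k).linearIndependent.comp _ hinj
  unfold LI
  convert hli using 1
  funext i
  simp [Polynomial.X_pow_eq_monomial]

end Pool.Agent.Helper26.FI
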