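import Mathlib

/-!
# Elimination: invariants of `s ↦ s + 1` in characteristic two

`B = k⟨s, y_i (i ∈ I)⟩` is `FreeAlgebra k (Option I)`, `s = ι none`; `B' = FreeAlgebra k (Option (I ⊕ I))` with
`q = ι none`, and `ψ : B' → B`, `q ↦ s^2 + s`, `inl i ↦ y_i`, `inr i ↦ [s, y_i]`.

PLAN (char 2: `2 = 0` in all these algebras; `noncomm_ring` plus `CharTwo` lemmas, or prove `a + a = 0` first and
use `linear_combination (exp := 1)`-style rewriting / `abel_nf`).
1. `∂ : B' →ₗ[k] B'` the derivation with `∂ q = 0`, `∂ (inl i) = inr i`,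
   `∂ (inr i) = q * inl i + inl i * q + inr i` (define it with `DualNumber B'` as in `Helper26/FI/Defs.lean`:
   `FreeAlgebra.lift` into `TrivSqZeroExt B' B'`, second component), Leibniz rule.
2. `sψ`: `ψ u * s = s * ψ u + ψ (∂ u)` (both sides: induction on `u` over generators and products; on generators:
   `[q,s] = 0`, `y_i s = s y_i + [s,y_i]`, `[s,[s,y]] = [s^2,y] = [s^2+s, y] + [s,y]`).
3. `S : B' × B' →ₗ[k] B' × B'`, `S (u,v) = (∂ u + q v, u + v + ∂ v)`, `Y_i (u,v) = (u * inl i, v * inl i)`, and
   `ν : B → B' × B'`, `ν b = (1,0) · b` for the right action of `B` (an algebra map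
   `B → (Module.End k (B' × B'))ᵐᵒᵖ` from `FreeAlgebra.lift`).
4. `∂ (∂ u) + ∂ u = q * u + u * q` (both sides are derivations in char 2, check on generators).
   Hence the action of `ψ q = s^2 + s` is `(u,v) ↦ (u q, v q)`: `S (S (u,v)) + S (u,v)`; the action of `[s,y_i]` is
   `(u,v) ↦ (u * inr i, v * inr i)`.  So `(a, b) · ψ u = (a u, b u)` for all `u ∈ B'`, and
   `ν (ψ u + s * ψ v) = (1,0) ψ u + (0,1) ψ v = (u, v)`.
5. So `ψ` is injective, and `ψ u + s ψ v = 0` implies `u = v = 0`.
6. Every `t ∈ B` is `ψ u + s * ψ v`: the set of these contains `1` and is closed under right multiplication by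
   `y_i` and by `s` (2.: `(ψ u + s ψ v) s = ψ (∂ u + q v) + s ψ (u + v + ∂ v)`, `s^2 = ψ q + s`), so it is everything
   (monomials; `FreeAlgebra.induction` on `t` for the statement for all `m` in the set, `m * t` is in the set).
7. `τ t = t` with `t = ψ u + s ψ v` iff `ψ v = 0`, since `τ (ψ u) = ψ u`.
-/
namespace Pool.Agent.Helper26.FI

universe u v

variable {k : Type u} [Field k] {I : Type v}

/-- The generators of the invariants. -/
noncomputable def elimGen (k : Type u) [Field k] {I : Type v} :
    Option (I ⊕ I) → FreeAlgebra k (Option I)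
  | none => FreeAlgebra.ι k none ^ 2 + FreeAlgebra.ι k none
  | some (Sum.inl i) => FreeAlgebra.ι k (some i)
  | some (Sum.inr i) => FreeAlgebra.ι k none * FreeAlgebra.ι k (some i) -
      FreeAlgebra.ι k (some i) * FreeAlgebra.ι k none

/-- The automorphism `s ↦ s + 1`. -/
noncomputable def elimTau (k : Type u) [Field k] {I : Type v} :
    FreeAlgebra k (Option I) →ₐ[k] FreeAlgebra k (Option I) :=
  FreeAlgebra.lift k (fun j => match j with
    | none => FreeAlgebra.ι k none + 1
    | some i => FreeAlgebra.ι k (some i))

private theorem el_dbl [CharP k 2] {X : Type v} (a : FreeAlgebra k X) : a + a = 0 := by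
  rw [← two_smul k a, CharTwo.two_eq_zero, zero_smul]

/-- derivative of the generators -/
private noncomputable def elDg (k : Type u) [Field k] {I : Type v} :
    Option (I ⊕ I) → FreeAlgebra k (Option (I ⊕ I))
  | none => 0
  | some (Sum.inl i) => FreeAlgebra.ι k (some (Sum.inr i))
  | some (Sum.inr i) => FreeAlgebra.ι k none * FreeAlgebra.ι k (some (Sum.inl i)) +
      FreeAlgebra.ι k (some (Sum.inl i)) * FreeAlgebra.ι k none +
      FreeAlgebra.ι k (some (Sum.inr i))

private noncomputable def elPhi (k : Type u) [Field k] {I : Type v} :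
    FreeAlgebra k (Option (I ⊕ I)) →ₐ[k] DualNumber (FreeAlgebra k (Option (I ⊕ I))) :=
  FreeAlgebra.lift k (fun j => (TrivSqZeroExt.inl (FreeAlgebra.ι k j) +
    TrivSqZeroExt.inr (elDg k j) : DualNumber (FreeAlgebra k (Option (I ⊕ I)))))

private theorem elPhi_fst (u : FreeAlgebra k (Option (I ⊕ I))) : (elPhi k u).fst = u := by
  have h : (TrivSqZeroExt.fstHom k (FreeAlgebra k (Option (I ⊕ I)))
      (FreeAlgebra k (Option (I ⊕ I)))).comp (elPhi k) = AlgHom.id k _ := by
    apply FreeAlgebra.hom_ext
    funext j
    simp [elPhi]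
  exact DFunLike.congr_fun h u

/-- the derivation -/
private noncomputable def elD (k : Type u) [Field k] {I : Type v} :
    FreeAlgebra k (Option (I ⊕ I)) →ₗ[k] FreeAlgebra k (Option (I ⊕ I)) where
  toFun t := (elPhi k t).snd
  map_add' a b := by rw [map_add, TrivSqZeroExt.snd_add]
  map_smul' c a := by rw [map_smul, TrivSqZeroExt.snd_smul, RingHom.id_apply]

private theorem elD_mul (a b : FreeAlgebra k (Option (I ⊕ I))) :
    elD k (a * b) = a * elD k b + elD k a * b := by
  show (elPhi k (a * b)).snd = a * (elPhi k b).snd + (elPhi k a).snd * b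
  rw [map_mul, TrivSqZeroExt.snd_mul, elPhi_fst, elPhi_fst, smul_eq_mul, op_smul_eq_mul]

private theorem elD_gen (j : Option (I ⊕ I)) : elD k (FreeAlgebra.ι k j) = elDg k j := by
  show (elPhi k (FreeAlgebra.ι k j)).snd = elDg k j
  rw [elPhi, FreeAlgebra.lift_ι_apply, TrivSqZeroExt.snd_add, TrivSqZeroExt.snd_inl,
    TrivSqZeroExt.snd_inr, zero_add]

private theorem elD_one : elD k (1 : FreeAlgebra k (Option (I ⊕ I))) = 0 := by
  have h := elD_mul (k := k) (1 : FreeAlgebra k (Option (I ⊕ I))) 1
  rw [mul_one, mul_one, one_mul] at h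
  exact left_eq_add.1 h

private theorem elD_alg (r : k) :
    elD k (algebraMap k (FreeAlgebra k (Option (I ⊕ I))) r) = 0 := by
  rw [Algebra.algebraMap_eq_smul_one, map_smul, elD_one, smul_zero]

/-- `∂∂ + ∂` is the commutator with `q` -/
private theorem elD_sq [CharP k 2] (u : FreeAlgebra k (Option (I ⊕ I))) :
    elD k (elD k u) + elD k u = FreeAlgebra.ι k none * u + u * FreeAlgebra.ι k none := by
  induction u using FreeAlgebra.induction with
  | grade0 r =>
    rw [elD_alg, map_zero, zero_add, ← Algebra.commutes r (FreeAlgebra.ι k none), el_dbl]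
  | grade1 j =>
    rcases j with _ | ⟨i | i⟩
    · rw [elD_gen, elDg, map_zero, zero_add, el_dbl]
    · rw [elD_gen, elDg, elD_gen, elDg, add_assoc, el_dbl, add_zero]
    · rw [elD_gen, elDg, map_add, map_add, elD_mul, elD_mul, elD_gen, elD_gen, elD_gen]
      simp only [elDg]
      set q : FreeAlgebra k (Option (I ⊕ I)) := FreeAlgebra.ι k none
      set y : FreeAlgebra k (Option (I ⊕ I)) := FreeAlgebra.ι k (some (Sum.inl i))
      set c : FreeAlgebra k (Option (I ⊕ I)) := FreeAlgebra.ι k (some (Sum.inr i))
      have h := el_dbl (q * y + y * q + c)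
      rw [zero_mul, mul_zero, add_zero, zero_add]
      calc q * c + c * q + (q * y + y * q + c) + (q * y + y * q + c)
          = q * c + c * q + ((q * y + y * q + c) + (q * y + y * q + c)) := by abel
        _ = q * c + c * q := by rw [h, add_zero]
  | mul a b ha hb =>
    rw [elD_mul, map_add, elD_mul, elD_mul]
    set q : FreeAlgebra k (Option (I ⊕ I)) := FreeAlgebra.ι k none
    have h1 := el_dbl (elD k a * elD k b)
    have h2 := el_dbl (a * q * b)
    calc a * elD k (elD k b) + elD k a * elD k b + (elD k a * elD k b + elD k (elD k a) * b) +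
          (a * elD k b + elD k a * b)
        = a * (elD k (elD k b) + elD k b) + (elD k (elD k a) + elD k a) * b +
          (elD k a * elD k b + elD k a * elD k b) := by noncomm_ring
      _ = a * (q * b + b * q) + (q * a + a * q) * b := by rw [h1, add_zero, ha, hb]
      _ = q * (a * b) + a * b * q + (a * q * b + a * q * b) := by noncomm_ring
      _ = q * (a * b) + a * b * q := by rw [h2, add_zero]
  | add a b ha hb =>
    rw [map_add, map_add]
    calc elD k (elD k a) + elD k (elD k b) + (elD k a + elD k b)
        = (elD k (elD k a) + elD k a) + (elD k (elD k b) + elD k b) := by abel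
      _ = _ := by rw [ha, hb]; noncomm_ring

/-- `ψ u * s = s * ψ u + ψ (∂ u)` -/
private theorem el_comm [CharP k 2] (u : FreeAlgebra k (Option (I ⊕ I))) :
    FreeAlgebra.lift k (elimGen k (I := I)) u * FreeAlgebra.ι k none =
      FreeAlgebra.ι k none * FreeAlgebra.lift k (elimGen k (I := I)) u +
        FreeAlgebra.lift k (elimGen k (I := I)) (elD k u) := by
  induction u using FreeAlgebra.induction with
  | grade0 r =>
    rw [elD_alg, map_zero, add_zero, AlgHom.commutes]
    exact Algebra.commutes r _
  | grade1 j =>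
    rcases j with _ | ⟨i | i⟩
    · rw [elD_gen, elDg, map_zero, add_zero, FreeAlgebra.lift_ι_apply, elimGen]
      noncomm_ring
    · rw [elD_gen, elDg, FreeAlgebra.lift_ι_apply, FreeAlgebra.lift_ι_apply, elimGen, elimGen]
      set s : FreeAlgebra k (Option I) := FreeAlgebra.ι k none
      set y : FreeAlgebra k (Option I) := FreeAlgebra.ι k (some i)
      have h := el_dbl (s * y - y * s)
      have h2 : y * s - (s * y + (s * y - y * s)) =
          -((s * y - y * s) + (s * y - y * s)) := by
        noncomm_ring
      rw [h, neg_zero] at h2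
      exact sub_eq_zero.1 h2
    · rw [elD_gen, elDg, map_add, map_add, map_mul, map_mul, FreeAlgebra.lift_ι_apply,
        FreeAlgebra.lift_ι_apply, FreeAlgebra.lift_ι_apply]
      simp only [elimGen]
      set s : FreeAlgebra k (Option I) := FreeAlgebra.ι k none
      set y : FreeAlgebra k (Option I) := FreeAlgebra.ι k (some i)
      have h := el_dbl (s * y * s - y * s ^ 2 - s ^ 2 * y - s * y)
      have h2 : (s * y - y * s) * s - (s * (s * y - y * s) +
          ((s ^ 2 + s) * y + y * (s ^ 2 + s) + (s * y - y * s))) =
          (s * y * s - y * s ^ 2 - s ^ 2 * y - s * y) +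
            (s * y * s - y * s ^ 2 - s ^ 2 * y - s * y) := by
        noncomm_ring
      rw [h] at h2
      exact sub_eq_zero.1 h2
  | mul a b ha hb =>
    rw [elD_mul, map_add, map_mul, map_mul, map_mul, mul_assoc, hb, mul_add, ← mul_assoc, ha]
    noncomm_ring
  | add a b ha hb =>
    rw [map_add, map_add, map_add, add_mul, ha, hb]
    noncomm_ring

/-- right multiplication by `s` on pairs -/
private noncomputable def elS (k : Type u) [Field k] {I : Type v} :
    Module.End k (FreeAlgebra k (Option (I ⊕ I)) × FreeAlgebra k (Option (I ⊕ I))) where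
  toFun p := (elD k p.1 + FreeAlgebra.ι k none * p.2, p.1 + p.2 + elD k p.2)
  map_add' a b := by
    ext
    · simp only [Prod.fst_add, Prod.snd_add, map_add, mul_add]
      abel
    · simp only [Prod.fst_add, Prod.snd_add, map_add]
      abel
  map_smul' c a := by
    ext
    · simp only [Prod.smul_fst, Prod.smul_snd, map_smul, RingHom.id_apply, smul_add,
        mul_smul_comm]
    · simp only [Prod.smul_fst, Prod.smul_snd, map_smul, RingHom.id_apply, smul_add]

/-- right multiplication by `u` on pairs -/
private noncomputable def elR (k : Type u) [Field k] {I : Type v}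
    (u : FreeAlgebra k (Option (I ⊕ I))) :
    Module.End k (FreeAlgebra k (Option (I ⊕ I)) × FreeAlgebra k (Option (I ⊕ I))) where
  toFun p := (p.1 * u, p.2 * u)
  map_add' a b := by
    ext
    · simp only [Prod.fst_add, add_mul]
    · simp only [Prod.snd_add, add_mul]
  map_smul' c a := by
    ext
    · simp only [Prod.smul_fst, RingHom.id_apply, smul_mul_assoc]
    · simp only [Prod.smul_snd, RingHom.id_apply, smul_mul_assoc]

/-- right action of `B` on pairs -/
private noncomputable def elRho (k : Type u) [Field k] {I : Type v} :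
    FreeAlgebra k (Option I) →ₐ[k]
      (Module.End k (FreeAlgebra k (Option (I ⊕ I)) × FreeAlgebra k (Option (I ⊕ I))))ᵐᵒᵖ :=
  FreeAlgebra.lift k (fun j => match j with
    | none => MulOpposite.op (elS k)
    | some i => MulOpposite.op (elR k (FreeAlgebra.ι k (some (Sum.inl i)))))

private theorem elRho_psi [CharP k 2] (u : FreeAlgebra k (Option (I ⊕ I))) :
    MulOpposite.unop (elRho k (FreeAlgebra.lift k (elimGen k (I := I)) u)) = elR k u := by
  induction u using FreeAlgebra.induction with
  | grade0 r =>
    rw [AlgHom.commutes, AlgHom.commutes]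
    refine LinearMap.ext fun p => ?_
    show r • p = (p.1 * algebraMap k _ r, p.2 * algebraMap k _ r)
    rw [← Algebra.commutes r p.1, ← Algebra.commutes r p.2, ← Algebra.smul_def,
      ← Algebra.smul_def]
    rfl
  | grade1 j =>
    rw [FreeAlgebra.lift_ι_apply]
    rcases j with _ | ⟨i | i⟩
    · rw [elimGen, map_add, map_pow, elRho, FreeAlgebra.lift_ι_apply]
      refine LinearMap.ext fun p => ?_
      obtain ⟨u, v⟩ := p
      show elS k (elS k (u, v)) + elS k (u, v) = (u * FreeAlgebra.ι k none, v * FreeAlgebra.ι k none)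
      show ((elD k (elD k u + FreeAlgebra.ι k none * v) +
          FreeAlgebra.ι k none * (u + v + elD k v),
          (elD k u + FreeAlgebra.ι k none * v) + (u + v + elD k v) + elD k (u + v + elD k v)) +
          (elD k u + FreeAlgebra.ι k none * v, u + v + elD k v) :
          FreeAlgebra k (Option (I ⊕ I)) × FreeAlgebra k (Option (I ⊕ I))) = _
      have hu := elD_sq u
      have hv := elD_sq v
      have hq : elD k (FreeAlgebra.ι k (none : Option (I ⊕ I))) = 0 := by rw [elD_gen, elDg]
      set q : FreeAlgebra k (Option (I ⊕ I)) := FreeAlgebra.ι k none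
      have h1 : elD k (q * v) = q * elD k v := by rw [elD_mul, hq, zero_mul, add_zero]
      rw [map_add, map_add, map_add, h1]
      refine Prod.ext ?_ ?_
      · show elD k (elD k u) + q * elD k v + q * (u + v + elD k v) + (elD k u + q * v) = u * q
        have h2 := el_dbl (q * elD k v + q * v + q * u)
        have h3 : elD k (elD k u) + q * elD k v + q * (u + v + elD k v) + (elD k u + q * v) =
            (elD k (elD k u) + elD k u) + (q * elD k v + q * v + q * u +
              (q * elD k v + q * v + q * u)) - q * u := by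
          noncomm_ring
        rw [h3, h2, hu]
        abel
      · show elD k u + q * v + (u + v + elD k v) + (elD k u + elD k v + elD k (elD k v)) +
            (u + v + elD k v) = v * q
        have h2 := el_dbl (elD k u + q * v + u + v + elD k v)
        have h3 : elD k u + q * v + (u + v + elD k v) +
            (elD k u + elD k v + elD k (elD k v)) + (u + v + elD k v) =
            (elD k (elD k v) + elD k v) + (elD k u + q * v + u + v + elD k v +
              (elD k u + q * v + u + v + elD k v)) - q * v := by
          abel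
        rw [h3, h2, hv]
        abel
    · rw [elimGen, elRho, FreeAlgebra.lift_ι_apply]
      rfl
    · rw [elimGen, map_sub, map_mul, map_mul, elRho, FreeAlgebra.lift_ι_apply,
        FreeAlgebra.lift_ι_apply]
      refine LinearMap.ext fun p => ?_
      obtain ⟨u, v⟩ := p
      have hy : elD k (FreeAlgebra.ι k (some (Sum.inl i)) : FreeAlgebra k (Option (I ⊕ I))) =
          FreeAlgebra.ι k (some (Sum.inr i)) := by rw [elD_gen, elDg]
      show elR k (FreeAlgebra.ι k (some (Sum.inl i))) (elS k (u, v)) -
          elS k (elR k (FreeAlgebra.ι k (some (Sum.inl i))) (u, v)) =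
          (u * FreeAlgebra.ι k (some (Sum.inr i)), v * FreeAlgebra.ι k (some (Sum.inr i)))
      rw [← hy]
      set y : FreeAlgebra k (Option (I ⊕ I)) := FreeAlgebra.ι k (some (Sum.inl i))
      set q : FreeAlgebra k (Option (I ⊕ I)) := FreeAlgebra.ι k none
      show (((elD k u + q * v) * y, (u + v + elD k v) * y) -
          (elD k (u * y) + q * (v * y), u * y + v * y + elD k (v * y)) :
          FreeAlgebra k (Option (I ⊕ I)) × FreeAlgebra k (Option (I ⊕ I))) = _
      rw [elD_mul, elD_mul]
      refine Prod.ext ?_ ?_
      · show (elD k u + q * v) * y - (u * elD k y + elD k u * y + q * (v * y)) = u * elD k y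
        have h2 := el_dbl (u * elD k y)
        have h3 : (elD k u + q * v) * y - (u * elD k y + elD k u * y + q * (v * y)) =
            u * elD k y - (u * elD k y + u * elD k y) := by noncomm_ring
        rw [h3, h2, sub_zero]
      · show (u + v + elD k v) * y - (u * y + v * y + (v * elD k y + elD k v * y)) = v * elD k y
        have h2 := el_dbl (v * elD k y)
        have h3 : (u + v + elD k v) * y - (u * y + v * y + (v * elD k y + elD k v * y)) =
            v * elD k y - (v * elD k y + v * elD k y) := by noncomm_ring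
        rw [h3, h2, sub_zero]
  | mul a b ha hb =>
    rw [map_mul, map_mul, MulOpposite.unop_mul, ha, hb]
    refine LinearMap.ext fun p => ?_
    show (p.1 * a * b, p.2 * a * b) = (p.1 * (a * b), p.2 * (a * b))
    rw [mul_assoc, mul_assoc]
  | add a b ha hb =>
    rw [map_add, map_add, MulOpposite.unop_add, ha, hb]
    refine LinearMap.ext fun p => ?_
    show (p.1 * a, p.2 * a) + (p.1 * b, p.2 * b) = (p.1 * (a + b), p.2 * (a + b))
    rw [mul_add, mul_add]
    rfl

private theorem el_nu [CharP k 2] (u v : FreeAlgebra k (Option (I ⊕ I))) :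
    MulOpposite.unop (elRho k (FreeAlgebra.lift k (elimGen k (I := I)) u +
      FreeAlgebra.ι k none * FreeAlgebra.lift k (elimGen k (I := I)) v)) (1, 0) = (u, v) := by
  rw [map_add, map_mul, MulOpposite.unop_add, MulOpposite.unop_mul, elRho_psi, elRho_psi]
  have h : elRho k (FreeAlgebra.ι k (none : Option I)) = MulOpposite.op (elS k) := by
    rw [elRho, FreeAlgebra.lift_ι_apply]
  rw [h]
  show ((1 * u, 0 * u) : FreeAlgebra k (Option (I ⊕ I)) × FreeAlgebra k (Option (I ⊕ I))) +
    ((elD k 1 + FreeAlgebra.ι k none * 0) * v, (1 + 0 + elD k 0) * v) = (u, v)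
  rw [elD_one, map_zero]
  refine Prod.ext ?_ ?_
  · show 1 * u + (0 + FreeAlgebra.ι k none * 0) * v = u
    rw [mul_zero, add_zero, zero_mul, add_zero, one_mul]
  · show 0 * u + (1 + 0 + 0) * v = v
    rw [zero_mul, add_zero, add_zero, one_mul, zero_add]

/-- every element is `ψ u + s ψ v` -/
private theorem el_span [CharP k 2] (t : FreeAlgebra k (Option I)) :
    ∃ u v, t = FreeAlgebra.lift k (elimGen k (I := I)) u +
      FreeAlgebra.ι k none * FreeAlgebra.lift k (elimGen k (I := I)) v := by
  have key : ∀ t : FreeAlgebra k (Option I), ∀ u v : FreeAlgebra k (Option (I ⊕ I)),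
      ∃ u' v', (FreeAlgebra.lift k (elimGen k (I := I)) u +
        FreeAlgebra.ι k none * FreeAlgebra.lift k (elimGen k (I := I)) v) * t =
        FreeAlgebra.lift k (elimGen k (I := I)) u' +
        FreeAlgebra.ι k none * FreeAlgebra.lift k (elimGen k (I := I)) v' := by
    intro t
    induction t using FreeAlgebra.induction with
    | grade0 r =>
      intro u v
      refine ⟨r • u, r • v, ?_⟩
      rw [← Algebra.commutes, ← Algebra.smul_def, map_smul, map_smul, smul_add, mul_smul_comm]
    | grade1 j =>
      intro u v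
      rcases j with _ | i
      · refine ⟨elD k u + FreeAlgebra.ι k none * v, u + v + elD k v, ?_⟩
        have hq : FreeAlgebra.lift k (elimGen k (I := I)) (FreeAlgebra.ι k none) =
            FreeAlgebra.ι k none ^ 2 + FreeAlgebra.ι k none := by
          rw [FreeAlgebra.lift_ι_apply, elimGen]
        rw [add_mul, mul_assoc, el_comm u, el_comm v, map_add, map_add, map_add, map_mul, hq]
        set s : FreeAlgebra k (Option I) := FreeAlgebra.ι k none
        set ψu := FreeAlgebra.lift k (elimGen k (I := I)) u
        set ψv := FreeAlgebra.lift k (elimGen k (I := I)) v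
        set du := FreeAlgebra.lift k (elimGen k (I := I)) (elD k u)
        set dv := FreeAlgebra.lift k (elimGen k (I := I)) (elD k v)
        have h := el_dbl (s * ψv)
        have h2 : s * ψu + du + s * (s * ψv + dv) - (du + (s ^ 2 + s) * ψv + s * (ψu + ψv + dv)) =
            -(s * ψv + s * ψv) := by noncomm_ring
        rw [h, neg_zero] at h2
        exact sub_eq_zero.1 h2
      · refine ⟨u * FreeAlgebra.ι k (some (Sum.inl i)), v * FreeAlgebra.ι k (some (Sum.inl i)), ?_⟩
        rw [map_mul, map_mul, FreeAlgebra.lift_ι_apply]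
        simp only [elimGen]
        noncomm_ring
    | mul a b ha hb =>
      intro u v
      obtain ⟨u1, v1, h1⟩ := ha u v
      obtain ⟨u2, v2, h2⟩ := hb u1 v1
      exact ⟨u2, v2, by rw [← mul_assoc, h1, h2]⟩
    | add a b ha hb =>
      intro u v
      obtain ⟨u1, v1, h1⟩ := ha u v
      obtain ⟨u2, v2, h2⟩ := hb u v
      refine ⟨u1 + u2, v1 + v2, ?_⟩
      rw [mul_add, h1, h2, map_add, map_add]
      noncomm_ring
  obtain ⟨u, v, h⟩ := key t 1 0
  refine ⟨u, v, ?_⟩
  rw [← h, map_one, map_zero, mul_zero, add_zero, one_mul]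

private theorem el_tau [CharP k 2] (u : FreeAlgebra k (Option (I ⊕ I))) :
    elimTau k (FreeAlgebra.lift k (elimGen k (I := I)) u) =
      FreeAlgebra.lift k (elimGen k (I := I)) u := by
  have h : (elimTau k).comp (FreeAlgebra.lift k (elimGen k (I := I))) =
      FreeAlgebra.lift k (elimGen k (I := I)) := by
    apply FreeAlgebra.hom_ext
    funext j
    show elimTau k (FreeAlgebra.lift k (elimGen k (I := I)) (FreeAlgebra.ι k j)) =
      FreeAlgebra.lift k (elimGen k (I := I)) (FreeAlgebra.ι k j)
    rw [FreeAlgebra.lift_ι_apply]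
    have hs : elimTau k (FreeAlgebra.ι k (none : Option I)) = FreeAlgebra.ι k none + 1 := by
      rw [elimTau, FreeAlgebra.lift_ι_apply]
    have hy : ∀ i : I, elimTau k (FreeAlgebra.ι k (some i)) = FreeAlgebra.ι k (some i) := by
      intro i
      rw [elimTau, FreeAlgebra.lift_ι_apply]
    rcases j with _ | ⟨i | i⟩
    · rw [elimGen, map_add, map_pow, hs]
      set s : FreeAlgebra k (Option I) := FreeAlgebra.ι k none
      have h := el_dbl (s + 1)
      have h2 : (s + 1) ^ 2 + (s + 1) - (s ^ 2 + s) = (s + 1) + (s + 1) := by noncomm_ring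
      rw [h] at h2
      exact sub_eq_zero.1 h2
    · rw [elimGen, hy]
    · rw [elimGen, map_sub, map_mul, map_mul, hs, hy]
      noncomm_ring
  exact DFunLike.congr_fun h u

theorem elim [CharP k 2] :
    Function.Injective (FreeAlgebra.lift k (elimGen k (I := I))) ∧
      ∀ t : FreeAlgebra k (Option I), elimTau k t = t ↔
        ∃ u, FreeAlgebra.lift k (elimGen k (I := I)) u = t := by
  constructor
  · intro a b hab
    have h1 := el_nu (k := k) a 0
    have h2 := el_nu (k := k) b 0
    rw [hab, h2] at h1
    exact (congrArg Prod.fst h1).symm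
  · intro t
    constructor
    · intro ht
      obtain ⟨u, v, rfl⟩ := el_span t
      refine ⟨u, ?_⟩
      have hs : elimTau k (FreeAlgebra.ι k (none : Option I)) = FreeAlgebra.ι k none + 1 := by
        rw [elimTau, FreeAlgebra.lift_ι_apply]
      rw [map_add, map_mul, el_tau, el_tau, hs, add_mul, one_mul, ← add_assoc] at ht
      have hv : FreeAlgebra.lift k (elimGen k (I := I)) v = 0 := by
        rwa [add_eq_left] at ht
      rw [hv, mul_zero, add_zero]
    · rintro ⟨u, rfl⟩
      exact el_tau u

end Pool.Agent.Helper26.FI
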