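import Pool.Agent.Helper26.FI.ShDefs
import Pool.Agent.Helper71.FreeTri

/-!
# From the elements fixing `x` to the unipotent triangular group (every characteristic)

PLAN.  Apply `RC_of_step (wm m) (fixedG P) (fixedG W)` (`Helper71/FreeApp.lean`) with the following `E`.
Let `J = P ⧸ W.subgroupOf P` (finite), `r q = ((q.out : P) : Au k (Fin 2))`, and `b q : k` with
`r q x = x + algebraMap (b q)` (`hP`, `choose`).  `b` is injective: if `b q = b q'` then
`(q.out)⁻¹ * q'.out` is in `P` and fixes `x` (apply `(r q)⁻¹` to `r q' x = r q x`), so it is in `W` (`hW`), so `q = q'`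
(`QuotientGroup.eq`, `out_eq'`).
Let `e` be minimal with `∑ q, b q ^ e ≠ 0` (`Pool.Agent.Helper71.FreeTri.exists_pow_sum_ne`, `Nat.find`), `e < card J ≤ Nat.card P`
(the index divides / is at most the order; `Subgroup.card_quotient_dvd_card` or `Nat.card_le_card_of_surjective`), `κ` this sum.
`E f = κ⁻¹ • ∑ q, r q (f * x ^ e)`.
* `∑ q, r q (x ^ e) = ∑ q, (x + b q) ^ e = algebraMap κ`: binomial theorem (`Commute.add_pow`), power sums of
  exponent `< e` vanish.
* hE1: for `f ∈ fixedG W` and `p ∈ P`: `p * q.out = q'.out * h` with `q' = p • q`, `h ∈ W`, and `h` fixes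
  `f * x ^ e` (`h x = x` by `hW`), so `p (r q (f x^e)) = r q' (f x^e)`; reindex the sum by `q ↦ p • q`
  (`Fintype.sum_equiv (MulAction.toPerm p)`; compare `trc_mem`, `trc_decomp` in FreeTrace.lean).
* hE2, hE3, hE4: `add_mul`, `mul_assoc`, `r q s = s` for `s ∈ fixedG P`.
* hE5: `f ∈ fl (wm m) n`, so `f * x ^ e ∈ fl (wm m) (n + e * 1)` (`mul_mem_fl'`, `x ^ e = mon (replicate e 0)`), and
  `∑ q, r q (f x^e) ∈ fl (wm m) n` by `FreeTri.sum_low (wm m) (x0 := 0) b e _ r _ _ n` with `wm m 0 = 1`: hypothesis `hr`: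
  `r q` is filtered (`x + b ∈ fl 2`, `y + pol f ∈ fl (m + 1)` as `natDegree f < m`, so `pol f ∈ fl (natDegree f + 1)`); hypothesis
  `hd`: for the variable `0` the first alternative (`tra (Pi.single 0 (b q)) (ι 0) = ι 0 + algebraMap (b q)`); for the variable
  `1` the second alternative with exponent `natDegree f` : `r q y - y = pol f ∈ fl (natDegree f + 1)`,
  `natDegree f + e ≤ m` by `hP` (`tra (Pi.single 0 _) (ι 1) = ι 1 + 0`).
-/

namespace Pool.Agent.Helper26.FI

open Pool.Agent.Helper71.FreeCore Pool.Agent.Helper71.FreeCrit Pool.Agent.Helper71.FreeApp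
  Pool.Agent.Helper71.FreeTrace

universe u

variable {k : Type u} [Field k]

private theorem grA_xpow (m e : ℕ) : (x : T k) ^ e ∈ fl (wm m) (e + 1) := by
  have h : (x : T k) ^ e = mon (List.replicate e 0) := by
    rw [mon, List.map_replicate, List.prod_replicate]
    rfl
  rw [h]
  refine mon_mem_fl (wm m) ?_
  rw [wt, List.map_replicate, List.sum_replicate, smul_eq_mul]
  simp [wm]

private theorem grA_pol (m : ℕ) (f : Polynomial k) : pol f ∈ fl (wm m) (f.natDegree + 1) := by
  rw [pol, Polynomial.aeval_eq_sum_range]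
  refine Submodule.sum_mem _ fun i hi => Submodule.smul_mem _ _ ?_
  exact fl_mono (wm m) (by rw [Finset.mem_range] at hi; omega) (grA_xpow m i)

private theorem grA_sum {J : Type*} [Fintype J] (b : J → k) (e : ℕ)
    (he : ∀ j, j < e → ∑ q, b q ^ j = 0) :
    ∑ q, ((x : T k) + algebraMap k (T k) (b q)) ^ e = algebraMap k (T k) (∑ q, b q ^ e) := by
  have h1 : ∀ q : J, ((x : T k) + algebraMap k (T k) (b q)) ^ e =
      ∑ m ∈ Finset.range (e + 1), x ^ m *
        algebraMap k (T k) (b q ^ (e - m)) * (e.choose m : T k) := by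
    intro q
    rw [Commute.add_pow (Algebra.commutes _ _).symm]
    simp only [map_pow]
  simp only [h1]
  rw [Finset.sum_comm]
  have h2 : ∀ m ∈ Finset.range (e + 1), m ≠ 0 →
      ∑ q : J, ((x : T k) ^ m * algebraMap k (T k) (b q ^ (e - m)) * (e.choose m : T k)) = 0 := by
    intro m hm hm0
    rw [← Finset.sum_mul, ← Finset.mul_sum, ← map_sum, he (e - m) (by
      rw [Finset.mem_range] at hm; omega)]
    simp
  rw [Finset.sum_eq_single_of_mem 0 (by simp) h2]
  simp only [pow_zero, one_mul, Nat.sub_zero, Nat.choose_zero_right, Nat.cast_one, mul_one]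
  rw [← map_sum]

theorem grpA (m : ℕ) (P W : Subgroup (Au k (Fin 2))) [Finite P] (hWP : W ≤ P)
    (hP : ∀ g ∈ P, (∃ b : k, g (x : T k) = x + algebraMap k (T k) b) ∧
      ∃ f : Polynomial k, g (y : T k) = y + pol f ∧ f.natDegree + Nat.card P < m)
    (hW : ∀ g ∈ P, (g ∈ W ↔ g (x : T k) = x))
    (hRC : RC (wm m) (fixedG W)) : RC (wm m) (fixedG P) := by
  classical
  let _ : Fintype (P ⧸ W.subgroupOf P) := Fintype.ofFinite _
  have hP1 : ∀ g : P, ∃ b : k, (g : Au k (Fin 2)) (x : T k) = x + algebraMap k (T k) b :=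
    fun g => (hP g g.2).1
  choose b hb using hP1
  have hP2 : ∀ g : P, ∃ f : Polynomial k, (g : Au k (Fin 2)) (y : T k) = y + pol f ∧
      f.natDegree + Nat.card P < m := fun g => (hP g g.2).2
  choose ff hf hfm using hP2
  have hinj : Function.Injective (fun q : P ⧸ W.subgroupOf P => b q.out) := by
    intro q q' hqq
    simp only at hqq
    have h1 : (q.out : Au k (Fin 2)) (x : T k) = (q'.out : Au k (Fin 2)) (x : T k) := by
      rw [hb, hb, hqq]
    have h2 : q.out⁻¹ * q'.out ∈ W.subgroupOf P := by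
      rw [Subgroup.mem_subgroupOf, hW _ (q.out⁻¹ * q'.out).2]
      have : ((q.out⁻¹ * q'.out : P) : Au k (Fin 2)) (x : T k) =
          ((q.out : Au k (Fin 2)))⁻¹ ((q'.out : Au k (Fin 2)) (x : T k)) := rfl
      rw [this, ← h1]
      exact AlgEquiv.symm_apply_apply _ _
    have h3 := QuotientGroup.eq.2 h2
    rw [QuotientGroup.out_eq', QuotientGroup.out_eq'] at h3
    exact h3
  have hex : ∃ j, ∑ q : P ⧸ W.subgroupOf P, b q.out ^ j ≠ 0 := by
    obtain ⟨j, _, hj⟩ := Pool.Agent.Helper71.FreeTri.exists_pow_sum_ne _ hinj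
    exact ⟨j, hj⟩
  obtain ⟨e, he⟩ : ∃ e, e = Nat.find hex := ⟨_, rfl⟩
  have he1 : ∑ q : P ⧸ W.subgroupOf P, b q.out ^ e ≠ 0 := by
    rw [he]; exact Nat.find_spec hex
  have he2 : ∀ j, j < e → ∑ q : P ⧸ W.subgroupOf P, b q.out ^ j = 0 := by
    intro j hj
    by_contra h
    rw [he] at hj
    exact Nat.find_min hex hj h
  have heA : e ≤ Nat.card P := by
    obtain ⟨j, hj1, hj2⟩ := Pool.Agent.Helper71.FreeTri.exists_pow_sum_ne _ hinj
    have h1 : e ≤ j := by rw [he]; exact Nat.find_min' hex hj2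
    have h2 : Fintype.card (P ⧸ W.subgroupOf P) ≤ Nat.card P := by
      rw [← Nat.card_eq_fintype_card]
      exact Nat.card_le_card_of_surjective _ QuotientGroup.mk_surjective
    omega
  obtain ⟨κ, hκ⟩ : ∃ κ, κ = ∑ q : P ⧸ W.subgroupOf P, b q.out ^ e := ⟨_, rfl⟩
  have hκ0 : κ ≠ 0 := by rw [hκ]; exact he1
  have hx0 : ∀ g ∈ W, g (x : T k) = x := fun g hg => (hW g (hWP hg)).1 hg
  refine RC_of_step (wm m) (fixedG P) (fixedG W) (fun f hf g hg => hf g (hWP hg)) hRC
    (fun f => κ⁻¹ • ∑ q : P ⧸ W.subgroupOf P, ((q.out : P) : Au k (Fin 2)) (f * x ^ e))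
    ?_ ?_ ?_ ?_ ?_
  · intro f hfW p hp
    rw [map_smul, map_sum]
    congr 1
    have h1 : ∀ q : P ⧸ W.subgroupOf P, p (((q.out : P) : Au k (Fin 2)) (f * x ^ e)) =
        ((((⟨p, hp⟩ : P) • q).out : P) : Au k (Fin 2)) (f * x ^ e) := by
      intro q
      have h2 : (((⟨p, hp⟩ : P) • q).out)⁻¹ * ((⟨p, hp⟩ : P) * q.out) ∈ W.subgroupOf P := by
        rw [← QuotientGroup.eq, QuotientGroup.out_eq']
        conv_lhs => rw [← QuotientGroup.out_eq' q]
        rfl
      rw [Subgroup.mem_subgroupOf] at h2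
      have h4 : (((((⟨p, hp⟩ : P) • q).out)⁻¹ * ((⟨p, hp⟩ : P) * q.out) : P) : Au k (Fin 2))
          (f * x ^ e) = f * x ^ e := by
        rw [map_mul, map_pow, hfW _ h2, hx0 _ h2]
      have h5 : (((((⟨p, hp⟩ : P) • q).out)⁻¹ * ((⟨p, hp⟩ : P) * q.out) : P) : Au k (Fin 2))
          (f * x ^ e) = ((((⟨p, hp⟩ : P) • q).out : P) : Au k (Fin 2))⁻¹
            (p (((q.out : P) : Au k (Fin 2)) (f * x ^ e))) := rfl
      rw [h5] at h4
      have h6 := congrArg (((((⟨p, hp⟩ : P) • q).out : P) : Au k (Fin 2))) h4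
      rw [← h6]
      exact (AlgEquiv.apply_symm_apply _ _).symm
    rw [Finset.sum_congr rfl fun q _ => h1 q]
    exact Equiv.sum_comp (MulAction.toPerm (⟨p, hp⟩ : P))
      (fun q : P ⧸ W.subgroupOf P => ((q.out : P) : Au k (Fin 2)) (f * x ^ e))
  · intro f g
    simp only [add_mul, map_add, Finset.sum_add_distrib, smul_add]
  · intro s hs f
    have h1 : ∀ q : P ⧸ W.subgroupOf P, ((q.out : P) : Au k (Fin 2)) (s * f * x ^ e) =
        s * ((q.out : P) : Au k (Fin 2)) (f * x ^ e) := by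
      intro q
      rw [mul_assoc, map_mul, hs _ (q.out : P).2]
    simp only [h1]
    rw [← Finset.mul_sum, mul_smul_comm]
  · intro s hs
    have h1 : ∀ q : P ⧸ W.subgroupOf P, ((q.out : P) : Au k (Fin 2)) (s * x ^ e) =
        s * (x + algebraMap k (T k) (b q.out)) ^ e := by
      intro q
      rw [map_mul, hs _ (q.out : P).2, map_pow, hb]
    simp only [h1]
    rw [← Finset.mul_sum, grA_sum (fun q : P ⧸ W.subgroupOf P => b q.out) e he2, ← hκ,
      Algebra.algebraMap_eq_smul_one, mul_smul_comm, mul_one, smul_smul, inv_mul_cancel₀ hκ0,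
      one_smul]
  · intro n f hf'
    refine Submodule.smul_mem _ _ ?_
    refine Pool.Agent.Helper71.FreeTri.sum_low (wm m) 0 (fun q : P ⧸ W.subgroupOf P => b q.out) e he2
      (fun q => (((q.out : P) : Au k (Fin 2)) : FreeAlgebra k (Fin 2) →ₐ[k] FreeAlgebra k (Fin 2)))
      ?_ ?_ n ?_
    · intro q i
      fin_cases i
      · change ((q.out : P) : Au k (Fin 2)) (x : T k) ∈ fl (wm m) (1 + 1)
        rw [hb]
        refine Submodule.add_mem _ ?_ ?_
        · simpa using grA_xpow (k := k) m 1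
        · rw [Algebra.algebraMap_eq_smul_one, ← mon_nil]
          exact Submodule.smul_mem _ _ (mon_mem_fl _ (by rw [wt_nil]; omega))
      · change ((q.out : P) : Au k (Fin 2)) (y : T k) ∈ fl (wm m) (m + 1)
        rw [hf]
        refine Submodule.add_mem _ ?_ ?_
        · have : (y : T k) = mon [1] := by rw [mon_cons, mon_nil, mul_one]; rfl
          rw [this]
          exact mon_mem_fl _ (by rw [wt_cons, wt_nil]; simp [wm])
        · have := hfm q.out
          exact fl_mono _ (by omega) (grA_pol m (ff q.out))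
    · intro q i
      fin_cases i
      · left
        change ((q.out : P) : Au k (Fin 2)) (x : T k) = _
        rw [hb, tra, FreeAlgebra.lift_ι_apply]
        simp [x]
      · right
        refine ⟨(ff q.out).natDegree, ?_, ?_⟩
        · change ((q.out : P) : Au k (Fin 2)) (y : T k) - _ ∈ _
          rw [hf, tra, FreeAlgebra.lift_ι_apply]
          have h0 : (Pi.single (0 : Fin 2) (b q.out) : Fin 2 → k) 1 = 0 := by simp
          change (y : T k) + pol (ff q.out) - (y + algebraMap k (T k)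
            ((Pi.single (0 : Fin 2) (b q.out) : Fin 2 → k) 1)) ∈ _
          rw [h0, map_zero, add_zero, add_sub_cancel_left]
          exact grA_pol m (ff q.out)
        · have := hfm q.out
          simp [wm]
          omega
    · have h1 := mul_mem_fl' (wm m) hf' (grA_xpow (k := k) m e)
      simpa [wm] using h1

end Pool.Agent.Helper26.FI
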