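import Pool.Agent.Helper26.FI.ShDefs
import Pool.Agent.Helper71.FreeTri

/-!
# From the unipotent part to the whole triangular group (every characteristic)

PLAN.
* `idx_ne`: the index of `P` in `G` is invertible in `k`.  Copy the argument `hidx` of `FreeTri.triangular`: if
  the characteristic `p > 0` divides `P.relIndex G`, take a Sylow `p`-subgroup `S` of `G`; for `g ∈ S`, `g ^ (p ^ n) = 1`; if
  `g x = a • x + algebraMap b` then `g ^ j x = a ^ j • x + const`, so `a ^ (p ^ n) = 1`, so `a = 1`; similarly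
  `g y = c • y + pol f` gives `g ^ j y = c ^ j • y + pol (…)` and `c = 1` (compare coefficients of the
  words `[0]`, `[1]`: use `bs.repr`, `repr_mon`, or the algebra maps `T → k[X]`); so `S ≤ P`, and
  `P.relIndex G ∣ S.index` is prime to `p`.
* Then `RC_of_step (wm m) (fixedG G) (fixedG P)` with `E f = (P.relIndex G : k)⁻¹ • ∑ q : G ⧸ P.subgroupOf G, q.out f`
  (compare `trc_decomp`, `TD_of_index` in FreeTrace.lean): hE1: for `f ∈ fixedG P`, `g ∈ G`:
  `g * q.out = q'.out * h`, `h ∈ P`, reindex by `q ↦ g • q`; hE4: the number of cosets is `P.relIndex G`; hE5: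
  every `g ∈ G` is filtered for `wm m` (`hG`; `map_fl_of_filt`): `a • x + b ∈ fl 2`, `c • y + pol f ∈ fl (m + 1)`.
-/

namespace Pool.Agent.Helper26.FI

open Pool.Agent.Helper71.FreeCore Pool.Agent.Helper71.FreeCrit Pool.Agent.Helper71.FreeApp
  Pool.Agent.Helper71.FreeTrace

universe u

variable {k : Type u} [Field k]

private theorem gb_x : (x : T k) = mon [0] := by
  rw [mon_cons, mon_nil, mul_one]; rfl

private theorem gb_y : (y : T k) = mon [1] := by
  rw [mon_cons, mon_nil, mul_one]; rfl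

private theorem gb_alg (b : k) : algebraMap k (T k) b = b • mon [] := by
  rw [Algebra.algebraMap_eq_smul_one, mon_nil]

private theorem gb_repr_x (a b : k) :
    bs.repr (a • (x : T k) + algebraMap k (T k) b) [0] = a := by
  rw [gb_x, gb_alg, map_add, map_smul, map_smul, repr_mon, repr_mon]
  simp

private theorem gb_repr_y (c : k) (f : Polynomial k) :
    bs.repr (c • (y : T k) + pol f) [1] = c := by
  have h1 : bs.repr (pol f : T k) [1] = 0 := by
    by_contra h
    have h2 := (mem_hm yw).1 (pol_yhom f) [1] h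
    simp [wt, yw] at h2
  rw [map_add, map_smul, Finsupp.add_apply, h1, gb_y, repr_mon]
  simp

private theorem gb_pow_x (g : Au k (Fin 2)) (a b : k)
    (h : g (x : T k) = a • x + algebraMap k (T k) b) (n : ℕ) :
    ∃ b' : k, (g ^ n) (x : T k) = a ^ n • x + algebraMap k (T k) b' := by
  induction n with
  | zero => exact ⟨0, by simp⟩
  | succ n ih =>
    obtain ⟨b', hb'⟩ := ih
    refine ⟨a ^ n * b + b', ?_⟩
    rw [pow_succ' g]
    change g ((g ^ n) x) = _
    rw [hb', map_add, map_smul, h, AlgEquiv.commutes, smul_add, smul_smul, ← pow_succ, map_add,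
      map_mul, ← Algebra.smul_def, add_assoc]

private theorem gb_map_pol (g : Au k (Fin 2)) (a b : k)
    (h : g (x : T k) = a • x + algebraMap k (T k) b) (q : Polynomial k) :
    ∃ q' : Polynomial k, g (pol q : T k) = pol q' := by
  refine ⟨q.comp (Polynomial.C a * Polynomial.X + Polynomial.C b), ?_⟩
  have h1 : g (x : T k) = pol (Polynomial.C a * Polynomial.X + Polynomial.C b) := by
    rw [h, pol, map_add, map_mul, Polynomial.aeval_C, Polynomial.aeval_C, Polynomial.aeval_X,
      ← Algebra.smul_def]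
  have h2 : g (Polynomial.aeval (x : T k) q) = Polynomial.aeval (g (x : T k)) q :=
    (Polynomial.aeval_algHom_apply (g : T k →ₐ[k] T k) (x : T k) q).symm
  rw [pol, h2, h1, Polynomial.aeval_comp]
  rfl

private theorem gb_pow_y (g : Au k (Fin 2)) (a b c : k) (f : Polynomial k)
    (h : g (x : T k) = a • x + algebraMap k (T k) b) (hy : g (y : T k) = c • y + pol f) (n : ℕ) :
    ∃ f' : Polynomial k, (g ^ n) (y : T k) = c ^ n • y + pol f' := by
  induction n with
  | zero => exact ⟨0, by simp⟩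
  | succ n ih =>
    obtain ⟨f', hf'⟩ := ih
    obtain ⟨q', hq'⟩ := gb_map_pol g a b h f'
    refine ⟨c ^ n • f + q', ?_⟩
    rw [pow_succ' g]
    change g ((g ^ n) y) = _
    rw [hf', map_add, map_smul, hy, hq', smul_add, smul_smul, ← pow_succ, map_add, map_smul,
      add_assoc]

theorem idx_ne (G P : Subgroup (Au k (Fin 2))) [Finite G] (hPG : P ≤ G)
    (hG : ∀ g ∈ G, (∃ a b : k, g (x : T k) = a • x + algebraMap k (T k) b) ∧
      ∃ (c : k) (f : Polynomial k), g (y : T k) = c • y + pol f)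
    (hP : ∀ g ∈ G, (g ∈ P ↔ (∃ b : k, g (x : T k) = x + algebraMap k (T k) b) ∧
      ∃ f : Polynomial k, g (y : T k) = y + pol f)) : (P.relIndex G : k) ≠ 0 := by
  intro h0
  obtain ⟨p, hp⟩ := CharP.exists k
  rw [CharP.cast_eq_zero_iff k p] at h0
  have hidx0 : P.relIndex G ≠ 0 := Subgroup.index_ne_zero_of_finite
  rcases CharP.char_is_prime_or_zero k p with hp1 | hp1
  · have : Fact p.Prime := ⟨hp1⟩
    obtain ⟨S⟩ : Nonempty (Sylow p G) := inferInstance
    have hone : ∀ (a : k) (m : ℕ), a ^ p ^ m = 1 → a = 1 := by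
      intro a m ha
      have h5 : (1 - a) ^ p ^ m = 0 := by
        rw [sub_pow_char_pow, one_pow, ha, sub_self]
      exact (sub_eq_zero.1 (eq_zero_of_pow_eq_zero h5)).symm
    have hS : (S : Subgroup G) ≤ P.subgroupOf G := by
      intro g hg
      rw [Subgroup.mem_subgroupOf]
      obtain ⟨m, hm⟩ := S.isPGroup' ⟨g, hg⟩
      have hm' : (g : Au k (Fin 2)) ^ p ^ m = 1 := by
        have := congrArg (fun s : S => ((s : G) : Au k (Fin 2))) hm
        simpa using this
      obtain ⟨⟨a, b, hab⟩, c, f, hcf⟩ := hG g g.2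
      refine (hP g g.2).2 ⟨⟨b, ?_⟩, f, ?_⟩
      · obtain ⟨b', hb'⟩ := gb_pow_x _ a b hab (p ^ m)
        rw [hm'] at hb'
        have h1 : bs.repr (x : T k) [0] = a ^ p ^ m := by
          conv_lhs => rw [show (x : T k) = (1 : Au k (Fin 2)) x from rfl, hb']
          exact gb_repr_x _ _
        rw [gb_x, repr_mon, Finsupp.single_eq_same] at h1
        have h2 := hone a m h1.symm
        rw [hab, h2, one_smul]
      · obtain ⟨f', hf'⟩ := gb_pow_y _ a b c f hab hcf (p ^ m)
        rw [hm'] at hf'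
        have h1 : bs.repr (y : T k) [1] = c ^ p ^ m := by
          conv_lhs => rw [show (y : T k) = (1 : Au k (Fin 2)) y from rfl, hf']
          exact gb_repr_y _ _
        rw [gb_y, repr_mon, Finsupp.single_eq_same] at h1
        have h2 := hone c m h1.symm
        rw [hcf, h2, one_smul]
    have h1 : P.relIndex G ∣ (S : Subgroup G).index := Subgroup.index_dvd_of_le hS
    exact S.not_dvd_index (h0.trans h1)
  · rw [hp1] at h0
    exact hidx0 (Nat.eq_zero_of_zero_dvd h0)

private theorem gb_x_mem (m : ℕ) : (x : T k) ∈ (fl (wm m) (1 + 1) : Submodule k (T k)) := by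
  rw [gb_x]
  refine mon_mem_fl (wm m) ?_
  simp [wt, wm]

private theorem gb_y_mem (m : ℕ) : (y : T k) ∈ (fl (wm m) (m + 1) : Submodule k (T k)) := by
  rw [gb_y]
  refine mon_mem_fl (wm m) ?_
  simp [wt, wm]

private theorem gb_one_mem (m : ℕ) : (1 : T k) ∈ (fl (wm m) (0 + 1) : Submodule k (T k)) := by
  rw [← mon_nil (X := Fin 2)]
  refine mon_mem_fl (wm m) ?_
  simp [wt]

private theorem gb_xpow_mem (m n : ℕ) :
    (x ^ n : T k) ∈ (fl (wm m) (n + 1) : Submodule k (T k)) := by
  induction n with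
  | zero => rw [pow_zero]; exact gb_one_mem m
  | succ n ih =>
    rw [pow_succ]
    exact mul_mem_fl (wm m) ih (gb_x_mem m)

private theorem gb_pol_mem (m : ℕ) {d : ℕ} {q : Polynomial k} (hq : q.natDegree ≤ d) :
    (pol q : T k) ∈ (fl (wm m) (d + 1) : Submodule k (T k)) := by
  have h1 : (pol q : T k) = ∑ i ∈ Finset.range (d + 1), q.coeff i • x ^ i := by
    rw [pol, Polynomial.aeval_eq_sum_range' (Nat.lt_succ_of_le hq)]
  rw [h1]
  refine Submodule.sum_mem _ fun i hi => Submodule.smul_mem _ _ ?_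
  refine fl_mono (wm m) ?_ (gb_xpow_mem m i)
  have := Finset.mem_range.mp hi
  omega

theorem grpB (m : ℕ) (G P : Subgroup (Au k (Fin 2))) [Finite G] (hPG : P ≤ G)
    (hG : ∀ g ∈ G, (∃ a b : k, g (x : T k) = a • x + algebraMap k (T k) b) ∧
      ∃ (c : k) (f : Polynomial k), g (y : T k) = c • y + pol f ∧ f.natDegree ≤ m)
    (hP : ∀ g ∈ G, (g ∈ P ↔ (∃ b : k, g (x : T k) = x + algebraMap k (T k) b) ∧
      ∃ f : Polynomial k, g (y : T k) = y + pol f))
    (hRC : RC (wm m) (fixedG P)) : RC (wm m) (fixedG G) := by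
  classical
  let _ : Fintype (G ⧸ P.subgroupOf G) := Fintype.ofFinite _
  have hidx : (P.relIndex G : k) ≠ 0 := by
    refine idx_ne G P hPG (fun g hg => ?_) hP
    obtain ⟨h1, c, f, hf, _⟩ := hG g hg
    exact ⟨h1, c, f, hf⟩
  have hfilt : ∀ g ∈ G, Filt (wm m) g := by
    intro g hg i
    obtain ⟨⟨a, b, hab⟩, c, f, hcf, hdeg⟩ := hG g hg
    have hi : i = 0 ∨ i = 1 := by fin_cases i <;> simp
    rcases hi with rfl | rfl
    · change g (x : T k) ∈ fl (wm m) (1 + 1)
      rw [hab, Algebra.algebraMap_eq_smul_one]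
      refine Submodule.add_mem _ (Submodule.smul_mem _ _ (gb_x_mem m))
        (Submodule.smul_mem _ _ (fl_mono (wm m) (by omega) (gb_one_mem m)))
    · change g (y : T k) ∈ fl (wm m) (m + 1)
      rw [hcf]
      exact Submodule.add_mem _ (Submodule.smul_mem _ _ (gb_y_mem m)) (gb_pol_mem m hdeg)
  have hcard : Fintype.card (G ⧸ P.subgroupOf G) = P.relIndex G := by
    rw [← Nat.card_eq_fintype_card]; rfl
  refine RC_of_step (wm m) (fixedG G) (fixedG P) (fun f hf g hg => hf g (hPG hg)) hRC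
    (fun f => (P.relIndex G : k)⁻¹ •
      ∑ q : G ⧸ P.subgroupOf G, ((q.out : G) : Au k (Fin 2)) f) ?_ ?_ ?_ ?_ ?_
  · intro f hf g hg
    have hinv : ∀ γ : G, ((QuotientGroup.mk γ : G ⧸ P.subgroupOf G).out : Au k (Fin 2)) f =
        (γ : Au k (Fin 2)) f := by
      intro γ
      obtain ⟨h, hh⟩ := QuotientGroup.mk_out_eq_mul (P.subgroupOf G) γ
      rw [hh]
      change (γ : Au k (Fin 2)) (((h : G) : Au k (Fin 2)) f) = _
      rw [hf _ (Subgroup.mem_subgroupOf.1 h.2)]
    change g ((P.relIndex G : k)⁻¹ • ∑ q : G ⧸ P.subgroupOf G, ((q.out : G) : Au k (Fin 2)) f) =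
      (P.relIndex G : k)⁻¹ • ∑ q : G ⧸ P.subgroupOf G, ((q.out : G) : Au k (Fin 2)) f
    rw [map_smul, map_sum]
    congr 1
    refine Fintype.sum_equiv (MulAction.toPerm (⟨g, hg⟩ : G)) _ _ (fun q => ?_)
    rw [MulAction.toPerm_apply]
    have h1 : (⟨g, hg⟩ : G) • q = QuotientGroup.mk (⟨g, hg⟩ * q.out) := by
      conv_lhs => rw [← QuotientGroup.out_eq' q]
      rfl
    rw [h1, hinv]
    rfl
  · intro f g
    simp only [map_add, Finset.sum_add_distrib, smul_add]
  · intro s hs f
    simp only [map_mul]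
    rw [mul_smul_comm, Finset.mul_sum]
    congr 1
    exact Finset.sum_congr rfl (fun q _ => by rw [hs _ (q.out : G).2])
  · intro s hs
    have h1 : ∑ q : G ⧸ P.subgroupOf G, ((q.out : G) : Au k (Fin 2)) s =
        (P.relIndex G : k) • s := by
      rw [Finset.sum_congr rfl (fun q _ => hs _ (q.out : G).2), Finset.sum_const,
        Finset.card_univ, hcard, Nat.cast_smul_eq_nsmul]
    change (P.relIndex G : k)⁻¹ • ∑ q : G ⧸ P.subgroupOf G, ((q.out : G) : Au k (Fin 2)) s = s
    rw [h1, smul_smul, inv_mul_cancel₀ hidx, one_smul]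
  · intro n f hf
    refine Submodule.smul_mem _ _ (Submodule.sum_mem _ (fun q _ => ?_))
    exact map_fl_of_filt (wm m) (g := ((q.out : G) : Au k (Fin 2)).toAlgHom)
      (fun i => hfilt _ (q.out : G).2 i) hf

end Pool.Agent.Helper26.FI
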