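import Pool.Agent.Helper26.FI.RCW
import Pool.Agent.Helper26.FI.GrpA
import Pool.Agent.Helper26.FI.GrpB

/-!
# Finite triangular groups in characteristic two with split unipotent part

PLAN.
* `unip G` is the subgroup of the `g ∈ G` with `g x = x + b`, `g y = y + f(x)`, and `xfix G` the subgroup of the
  `g ∈ G` with `g x = x`, `g y = y + f(x)` (closure under products and inverses: `g (pol q) = pol (q.comp (X + C b))`;
  for the inverse apply `g⁻¹` to both sides; `g⁻¹ x = x - b`, `g⁻¹ y = y - g⁻¹ (pol f)`, `g⁻¹ (pol f) = pol (f.comp (X - C b))`).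
* `fixedG (xfix G) = FW L`: an automorphism `g` with `g x = x`, `g y = y + pol f` equals `shh f` as an algebra map
  (`FreeAlgebra.hom_ext`).  `⊆`: `f ∈ L` is in the closure, so comes from some `g ∈ G` (`hL`).
  `⊇`: for `f` in the closure of `L`, `shh f t = t` for `t ∈ FW L` by `AddSubgroup.closure_induction` with `shh_comp`, `shh_zero`
  (`-f`: `shh (-f) t = shh (-f) (shh f t) = t`).
* Choose `d` bounding all `natDegree f`, `f ∈ L`, and `m` with `(L.length + 1) * d + 1 ≤ m`, `2 * d < m`, and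
  `natDegree f_g + Nat.card P < m` for all `g ∈ G`, where `g y = c • y + pol f_g` (finitely many `g`; for `g ∈ P` the `f` in
  `g y = y + pol f` is unique when it exists with `c = 1`: choose the data `(c_g, f_g)` for each `g` once, with `c_g = 1` if
  `g ∈ P`).
* `RC_FW`, `grpA`, `grpB`, then `free_of_RC (wm m)` (weights positive: `m ≥ 1`); `fixedG G` and
  `invariants G` are equal by definition up to unfolding (`rfl`, see `FreeThms.triangular`).
-/

namespace Pool.Agent.Helper26.FI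

open Pool.Agent.Helper71.FreeCore Pool.Agent.Helper71.FreeCrit Pool.Agent.Helper71.FreeApp
  Pool.Agent.Helper71.FreeTrace Pool.Agent.Helper71.FreeDefs

universe u

private theorem gc_pol {k : Type u} [Field k] (g : T k →ₐ[k] T k) (b : k)
    (hg : g x = x + algebraMap k (T k) b) (q : Polynomial k) :
    g (pol q) = pol (q.comp (Polynomial.X + Polynomial.C b)) := by
  have h1 : g (pol q) = Polynomial.aeval (g x) q := by
    rw [pol, Polynomial.aeval_algHom_apply]
  have h2 : (pol (q.comp (Polynomial.X + Polynomial.C b)) : T k) =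
      Polynomial.aeval (x + algebraMap k (T k) b) q := by
    rw [pol, Polynomial.aeval_comp, map_add, Polynomial.aeval_X, Polynomial.aeval_C]
  rw [h1, h2, hg]

private theorem gc_ext {k : Type u} [Field k] {A B : T k →ₐ[k] T k} (h0 : A x = B x)
    (h1 : A y = B y) (t : T k) : A t = B t := by
  have h : A = B := by
    apply FreeAlgebra.hom_ext
    funext i
    fin_cases i
    · exact h0
    · exact h1
  rw [h]

private theorem gc_shh {k : Type u} [Field k] (g : T k ≃ₐ[k] T k) (f : Polynomial k)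
    (h0 : g x = x) (h1 : g y = y + pol f) (t : T k) : g t = shh f t := by
  refine gc_ext (A := (g : T k →ₐ[k] T k)) (B := shh f) ?_ ?_ t
  · rw [shh_x]
    exact h0
  · rw [shh_y]
    exact h1

/-- the unipotent elements -/
private noncomputable def gcP {k : Type u} [Field k] (G : Subgroup (T k ≃ₐ[k] T k)) :
    Subgroup (T k ≃ₐ[k] T k) where
  carrier := {g | g ∈ G ∧ (∃ b : k, g (x : T k) = x + algebraMap k (T k) b) ∧
      ∃ f : Polynomial k, g (y : T k) = y + pol f}
  mul_mem' := by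
    rintro g h ⟨hg, ⟨b, hb⟩, f, hf⟩ ⟨hh, ⟨b', hb'⟩, f', hf'⟩
    refine ⟨G.mul_mem hg hh, ⟨b + b', ?_⟩,
      f + f'.comp (Polynomial.X + Polynomial.C b), ?_⟩
    · change g (h x) = _
      rw [hb', map_add, hb, AlgEquiv.commutes, map_add, add_assoc]
    · change g (h y) = _
      have h1 : g (pol f') = pol (f'.comp (Polynomial.X + Polynomial.C b)) :=
        gc_pol (g : T k →ₐ[k] T k) b hb f'
      rw [hf', map_add, hf, h1, map_add, add_assoc]
  one_mem' := by
    refine ⟨G.one_mem, ⟨0, ?_⟩, 0, ?_⟩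
    · rw [map_zero, add_zero]
      rfl
    · rw [map_zero, add_zero]
      rfl
  inv_mem' := by
    rintro g ⟨hg, ⟨b, hb⟩, f, hf⟩
    have h1 : ∀ t, g⁻¹ (g t) = t := fun t => g.symm_apply_apply t
    have hx : g⁻¹ x = x + algebraMap k (T k) (-b) := by
      have h2 := h1 x
      rw [hb, map_add, AlgEquiv.commutes] at h2
      rw [map_neg, ← sub_eq_add_neg]
      exact eq_sub_of_add_eq h2
    have h3 : g⁻¹ (pol f) = pol (f.comp (Polynomial.X + Polynomial.C (-b))) :=
      gc_pol ((g⁻¹ : T k ≃ₐ[k] T k) : T k →ₐ[k] T k) (-b) hx f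
    refine ⟨G.inv_mem hg, ⟨-b, hx⟩, -f.comp (Polynomial.X + Polynomial.C (-b)), ?_⟩
    have h2 := h1 y
    rw [hf, map_add, h3] at h2
    rw [map_neg, ← sub_eq_add_neg]
    exact eq_sub_of_add_eq h2

private theorem gc_memP {k : Type u} [Field k] {G : Subgroup (T k ≃ₐ[k] T k)}
    {g : T k ≃ₐ[k] T k} : g ∈ gcP G ↔ g ∈ G ∧ (∃ b : k, g (x : T k) = x + algebraMap k (T k) b) ∧
      ∃ f : Polynomial k, g (y : T k) = y + pol f := Iff.rfl

/-- the unipotent elements fixing the first variable -/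
private noncomputable def gcW {k : Type u} [Field k] (G : Subgroup (T k ≃ₐ[k] T k)) :
    Subgroup (T k ≃ₐ[k] T k) where
  carrier := {g | g ∈ gcP G ∧ g (x : T k) = x}
  mul_mem' := by
    rintro g h ⟨hg, hgx⟩ ⟨hh, hhx⟩
    refine ⟨(gcP G).mul_mem hg hh, ?_⟩
    change g (h x) = _
    rw [hhx, hgx]
  one_mem' := ⟨(gcP G).one_mem, rfl⟩
  inv_mem' := by
    rintro g ⟨hg, hgx⟩
    refine ⟨(gcP G).inv_mem hg, ?_⟩
    have h1 : g⁻¹ (g x) = x := g.symm_apply_apply x
    rw [hgx] at h1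
    exact h1

private theorem gc_memW {k : Type u} [Field k] {G : Subgroup (T k ≃ₐ[k] T k)}
    {g : T k ≃ₐ[k] T k} : g ∈ gcW G ↔ g ∈ gcP G ∧ g (x : T k) = x := Iff.rfl

private theorem gc_fix {k : Type u} [Field k]
    (G : Subgroup (T k ≃ₐ[k] T k)) (L : List (Polynomial k))
    (hL : ∀ f : Polynomial k, (∃ g ∈ G, g (x : T k) = x ∧ g (y : T k) = y + pol f) ↔
      f ∈ AddSubgroup.closure {f : Polynomial k | f ∈ L}) : fixedG (gcW G) = FW L := by
  ext t
  rw [mem_FW]
  constructor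
  · intro ht f hf
    obtain ⟨g, hg, hgx, hgy⟩ := (hL f).2 (AddSubgroup.subset_closure hf)
    have hgW : g ∈ gcW G := ⟨⟨hg, ⟨0, by rw [map_zero, add_zero, hgx]⟩, f, hgy⟩, hgx⟩
    have h1 : g t = t := ht g hgW
    rw [gc_shh g f hgx hgy] at h1
    exact h1
  · intro ht g hg
    obtain ⟨⟨hgG, _, f, hgy⟩, hgx⟩ := hg
    have hf : f ∈ AddSubgroup.closure {f : Polynomial k | f ∈ L} := (hL f).1 ⟨g, hgG, hgx, hgy⟩
    rw [gc_shh g f hgx hgy]
    refine AddSubgroup.closure_induction (p := fun f _ => shh f t = t) ?_ ?_ ?_ ?_ hf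
    · intro f hf
      exact ht f hf
    · exact shh_zero t
    · intro f g _ _ h1 h2
      rw [← shh_comp, h2, h1]
    · intro f _ h1
      have h2 : shh (-f) (shh f t) = t := by
        rw [shh_comp, neg_add_cancel, shh_zero]
      rw [h1] at h2
      exact h2

private theorem gc_deg {k : Type u} [Field k] (L : List (Polynomial k)) :
    ∃ d, ∀ f ∈ L, f.natDegree ≤ d := by
  induction L with
  | nil => exact ⟨0, fun f hf => absurd hf List.not_mem_nil⟩
  | cons a L ih =>
    obtain ⟨d, hd⟩ := ih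
    refine ⟨max a.natDegree d, fun f hf => ?_⟩
    rcases List.mem_cons.1 hf with h | h
    · rw [h]
      exact le_max_left _ _
    · exact (hd f h).trans (le_max_right _ _)

theorem tri_free_of_RC {k : Type u} [Field k]
    (G : Subgroup (FreeAlgebra k (Fin 2) ≃ₐ[k] FreeAlgebra k (Fin 2))) [Finite G]
    (htri : ∀ g ∈ G, (∃ a b : k, g (x : T k) = a • x + algebraMap k (T k) b) ∧
      ∃ (c : k) (f : Polynomial k), g (y : T k) = c • y + pol f)
    (L : List (Polynomial k)) (hRC : ∃ m0 : ℕ, ∀ m, m0 ≤ m → RC (wm m) (FW L))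
    (hL : ∀ f : Polynomial k, (∃ g ∈ G, g (x : T k) = x ∧ g (y : T k) = y + pol f) ↔
      f ∈ AddSubgroup.closure {f : Polynomial k | f ∈ L}) : IsFree (invariants G) := by
  have hPG : gcP G ≤ G := fun g hg => hg.1
  have hWP : gcW G ≤ gcP G := fun g hg => hg.1
  have hfinP : Finite (gcP G) :=
    Finite.of_injective (Subgroup.inclusion hPG) (Subgroup.inclusion_injective _)
  obtain ⟨m0, hm0⟩ := hRC
  have hn : ∀ g : G, ∃ n : ℕ,
      (∃ (c : k) (f : Polynomial k), (g : Au k (Fin 2)) (y : T k) = c • y + pol f ∧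
        f.natDegree ≤ n) ∧
      ((g : Au k (Fin 2)) ∈ gcP G → ∃ f : Polynomial k,
        (g : Au k (Fin 2)) (y : T k) = y + pol f ∧ f.natDegree ≤ n) := by
    intro g
    obtain ⟨_, c, f, hf⟩ := htri g g.2
    by_cases h : (g : Au k (Fin 2)) ∈ gcP G
    · obtain ⟨_, _, f', hf'⟩ := id h
      exact ⟨max f.natDegree f'.natDegree, ⟨c, f, hf, le_max_left _ _⟩,
        fun _ => ⟨f', hf', le_max_right _ _⟩⟩
    · exact ⟨f.natDegree, ⟨c, f, hf, le_rfl⟩, fun h' => absurd h' h⟩
  choose n hn1 hn2 using hn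
  obtain ⟨M, hM⟩ := (Set.finite_range n).bddAbove
  have hM' : ∀ g : G, n g ≤ M := fun g => hM ⟨g, rfl⟩
  obtain ⟨m, hm⟩ : ∃ m, m = m0 + 1 + M + Nat.card (gcP G) := ⟨_, rfl⟩
  have h1 : RC (wm m) (FW L) := hm0 m (by omega)
  rw [← gc_fix G L hL] at h1
  have h2 : RC (wm m) (fixedG (gcP G)) := by
    refine grpA m (gcP G) (gcW G) hWP ?_ ?_ h1
    · intro g hg
      refine ⟨hg.2.1, ?_⟩
      obtain ⟨f, hf, hfn⟩ := hn2 ⟨g, hPG hg⟩ hg
      have h3 := hM' ⟨g, hPG hg⟩
      have h5 : f.natDegree + Nat.card (gcP G) < m := by omega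
      exact ⟨f, hf, h5⟩
    · intro g hg
      exact ⟨fun h => h.2, fun h => ⟨hg, h⟩⟩
  have h3 : RC (wm m) (fixedG G) := by
    refine grpB m G (gcP G) hPG ?_ ?_ h2
    · intro g hg
      refine ⟨(htri g hg).1, ?_⟩
      obtain ⟨c, f, hf, hfn⟩ := hn1 ⟨g, hg⟩
      refine ⟨c, f, hf, ?_⟩
      have h3 := hM' ⟨g, hg⟩
      omega
    · intro g hg
      exact ⟨fun h => h.2, fun h => ⟨hg, h⟩⟩
  refine free_of_RC (wm m) ?_ (fixedG G) h3
  intro i
  fin_cases i
  · change 0 < 1
    omega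
  · change 0 < m
    omega

theorem tri_free {k : Type u} [Field k] [CharP k 2]
    (G : Subgroup (FreeAlgebra k (Fin 2) ≃ₐ[k] FreeAlgebra k (Fin 2))) [Finite G]
    (htri : ∀ g ∈ G, (∃ a b : k, g (x : T k) = a • x + algebraMap k (T k) b) ∧
      ∃ (c : k) (f : Polynomial k), g (y : T k) = c • y + pol f)
    (L : List (Polynomial k)) (hLI : LI L)
    (hL : ∀ f : Polynomial k, (∃ g ∈ G, g (x : T k) = x ∧ g (y : T k) = y + pol f) ↔
      f ∈ AddSubgroup.closure {f : Polynomial k | f ∈ L}) : IsFree (invariants G) := by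
  obtain ⟨d, hd⟩ := gc_deg L
  refine tri_free_of_RC G htri L ⟨(L.length + 1) * d + 1 + 2 * d + 1, fun m hm => ?_⟩ hL
  exact RC_FW L hLI (by omega) (by omega) hd

end Pool.Agent.Helper26.FI
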