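import Pool.Agent.Helper26.FI.R0M

/-!
# Injectivity of `x - a` on `TV L / Q L`

PLAN (char 2; write `l = el a`, all signs are `+`).  Let `r = L.length ≥ 1`.
1. `t * l ∈ Q L`: `t * l = ρ + Dl L c` (`mem_Q`); apply `cmp yw n`: by `cmp_mul_el`, `R0_cmp`, `Dl_cmp`,
   `cmp_of_hm` we may assume `c ∈ hm yw (n + r)` (and `ρ ∈ R0`).
2. `ρ = ρ0 + ρ1 l + ρ2 z` (`R0_dec`), `c = c1 l + e y` with `e ∈ hm yw (n + r - 1)` (`dec_exists_hom`,
   `n + r ≥ 1`).  Replace `t` by `t' = t - ρ1 - Dl L c1` (`Dl_mul_el`): enough `t' ∈ Q L`, and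
   `t' l = ρ0 + ρ2 z + Dl L (e y)`.
3. `e = e0 + ex l + ey y` (`dec_exists a e`; if `n + r - 1 = m + 1` use `dec_exists_hom`, so `e0 = 0`,
   `ey ∈ hm yw (n + r - 2)`; if `n + r - 1 = 0` use `dec_exists_zero`, so `ey = 0`).
4. `z = l y + y l` (`y_mul_el`), so `ρ2 z = ρ2 l y + ρ2 y l`.
   `Dl (e y) = Dl e * y + Cl e + Gl e * l`                                    (`Dl_mul_y`)
   `Cl e = c' + Cl ex * l + Cl ey * y + Hl ey * l`          (`Cl_const`, `Cl_mul_el`, `Cl_mul_y`)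
   `Dl e = Dl ex * l + Dl ey * y + Cl ey + Gl ey * l`       (`Dl_const`, `Dl_mul_el`, `Dl_mul_y`)
   The coefficient of `y` (`dec_unique`):  `0 = ρ2 l + Dl e + Cl ey
      = (ρ2 + Dl ex + Gl ey) * l + Dl ey * y` (the two `Cl ey` cancel), hence again by `dec_unique`
      `Dl ey = 0` and `ρ2 = Dl ex + Gl ey`.
   The coefficient of `l`: `t' = ρ2 y + Gl e + Cl ex + Hl ey`.
   `Gl e = pol q + Gl ex * l + Gl ey * y + Kl ey + Hl ey`   (`Gl_const`, `Gl_mul_el`, `Gl_mul_y`)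
   Sum: `t' = (Dl ex * y + Cl ex + Gl ex * l) + pol q + Kl ey + 2 (Gl ey * y) + 2 Hl ey
            = Dl (ex y) + pol q + Kl ey`.
5. `Kl ey ∈ Q L`: `Kl_eq`; the piece `Dl (L.eraseIdx i) ey` is in `TV L` (`piece_TV`), and has `y`-degree
   `n - 1` if `n ≥ 1` (`Dl_hom` with length `r - 1`, `List.length_eraseIdx`), so it is in `Q L` by `IH`; it is
   `0` if `n = 0` (`Dl_hom_lt`) or if `ey = 0`.  Conclude with `Q_mul_dlt`.
-/

namespace Pool.Agent.Helper26.FI

open Pool.Agent.Helper71.FreeCore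

universe u

variable {k : Type u} [Field k]

/-- The computation of steps 2 to 4. -/
theorem inj_formula [CharP k 2] (a : k) {L : List (Polynomial k)} (hL : L ≠ []) {t r0 e ex ey : T k}
    {c0 e0 : k} (hr0 : r0 ∈ R0 k) (he : e = algebraMap k (T k) e0 + ex * el a + ey * y)
    (h : t * el a = algebraMap k (T k) c0 + r0 * z + Dl L (e * y)) :
    Dl L ey = 0 ∧ ∃ q : Polynomial k, t = Dl L (ex * y) + pol q + Kl a L ey := by
  obtain ⟨c', hc'⟩ := Cl_const a L e0
  obtain ⟨q, hq⟩ := Gl_const a L e0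
  have h2 : ∀ s : T k, s + s = 0 := by
    intro s
    have h3 : (2 : k) • s = s + s := two_smul k s
    rw [← h3, (CharTwo.two_eq_zero : (2 : k) = 0), zero_smul]
  have hDe : Dl L e = Dl L ex * el a + (Dl L ey * y + Cl a L ey + Gl a L ey * el a) := by
    rw [he, map_add, map_add, Dl_const hL, Dl_mul_el, Dl_mul_y, zero_add]
  have hCe : Cl a L e = algebraMap k (T k) c' + Cl a L ex * el a +
      (Cl a L ey * y + Hl a L ey * el a) := by
    rw [he, Cl_add, Cl_add, hc', Cl_mul_el, Cl_mul_y]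
  have hGe : Gl a L e = pol q + Gl a L ex * el a +
      (Gl a L ey * y + Kl a L ey + Hl a L ey) := by
    rw [he, Gl_add, Gl_add, hq, Gl_mul_el, Gl_mul_y]
  have hz : (z : T k) = el a * y - y * el a := by
    rw [y_mul_el]
    abel
  have e1 : algebraMap k (T k) (c0 + c') +
      (-(r0 * y) + Cl a L ex + Hl a L ey + pol q + Gl a L ex * el a + Gl a L ey * y + Kl a L ey +
        Hl a L ey - t) * el a +
      (r0 * el a + Dl L ex * el a + Dl L ey * y + Cl a L ey + Gl a L ey * el a + Cl a L ey) * y =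
      0 := by
    have e2 : algebraMap k (T k) (c0 + c') +
      (-(r0 * y) + Cl a L ex + Hl a L ey + pol q + Gl a L ex * el a + Gl a L ey * y + Kl a L ey +
        Hl a L ey) * el a +
      (r0 * el a + Dl L ex * el a + Dl L ey * y + Cl a L ey + Gl a L ey * el a + Cl a L ey) * y =
      t * el a := by
      rw [h, Dl_mul_y, hDe, hCe, hGe, hz, map_add]
      noncomm_ring
    rw [sub_mul, ← e2]
    abel
  obtain ⟨_, e3, e4⟩ := dec_unique a e1
  have e5 : algebraMap k (T k) 0 + (r0 + Dl L ex + Gl a L ey) * el a + Dl L ey * y = 0 := by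
    have e6 := h2 (Cl a L ey)
    calc algebraMap k (T k) 0 + (r0 + Dl L ex + Gl a L ey) * el a + Dl L ey * y
        = (r0 * el a + Dl L ex * el a + Dl L ey * y + Cl a L ey + Gl a L ey * el a +
            Cl a L ey) - (Cl a L ey + Cl a L ey) := by
          rw [map_zero]
          noncomm_ring
      _ = 0 := by rw [e4, e6, sub_zero]
  obtain ⟨_, e7, e8⟩ := dec_unique a e5
  refine ⟨e8, q, ?_⟩
  have e9 : r0 = -(Dl L ex + Gl a L ey) := by
    rw [add_assoc] at e7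
    exact eq_neg_of_add_eq_zero_left e7
  have e10 := sub_eq_zero.1 e3
  rw [← e10, e9, Dl_mul_y]
  have e11 := h2 (Gl a L ey * y)
  have e12 := h2 (Hl a L ey)
  calc -(-(Dl L ex + Gl a L ey) * y) + Cl a L ex + Hl a L ey + pol q + Gl a L ex * el a +
        Gl a L ey * y + Kl a L ey + Hl a L ey
      = Dl L ex * y + Cl a L ex + Gl a L ex * el a + pol q + Kl a L ey +
        (Gl a L ey * y + Gl a L ey * y) + (Hl a L ey + Hl a L ey) := by noncomm_ring
    _ = Dl L ex * y + Cl a L ex + Gl a L ex * el a + pol q + Kl a L ey := by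
        rw [e11, e12, add_zero, add_zero]

theorem Kl_mem_Q [CharP k 2] (a : k) {L : List (Polynomial k)} (n : ℕ)
    (IH : ∀ m < n, ∀ s ∈ TV L, s ∈ hm yw m → s ∈ Q L) {N : ℕ} {s : T k} (h : Dl L s = 0)
    (hs : s ∈ hm yw N) (hN : N + 2 = n + L.length) : Kl a L s ∈ Q L := by
  rw [Kl_eq]
  refine Submodule.sum_mem _ fun i _ => Q_mul_dlt L ?_ _
  have hlen : (L.eraseIdx i).length = L.length - 1 := List.length_eraseIdx_of_lt i.isLt
  have hpos : 0 < L.length := lt_of_le_of_lt (Nat.zero_le _) i.isLt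
  rcases Nat.eq_zero_or_pos n with hn | hn
  · rw [Dl_hom_lt (L.eraseIdx i) hs (by rw [hlen]; omega)]
    exact Submodule.zero_mem _
  · refine IH (n - 1) (by omega) _ (piece_TV h i) (Dl_hom (L.eraseIdx i) ?_)
    rw [hlen]
    have e : n - 1 + (L.length - 1) = N := by omega
    rwa [e]

theorem inj_step [CharP k 2] (a : k) {L : List (Polynomial k)} (hL : L ≠ []) (n : ℕ)
    (IH : ∀ m < n, ∀ s ∈ TV L, s ∈ hm yw m → s ∈ Q L) {t : T k} (ht : t ∈ TV L)
    (hn : t ∈ hm yw n) (h : t * el a ∈ Q L) : t ∈ Q L := by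
  have _ := ht
  obtain ⟨ρ, hρ, c, hc⟩ := mem_Q.1 h
  have hlen : 0 < L.length := List.length_pos_iff.2 hL
  have h1 : t * el a = cmp yw n ρ + Dl L (cmp yw (n + L.length) c) := by
    have h2 := congrArg (cmp yw n) hc
    rwa [cmp_mul_el, cmp_of_hm yw hn, map_add, ← Dl_cmp] at h2
  have hρ' := R0_cmp yw n hρ
  obtain ⟨c0, r1, hr1, r2, hr2, hρ2⟩ := R0_dec a hρ'
  obtain ⟨m, hm1⟩ : ∃ m, n + L.length = m + 1 := ⟨n + L.length - 1, by omega⟩
  have hc' : cmp yw (n + L.length) c ∈ (hm yw (m + 1) : Submodule k (T k)) := by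
    rw [← hm1]
    exact cmp_mem_hm yw _ _
  obtain ⟨c1, _, e, he, hc2⟩ := dec_exists_hom a hc'
  set t' : T k := t - r1 - Dl L c1 with ht'
  have h3 : t' * el a = algebraMap k (T k) c0 + r2 * z + Dl L (e * y) := by
    rw [ht', sub_mul, sub_mul, h1, hρ2, hc2, map_add, Dl_mul_el]
    abel
  have h4 : ∃ (e0 : k) (ex ey : T k), e = algebraMap k (T k) e0 + ex * el a + ey * y ∧
      (ey = 0 ∨ ∃ N, N + 2 = n + L.length ∧ ey ∈ (hm yw N : Submodule k (T k))) := by
    cases m with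
    | zero =>
      obtain ⟨e0, ex, _, h5⟩ := dec_exists_zero a he
      exact ⟨e0, ex, 0, by rw [h5, zero_mul, add_zero], Or.inl rfl⟩
    | succ m =>
      obtain ⟨ex, _, ey, hey, h5⟩ := dec_exists_hom a he
      exact ⟨0, ex, ey, by rw [h5, map_zero, zero_add], Or.inr ⟨m, by omega, hey⟩⟩
  obtain ⟨e0, ex, ey, h5, h6⟩ := h4
  obtain ⟨h7, q, h8⟩ := inj_formula a hL hr2 h5 h3
  have h9 : Kl a L ey ∈ Q L := by
    rcases h6 with h6 | ⟨N, hN, h6⟩
    · rw [h6, Kl_eq]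
      refine Submodule.sum_mem _ fun i _ => ?_
      rw [map_zero, zero_mul]
      exact Submodule.zero_mem _
    · exact Kl_mem_Q a n IH h7 h6 hN
  have h10 : t' ∈ Q L := by
    rw [h8]
    exact Submodule.add_mem _ (Submodule.add_mem _ (Dl_mem_Q L _) (R0_le_Q L (pol_mem_R0 q))) h9
  have h11 : t = t' + r1 + Dl L c1 := by
    rw [ht']
    abel
  rw [h11]
  exact Submodule.add_mem _ (Submodule.add_mem _ h10 (R0_le_Q L hr1)) (Dl_mem_Q L _)

end Pool.Agent.Helper26.FI
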