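import Pool.Agent.Helper26.FI.Low

/-!
# Lowering of weights: products, and the monomial derivations

PLAN.
* `Tl_low`: induction: `Tl (f :: L) - Dl (f :: L) = dsh f ∘ (Tl L - Dl L) + (dsh f - D f) ∘ Dl L`, where
  `dsh f` lowers by `m - d`, `Tl L - Dl L` by `(L.length + 1) (m - d)`, `Nsh f` by `2 (m - d)`,
  `Dl L` by `L.length (m - d)`.
* `D_X_hom`, `D_X_cmp`: `D (X^d) (mon l)` is a sum of monomials of weight `wt l - m + d`.
-/

namespace Pool.Agent.Helper26.FI

open Pool.Agent.Helper71.FreeCore Pool.Agent.Helper71.FreeApp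

universe u

variable {k : Type u} [Field k]

private theorem lb_zero (m j : ℕ) : Low m j (0 : T k →ₗ[k] T k) := by
  intro n t _
  rw [LinearMap.zero_apply]
  exact Submodule.zero_mem _

private theorem lb_id (m : ℕ) : Low m 0 (LinearMap.id : T k →ₗ[k] T k) := fun _ _ ht => ht

private theorem lb_Dl {m d : ℕ} (hd : d ≤ m) (L : List (Polynomial k))
    (hL : ∀ f ∈ L, f.natDegree ≤ d) : Low m (L.length * (m - d)) (Dl L) := by
  induction L with
  | nil =>
    rw [List.length_nil, Nat.zero_mul]
    exact lb_id m
  | cons f L ih =>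
    have h1 := Low_comp (D_low hd (hL f List.mem_cons_self))
      (ih (fun g hg => hL g (List.mem_cons_of_mem _ hg)))
    have h2 : (f :: L).length * (m - d) = (m - d) + L.length * (m - d) := by
      rw [List.length_cons]
      ring
    rw [h2]
    exact h1

theorem Tl_low {m d : ℕ} (hd : d ≤ m) (L : List (Polynomial k))
    (hL : ∀ f ∈ L, f.natDegree ≤ d) : Low m ((L.length + 1) * (m - d)) (Tl L - Dl L) := by
  induction L with
  | nil =>
    have h : (Tl [] - Dl [] : T k →ₗ[k] T k) = 0 := sub_self _
    rw [h]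
    exact lb_zero _ _
  | cons f L ih =>
    have hf := hL f List.mem_cons_self
    have hL' : ∀ g ∈ L, g.natDegree ≤ d := fun g hg => hL g (List.mem_cons_of_mem _ hg)
    have h1 : Tl (f :: L) - Dl (f :: L) = dsh f ∘ₗ (Tl L - Dl L) + Nsh f ∘ₗ Dl L := by
      refine LinearMap.ext fun t => ?_
      change dsh f (Tl L t) - D f (Dl L t) =
        dsh f (Tl L t - Dl L t) + (dsh f (Dl L t) - D f (Dl L t))
      rw [map_sub]
      abel
    rw [h1]
    refine Low_add ?_ ?_
    · have h2 := Low_comp (dsh_low hd hf) (ih hL')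
      have h3 : ((f :: L).length + 1) * (m - d) = (m - d) + (L.length + 1) * (m - d) := by
        rw [List.length_cons]
        ring
      rw [h3]
      exact h2
    · have h2 := Low_comp (Nsh_low hd hf) (lb_Dl hd L hL')
      have h3 : ((f :: L).length + 1) * (m - d) = 2 * (m - d) + L.length * (m - d) := by
        rw [List.length_cons]
        ring
      rw [h3]
      exact h2

/-- The sum of the numbers `m - deg e`. -/
def drop (m : ℕ) (E : List (Polynomial k)) : ℕ := (E.map (fun e => m - e.natDegree)).sum

private theorem drop_cons (m : ℕ) (e : Polynomial k) (E : List (Polynomial k)) :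
    drop m (e :: E) = (m - e.natDegree) + drop m E := by
  simp [drop]

private theorem lb_Dl' {m : ℕ} (E : List (Polynomial k)) (hE : ∀ e ∈ E, e.natDegree ≤ m) :
    Low m (drop m E) (Dl E) := by
  induction E with
  | nil => exact lb_id m
  | cons e E ih =>
    rw [drop_cons]
    exact Low_comp (D_low (hE e List.mem_cons_self) le_rfl)
      (ih (fun g hg => hE g (List.mem_cons_of_mem _ hg)))

theorem Dl_lead {m : ℕ} (E : List (Polynomial k)) (hE : ∀ e ∈ E, e.Monic ∧ e.natDegree ≤ m) :
    Low m (drop m E + 1)
      (Dl E - Dl (E.map (fun e => (Polynomial.X : Polynomial k) ^ e.natDegree))) := by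
  induction E with
  | nil =>
    have h : (Dl [] - Dl (([] : List (Polynomial k)).map
        (fun e => (Polynomial.X : Polynomial k) ^ e.natDegree)) : T k →ₗ[k] T k) = 0 := sub_self _
    rw [h]
    exact lb_zero _ _
  | cons e E ih =>
    obtain ⟨he, hd⟩ := hE e List.mem_cons_self
    have hE' : ∀ g ∈ E, g.Monic ∧ g.natDegree ≤ m := fun g hg => hE g (List.mem_cons_of_mem _ hg)
    have h1 : Dl (e :: E) - Dl ((e :: E).map
          (fun e => (Polynomial.X : Polynomial k) ^ e.natDegree)) =
        (D e - D (Polynomial.X ^ e.natDegree)) ∘ₗ Dl E +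
          D (Polynomial.X ^ e.natDegree) ∘ₗ
            (Dl E - Dl (E.map (fun e => (Polynomial.X : Polynomial k) ^ e.natDegree))) := by
      refine LinearMap.ext fun t => ?_
      change D e (Dl E t) - D (Polynomial.X ^ e.natDegree)
          (Dl (E.map (fun e => (Polynomial.X : Polynomial k) ^ e.natDegree)) t) =
        (D e (Dl E t) - D (Polynomial.X ^ e.natDegree) (Dl E t)) +
          D (Polynomial.X ^ e.natDegree)
            (Dl E t - Dl (E.map (fun e => (Polynomial.X : Polynomial k) ^ e.natDegree)) t)
      rw [map_sub]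
      abel
    rw [h1, drop_cons]
    refine Low_add ?_ ?_
    · have h2 := Low_comp (D_lead he hd) (lb_Dl' E (fun g hg => (hE' g hg).2))
      have h3 : m - e.natDegree + drop m E + 1 = m - e.natDegree + 1 + drop m E := by omega
      rw [h3]
      exact h2
    · have h2 := Low_comp (D_low hd (f := (Polynomial.X : Polynomial k) ^ e.natDegree)
        (le_of_eq (Polynomial.natDegree_X_pow _))) (ih hE')
      have h3 : m - e.natDegree + drop m E + 1 = m - e.natDegree + (drop m E + 1) := by omega
      rw [h3]
      exact h2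

private theorem lb_wt0 (m : ℕ) (l : List (Fin 2)) : wt (wm m) (0 :: l) = 1 + wt (wm m) l := by
  rw [wt_cons]
  rfl

private theorem lb_wt1 (m : ℕ) (l : List (Fin 2)) : wt (wm m) (1 :: l) = m + wt (wm m) l := by
  rw [wt_cons]
  rfl

private theorem lb_mon0 (l : List (Fin 2)) : (mon (0 :: l) : T k) = x * mon l := mon_cons _ _

private theorem lb_mon1 (l : List (Fin 2)) : (mon (1 :: l) : T k) = y * mon l := mon_cons _ _

private theorem lb_small (f : Polynomial k) {m : ℕ} (l : List (Fin 2)) (h : wt (wm m) l < m) :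
    D f (mon l : T k) = 0 := by
  induction l with
  | nil =>
    rw [mon_nil, ← map_one (algebraMap k (T k))]
    exact D_alg f 1
  | cons i l ih =>
    match i with
    | 0 =>
      rw [lb_wt0] at h
      rw [lb_mon0, D_mul, D_x, zero_mul, zero_add, ih (by omega), mul_zero]
    | 1 =>
      rw [lb_wt1] at h
      omega

private theorem lb_x_hom (m : ℕ) : (x : T k) ∈ hm (wm m) 1 := by
  have h1 : (mon [0] : T k) ∈ hm (wm m) 1 := mon_mem_hm _ (by rw [lb_wt0, wt_nil])
  rw [lb_mon0, mon_nil, mul_one] at h1
  exact h1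

private theorem lb_y_hom (m : ℕ) : (y : T k) ∈ hm (wm m) m := by
  have h1 : (mon [1] : T k) ∈ hm (wm m) m := mon_mem_hm _ (by rw [lb_wt1, wt_nil, add_zero])
  rw [lb_mon1, mon_nil, mul_one] at h1
  exact h1

private theorem lb_pow_hom (m d : ℕ) : (pol (Polynomial.X ^ d : Polynomial k) : T k) ∈
    hm (wm m) d := by
  have h0 : (pol (Polynomial.X ^ d : Polynomial k) : T k) = x ^ d := by
    rw [map_pow]
    congr 1
    exact Polynomial.aeval_X _
  rw [h0]
  induction d with
  | zero =>
    rw [pow_zero, ← mon_nil (k := k) (X := Fin 2)]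
    exact mon_mem_hm _ (wt_nil _)
  | succ d ih =>
    rw [pow_succ]
    exact mul_mem_hm _ (ih (by
      rw [map_pow]
      congr 1
      exact Polynomial.aeval_X _)) (lb_x_hom m)

private theorem lb_hom_mon {m d : ℕ} (hd : d ≤ m) (l : List (Fin 2)) :
    ∀ n, wt (wm m) l = n + (m - d) →
      D (Polynomial.X ^ d : Polynomial k) (mon l : T k) ∈ hm (wm m) n := by
  induction l with
  | nil =>
    intro n _
    have h1 : D (Polynomial.X ^ d : Polynomial k) (mon [] : T k) = 0 := by
      rw [mon_nil, ← map_one (algebraMap k (T k))]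
      exact D_alg _ 1
    rw [h1]
    exact Submodule.zero_mem _
  | cons i l ih =>
    intro n hn
    match i with
    | 0 =>
      rw [lb_wt0] at hn
      rw [lb_mon0, D_mul, D_x, zero_mul, zero_add]
      by_cases h0 : n = 0
      · rw [lb_small _ l (m := m) (by omega), mul_zero]
        exact Submodule.zero_mem _
      · have h1 := mul_mem_hm _ (lb_x_hom (k := k) m) (ih (n - 1) (by omega))
        have h2 : 1 + (n - 1) = n := by omega
        rw [h2] at h1
        exact h1
    | 1 =>
      rw [lb_wt1] at hn
      rw [lb_mon1, D_mul, D_y]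
      refine Submodule.add_mem _ ?_ ?_
      · have h1 := mul_mem_hm _ (lb_pow_hom (k := k) m d) (mon_mem_hm (wm m) (l := l) rfl)
        have h2 : d + wt (wm m) l = n := by omega
        rw [h2] at h1
        exact h1
      · by_cases h0 : wt (wm m) l < m - d
        · rw [lb_small _ l (m := m) (by omega), mul_zero]
          exact Submodule.zero_mem _
        · have h1 := mul_mem_hm _ (lb_y_hom (k := k) m)
            (ih (wt (wm m) l - (m - d)) (by omega))
          have h2 : m + (wt (wm m) l - (m - d)) = n := by omega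
          rw [h2] at h1
          exact h1

theorem D_X_hom {m d : ℕ} (hd : d ≤ m) {n : ℕ} {t : T k} (ht : t ∈ hm (wm m) (n + (m - d))) :
    D (Polynomial.X ^ d : Polynomial k) t ∈ hm (wm m) n := by
  refine hm_ind (wm m) (p := fun t => D (Polynomial.X ^ d : Polynomial k) t ∈ hm (wm m) n) ht
    ?_ ?_ ?_ ?_
  · intro l hl
    exact lb_hom_mon hd l n hl
  · rw [map_zero]
    exact Submodule.zero_mem _
  · intro a b ha hb
    rw [map_add]
    exact Submodule.add_mem _ ha hb
  · intro c a ha
    rw [map_smul]
    exact Submodule.smul_mem _ _ ha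

theorem D_X_cmp {m d : ℕ} (hd : d ≤ m) (n : ℕ) (t : T k) :
    D (Polynomial.X ^ d : Polynomial k) (cmp (wm m) (n + (m - d)) t) =
      cmp (wm m) n (D (Polynomial.X ^ d : Polynomial k) t) := by
  refine mon_ind (p := fun t => D (Polynomial.X ^ d : Polynomial k)
    (cmp (wm m) (n + (m - d)) t) = cmp (wm m) n (D (Polynomial.X ^ d : Polynomial k) t)) t
    ?_ ?_ ?_ ?_
  · intro l
    rw [cmp_mon]
    by_cases h : wt (wm m) l = n + (m - d)
    · rw [if_pos h]
      exact (cmp_of_hm _ (lb_hom_mon hd l n h)).symm
    · rw [if_neg h, map_zero]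
      by_cases h0 : wt (wm m) l < m - d
      · rw [lb_small _ l (m := m) (by omega), map_zero]
      · exact (cmp_of_hm_ne _ (lb_hom_mon hd l (wt (wm m) l - (m - d)) (by omega))
          (by omega)).symm
  · simp only [map_zero]
  · intro a b ha hb
    simp only [map_add, ha, hb]
  · intro c a ha
    simp only [map_smul, ha]

theorem D_X_small {m d : ℕ} (hd : d ≤ m) {n : ℕ} (hn : n < m) {t : T k} (ht : t ∈ hm (wm m) n) :
    D (Polynomial.X ^ d : Polynomial k) t = 0 := by
  refine hm_ind (wm m) (p := fun t => D (Polynomial.X ^ d : Polynomial k) t = 0) ht ?_ ?_ ?_ ?_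
  · intro l hl
    exact lb_small _ l (m := m) (by omega)
  · exact map_zero _
  · intro a b ha hb
    rw [map_add, ha, hb, add_zero]
  · intro c a ha
    rw [map_smul, ha, smul_zero]

theorem Dl_X_cmp {m : ℕ} (E : List (Polynomial k)) (hE : ∀ e ∈ E, e.natDegree ≤ m) (n : ℕ)
    (t : T k) :
    Dl (E.map (fun e => (Polynomial.X : Polynomial k) ^ e.natDegree))
        (cmp (wm m) (n + drop m E) t) =
      cmp (wm m) n (Dl (E.map (fun e => (Polynomial.X : Polynomial k) ^ e.natDegree)) t) := by
  induction E generalizing n with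
  | nil => rfl
  | cons e E ih =>
    have hE' : ∀ g ∈ E, g.natDegree ≤ m := fun g hg => hE g (List.mem_cons_of_mem _ hg)
    have h1 : n + drop m (e :: E) = (n + (m - e.natDegree)) + drop m E := by
      rw [drop_cons]
      omega
    rw [h1, List.map_cons]
    change D _ (Dl _ _) = cmp (wm m) n (D _ (Dl _ t))
    rw [ih hE', D_X_cmp (hE e List.mem_cons_self)]

end Pool.Agent.Helper26.FI
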