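import Pool.Agent.Helper26.FI.Sh
import Pool.Agent.Helper26.FI.LowB

/-!
# Leading components of `FW L` are killed by the monomial derivations (every characteristic)

PLAN.  Let `s ∈ FW L`, `s ∈ fl (wm m) (n + 1)`, `z = cmp (wm m) n s`, `e ∈ span L` monic of degree `j ≤ d`.
If `n < m`: `D_X_small` (`z ∈ hm (wm m) n`, `cmp_mem_hm`).  Otherwise `n = n' + (m - j)` with `n' = n - (m - j)`
(note `m - j ≤ m ≤ n`).  By `Nsh_low` (all `f ∈ L` have `natDegree ≤ d`), with
`n + 1 ≤ n' + 2 (m - d)` (because `(m - j) + 1 ≤ 2 (m - d)`: `m + 1 + j… ≥`, from `2 * d < m` and `j ≥ 0`: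
`m - j + 1 ≤ m + 1 ≤ 2 m - 2 d`), `Nsh f s ∈ fl (wm m) n'` for all `f ∈ L`, so `D e s ∈ fl (wm m) n'`
by `FW_span`.  Moreover `D e s - D (X^j) s ∈ fl (wm m) n'` by `D_lead` (`s ∈ fl (n' + (m - j) + 1)`).  So
`D (X^j) s ∈ fl (wm m) n'`, and `D (X^j) z = D (X^j) (cmp (n' + (m - j)) s) = cmp n' (D (X^j) s) = 0`
(`D_X_cmp`, `cmp_of_fl`).
-/

namespace Pool.Agent.Helper26.FI

open Pool.Agent.Helper71.FreeCore Pool.Agent.Helper71.FreeCrit Pool.Agent.Helper71.FreeApp

universe u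

variable {k : Type u} [Field k]

theorem lead_sub {m d : ℕ} (hmd : 2 * d < m) {L : List (Polynomial k)}
    (hL : ∀ f ∈ L, f.natDegree ≤ d) {e : Polynomial k} (he : e.Monic)
    (he' : e ∈ Submodule.span k {f : Polynomial k | f ∈ L}) (hed : e.natDegree ≤ d) {n : ℕ} {z : T k}
    (hz : z ∈ lead (wm m) (FW L) n) : D (Polynomial.X ^ e.natDegree : Polynomial k) z = 0 := by
  obtain ⟨s, hs, hsn, rfl⟩ := (mem_lead (wm m)).1 hz
  have hjm : e.natDegree ≤ m := by omega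
  rcases lt_or_ge n m with hn | hn
  · exact D_X_small hjm hn (cmp_mem_hm (wm m) n s)
  · obtain ⟨n', rfl⟩ : ∃ n', n = n' + (m - e.natDegree) :=
      ⟨n - (m - e.natDegree), by omega⟩
    have hdm : d ≤ m := by omega
    have h1 : ∀ f ∈ L, Nsh f s ∈ (fl (wm m) n' : Submodule k (T k)) := by
      intro f hf
      exact Nsh_low hdm (hL f hf) n' s (fl_mono (wm m) (by omega) hsn)
    have h2 : D e s ∈ (fl (wm m) n' : Submodule k (T k)) := FW_span hs _ h1 he'
    have h3 : (D e - D (Polynomial.X ^ e.natDegree) : T k →ₗ[k] T k) s ∈ (fl (wm m) n' : Submodule k (T k)) :=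
      D_lead he hjm n' s (fl_mono (wm m) (by omega) hsn)
    have h4 : D (Polynomial.X ^ e.natDegree : Polynomial k) s ∈
        (fl (wm m) n' : Submodule k (T k)) := by
      have h5 := Submodule.sub_mem _ h2 h3
      rwa [LinearMap.sub_apply, sub_sub_cancel] at h5
    rw [D_X_cmp hjm, cmp_of_fl (wm m) h4 le_rfl]

end Pool.Agent.Helper26.FI
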