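import Pool.Agent.Helper26.FI.Desc
import Pool.Agent.Helper26.FI.Ech
import Pool.Agent.Helper26.FI.LeadA

/-!
# The leading components of `FW L` (characteristic two)

PLAN.  `E, c` from `exists_ech`, `M = E.map (X ^ natDegree)`.
`lead_sup`: let `z ∈ hm (wm m) n`, `z ∈ TV M`.  By `TV_le_Q M (LI_mono …)` and `mem_Q`: `z = r + Dl M s`.  Apply
`cmp (wm m) n`: `z = r' + Dl M s'` with `r' = cmp (wm m) n r ∈ R0 k` (`R0_cmp`), `s' = cmp (wm m) (n + drop m E) s`
(`Dl_X_cmp`).  Put `t = r' + c⁻¹ • Tl L s'`.  It is in `FW L` (`R0_le_FW`, `Tl_mem_FW`).  And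
`t - z = c⁻¹ • (Tl L s' - Dl L s') + (Dl E s' - Dl M s')` (as `c⁻¹ • Dl L s' = Dl E s'`), where
`s' ∈ hm (n + drop) ≤ fl (n + drop + 1)` (`hm_le_fl`), so `Dl E s' - Dl M s' ∈ fl n` (`Dl_lead`) and
`Tl L s' - Dl L s' ∈ fl n` by `Tl_low` since `drop m E + 1 ≤ (L.length + 1) * (m - d)`
(`drop m E ≤ E.length * m`, `E.length = L.length = r`, and `r * m + 1 ≤ (r + 1) * (m - d)` because
`(r + 1) * d + 1 ≤ m`).  So `t ∈ fl (n + 1)`, `cmp (wm m) n t = z` (`cmp_of_hm`, `cmp_of_fl`).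
-/

namespace Pool.Agent.Helper26.FI

open Pool.Agent.Helper71.FreeCore Pool.Agent.Helper71.FreeCrit Pool.Agent.Helper71.FreeApp

universe u

variable {k : Type u} [Field k]

private theorem drop_le (m : ℕ) (E : List (Polynomial k)) : drop m E ≤ E.length * m := by
  unfold drop
  induction E with
  | nil => simp
  | cons e E ih =>
    rw [List.map_cons, List.sum_cons, List.length_cons, Nat.succ_mul]
    omega

theorem lead_sup [CharP k 2] {m d : ℕ} {L E : List (Polynomial k)} {c : k}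
    (hmd : (L.length + 1) * d + 1 ≤ m) (hL : ∀ f ∈ L, f.natDegree ≤ d) (hc : c ≠ 0)
    (hE1 : ∀ t : T k, Dl L t = c • Dl E t) (hE2 : ∀ e ∈ E, e.Monic) (hE3 : ∀ e ∈ E, e.natDegree ≤ d)
    (hE4 : (E.map Polynomial.natDegree).Nodup) (hE5 : E.length = L.length) {n : ℕ} {z : T k}
    (hz : z ∈ hm (wm m) n)
    (hz' : z ∈ TV (E.map (fun e => (Polynomial.X : Polynomial k) ^ e.natDegree))) :
    z ∈ lead (wm m) (FW L) n := by
  have hdm : d ≤ m := by
    have h1 : 1 * d ≤ (L.length + 1) * d := Nat.mul_le_mul_right d (by omega)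
    omega
  have hEm : ∀ e ∈ E, e.natDegree ≤ m := fun e he => (hE3 e he).trans hdm
  obtain ⟨r, hr, s, hs⟩ := mem_Q.1 (TV_le_Q _ (LI_mono E hE4) hz')
  set M := E.map (fun e => (Polynomial.X : Polynomial k) ^ e.natDegree) with hM
  set s' := cmp (wm m) (n + drop m E) s with hs'
  set r' := cmp (wm m) n r with hr'
  have h1 : z = r' + Dl M s' := by
    rw [hs', Dl_X_cmp E hEm n s, hr', ← map_add, ← hs, cmp_of_hm (wm m) hz]
  have hr'0 : r' ∈ R0 k := R0_cmp (wm m) n hr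
  have hs'f : s' ∈ (fl (wm m) (n + (drop m E + 1)) : Submodule k (T k)) :=
    hm_le_fl (wm m) (n + drop m E) (cmp_mem_hm (wm m) (n + drop m E) s)
  have hbd : drop m E + 1 ≤ (L.length + 1) * (m - d) := by
    have h2 := drop_le m E
    rw [hE5] at h2
    have h3 : (L.length + 1) * (m - d) + (L.length + 1) * d = (L.length + 1) * m := by
      rw [← Nat.mul_add, Nat.sub_add_cancel hdm]
    have h4 : (L.length + 1) * m = L.length * m + m := by ring
    omega
  have hA : Tl L s' - Dl L s' ∈ (fl (wm m) n : Submodule k (T k)) :=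
    Low_mono hbd (Tl_low hdm L hL) n s' hs'f
  have hB : Dl E s' - Dl M s' ∈ (fl (wm m) n : Submodule k (T k)) :=
    Dl_lead E (fun e he => ⟨hE2 e he, hEm e he⟩) n s' hs'f
  have hDl : c⁻¹ • Dl L s' = Dl E s' := by
    rw [hE1, smul_smul, inv_mul_cancel₀ hc, one_smul]
  have hdiff : r' + c⁻¹ • Tl L s' - z = c⁻¹ • (Tl L s' - Dl L s') + (Dl E s' - Dl M s') := by
    rw [smul_sub, hDl, h1]
    abel
  have hdm' : r' + c⁻¹ • Tl L s' - z ∈ (fl (wm m) n : Submodule k (T k)) := by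
    rw [hdiff]
    exact Submodule.add_mem _ (Submodule.smul_mem _ _ hA) hB
  rw [mem_lead]
  refine ⟨r' + c⁻¹ • Tl L s', ?_, ?_, ?_⟩
  · exact (FW L).add_mem (R0_le_FW L hr'0) ((FW L).smul_mem (Tl_mem_FW L s') _)
  · have h2 : r' + c⁻¹ • Tl L s' = z + (r' + c⁻¹ • Tl L s' - z) := by abel
    rw [h2]
    exact Submodule.add_mem _ (hm_le_fl (wm m) n hz) (fl_mono (wm m) (Nat.le_succ n) hdm')
  · have h2 : r' + c⁻¹ • Tl L s' = z + (r' + c⁻¹ • Tl L s' - z) := by abel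
    rw [h2, map_add, cmp_of_hm (wm m) hz, cmp_of_fl (wm m) hdm' le_rfl, add_zero]

end Pool.Agent.Helper26.FI
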