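import Pool.Agent.Helper26.FI.ListId

/-!
# Further facts on lists of derivations
-/

namespace Pool.Agent.Helper26.FI

open Pool.Agent.Helper71.FreeCore

universe u

variable {k : Type u} [Field k]

private theorem Dl_cons' (f : Polynomial k) (L : List (Polynomial k)) (s : T k) :
    Dl (f :: L) s = D f (Dl L s) := rfl

theorem Dl_perm {L L' : List (Polynomial k)} (h : L.Perm L') (s : T k) : Dl L s = Dl L' s := by
  induction h with
  | nil => rfl
  | cons f _ ih => exact congrArg (D f) ih
  | swap f g l => exact D_comm _ _ _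
  | trans _ _ ih1 ih2 => exact ih1.trans ih2

theorem D_Dl_mem [CharP k 2] {L : List (Polynomial k)} {f : Polynomial k} (hf : f ∈ L) (s : T k) :
    D f (Dl L s) = 0 := by
  obtain ⟨l1, l2, rfl⟩ := List.append_of_mem hf
  rw [Dl_perm (List.perm_middle) s, Dl_cons', D_sq]

theorem Dl_mem_TV [CharP k 2] (L : List (Polynomial k)) (s : T k) : Dl L s ∈ TV L :=
  fun _ hf => D_Dl_mem hf s

private theorem D_mul_dlt (f p : Polynomial k) (b : T k) : D f (b * dlt p) = D f b * dlt p := by
  rw [D_mul, D_dlt, mul_zero, add_zero]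

theorem Kl_eq (a : k) (L : List (Polynomial k)) (s : T k) :
    Kl a L s = ∑ i : Fin L.length, Dl (L.eraseIdx i) s * dlt (dq a (L.get i)) := by
  induction L with
  | nil => rfl
  | cons f L ih =>
    have h1 : Kl a (f :: L) s = D f (Kl a L s) + Dl L s * dlt (dq a f) := rfl
    rw [h1, ih, map_sum]
    simp only [D_mul_dlt]
    rw [add_comm]
    exact (Fin.sum_univ_succ (fun i : Fin (L.length + 1) =>
      Dl ((f :: L).eraseIdx i) s * dlt (dq a ((f :: L).get i)))).symm

theorem piece_TV [CharP k 2] {L : List (Polynomial k)} {s : T k} (h : Dl L s = 0)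
    (i : Fin L.length) : Dl (L.eraseIdx i) s ∈ TV L := by
  intro f hf
  have h1 : (L.get i :: L.eraseIdx i).Perm L := List.getElem_cons_eraseIdx_perm i.2
  have h2 := h1.symm.mem_iff.1 hf
  rcases List.mem_cons.1 h2 with h3 | h3
  · rw [h3, ← Dl_cons', Dl_perm h1, h]
  · exact D_Dl_mem h3 s

theorem Dl_hom (L : List (Polynomial k)) {n : ℕ} {s : T k} (hs : s ∈ hm yw (n + L.length)) :
    Dl L s ∈ hm yw n := by
  induction L generalizing n with
  | nil => exact hs
  | cons f L ih =>
    rw [Dl_cons']
    refine D_yhom f (ih ?_)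
    have h1 : n + 1 + L.length = n + (f :: L).length := by
      rw [List.length_cons]
      omega
    rw [h1]
    exact hs

theorem Dl_hom_lt (L : List (Polynomial k)) {n : ℕ} {s : T k} (hs : s ∈ hm yw n)
    (hn : n < L.length) : Dl L s = 0 := by
  induction L with
  | nil => exact absurd hn (Nat.not_lt_zero _)
  | cons f L ih =>
    rw [Dl_cons']
    rw [List.length_cons] at hn
    rcases Nat.lt_succ_iff_lt_or_eq.1 hn with h1 | h1
    · rw [ih h1, map_zero]
    · refine D_yhom_zero f (Dl_hom L ?_)
      rw [zero_add, ← h1]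
      exact hs

theorem Dl_cmp (L : List (Polynomial k)) (n : ℕ) (s : T k) :
    Dl L (cmp yw (n + L.length) s) = cmp yw n (Dl L s) := by
  induction L generalizing n with
  | nil => rfl
  | cons f L ih =>
    rw [Dl_cons', Dl_cons']
    have h1 : n + (f :: L).length = n + 1 + L.length := by
      rw [List.length_cons]
      omega
    rw [h1, ih, D_cmp]

theorem Dl_mul_R0 (L : List (Polynomial k)) (s : T k) {r : T k} (hr : r ∈ R0 k) :
    Dl L (s * r) = Dl L s * r := by
  induction L with
  | nil => rfl
  | cons f L ih => rw [Dl_cons', ih, D_mul, D_R0 f hr, mul_zero, add_zero, Dl_cons']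

theorem Dl_scale [CharP k 2] (f1 : Polynomial k) (a c : k) (L : List (Polynomial k)) (t : T k) :
    D f1 (Dl (L.map (fun f => c • f - f.eval a • f1)) t) = c ^ L.length • D f1 (Dl L t) := by
  induction L with
  | nil => simp [Dl]
  | cons f L ih =>
    rw [List.map_cons, Dl_cons', D_comm, ih, map_smul, Dl_cons', sub_eq_add_neg, ← neg_smul,
      D_add, D_smul, D_smul, D_sq, smul_zero, add_zero, D_comm f f1, smul_smul, List.length_cons,
      pow_succ]

private theorem Cl_zero (a : k) (L : List (Polynomial k)) (hL : ∀ f ∈ L, f.eval a = 0) (s : T k) :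
    Cl a L s = 0 := by
  induction L with
  | nil => rfl
  | cons f L ih =>
    rw [Cl, ih (fun g hg => hL g (List.mem_cons_of_mem _ hg)), hL f List.mem_cons_self, map_zero,
      zero_smul, add_zero]

/-- Modulo `T (x - a)`, operators vanishing at `a` commute with right multiplication by `y`. -/
theorem Dl_mul_y_mod (a : k) (L : List (Polynomial k)) (hL : ∀ f ∈ L, f.eval a = 0) (s : T k) :
    ∃ u : T k, Dl L s * y = Dl L (s * y) + u * el a := by
  refine ⟨-Gl a L s, ?_⟩
  rw [Dl_mul_y a L s, Cl_zero a L hL s, add_zero, neg_mul, add_neg_cancel_right]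

end Pool.Agent.Helper26.FI
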