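import Pool.Agent.Helper26.FI.Der
import Pool.Agent.Helper26.FI.Dec

/-!
# The four identities (characteristic two)

Fix `a : k`, write `l = el a = x - a`, and for a polynomial `f` put `c = f(a)`, `f' = dq a f`, so
`pol f = c + pol f' * l = c + l * pol f'`.  For a list `L = [f_1, …, f_r]` the operators are the sums
`Cl L s = Σ_i c_i Dl (L without i) s`, `Gl L s = Σ_i Dl (L without i) s * pol f_i'`,
`Kl L s = Σ_i Dl (L without i) s * dlt f_i'`, `Hl L s = Σ_{i ≠ j} c_i Dl (L without i, j) s * pol f_j'`,
defined by recursion.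

PLAN.  All statements are inductions on `L` for all `s`, using `D_mul_y`, `D_mul_pol`, `D_mul_el`,
`D_dlt` (Der.lean), `pol_dq`, `pol_comm_el`, `y_mul_el` (Dec.lean) and characteristic two
(`CharTwo.add_self_eq_zero`, `CharTwo.sub_eq_add`; `CharP (T k) 2` by `charP_of_injective_algebraMap`
or get `2 = 0` in `T k` from `(2 : k) = 0`).
`Dl_mul_y`: `D_f (Dl L' s * y + Cl L' s + Gl L' s * l)
   = D_f (Dl L' s) * y + Dl L' s * (c_f + pol f' * l) + D_f (Cl L' s) + D_f (Gl L' s) * l`.
`Cl_mul_y`: the new terms `c_f • Cl L' s` appear twice and cancel.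
`Gl_mul_y`: the new terms `Gl L' s * pol f' * l` appear twice and cancel.
(The mathematical reason: in `k[τ]/(τ_i^2)` the elements `ω = Σ τ_i f_i`, `c = Σ τ_i c_i`,
`ω' = Σ τ_i f_i'` have square zero.)
-/

namespace Pool.Agent.Helper26.FI

open Pool.Agent.Helper71.FreeCore

universe u

variable {k : Type u} [Field k]

/-- `Σ_i c_i Dl (L without i) s`. -/
noncomputable def Cl (a : k) : List (Polynomial k) → T k → T k
  | [], _ => 0
  | f :: L, s => D f (Cl a L s) + f.eval a • Dl L s

/-- `Σ_i Dl (L without i) s * f_i'`. -/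
noncomputable def Gl (a : k) : List (Polynomial k) → T k → T k
  | [], _ => 0
  | f :: L, s => D f (Gl a L s) + Dl L s * pol (dq a f)

/-- `Σ_{i ≠ j} c_i Dl (L without i, j) s * f_j'`. -/
noncomputable def Hl (a : k) : List (Polynomial k) → T k → T k
  | [], _ => 0
  | f :: L, s => D f (Hl a L s) + f.eval a • Gl a L s + Cl a L s * pol (dq a f)

/-- `Σ_i Dl (L without i) s * [y, f_i']`. -/
noncomputable def Kl (a : k) : List (Polynomial k) → T k → T k
  | [], _ => 0
  | f :: L, s => D f (Kl a L s) + Dl L s * dlt (dq a f)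

variable (a : k) (L : List (Polynomial k))

private theorem Dl_cons (f : Polynomial k) (L : List (Polynomial k)) (s : T k) :
    Dl (f :: L) s = D f (Dl L s) := rfl

private theorem mul_pol_eq (f : Polynomial k) (s : T k) :
    s * pol f = f.eval a • s + s * pol (dq a f) * el a := by
  rw [pol_dq a f, mul_add, ← Algebra.commutes, ← Algebra.smul_def, mul_assoc]

theorem Cl_add (s t : T k) : Cl a L (s + t) = Cl a L s + Cl a L t := by
  induction L with
  | nil => simp [Cl]
  | cons f L ih =>
    simp only [Cl, ih, map_add, smul_add]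
    abel

theorem Gl_add (s t : T k) : Gl a L (s + t) = Gl a L s + Gl a L t := by
  induction L with
  | nil => simp [Gl]
  | cons f L ih =>
    simp only [Gl, ih, map_add, add_mul]
    abel

theorem Dl_mul_pol (s : T k) (q : Polynomial k) : Dl L (s * pol q) = Dl L s * pol q := by
  induction L with
  | nil => rfl
  | cons f L ih => rw [Dl_cons, ih, D_mul_pol, Dl_cons]

theorem Dl_mul_el (s : T k) : Dl L (s * el a) = Dl L s * el a := by
  induction L with
  | nil => rfl
  | cons f L ih => rw [Dl_cons, ih, D_mul_el, Dl_cons]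

theorem Cl_mul_el (s : T k) : Cl a L (s * el a) = Cl a L s * el a := by
  induction L with
  | nil => simp [Cl]
  | cons f L ih =>
    simp only [Cl, ih, Dl_mul_el, D_mul_el, add_mul, smul_mul_assoc]

theorem Gl_mul_el (s : T k) : Gl a L (s * el a) = Gl a L s * el a := by
  induction L with
  | nil => simp [Gl]
  | cons f L ih =>
    simp only [Gl, ih, Dl_mul_el, D_mul_el, add_mul]
    rw [mul_assoc (Dl L s), mul_assoc (Dl L s), pol_comm_el]

theorem Dl_mul_y (s : T k) : Dl L (s * y) = Dl L s * y + Cl a L s + Gl a L s * el a := by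
  induction L with
  | nil => simp [Cl, Gl, Dl]
  | cons f L ih =>
    simp only [Cl, Gl, Dl_cons, ih, map_add, D_mul_el, D_mul_y, add_mul]
    rw [mul_pol_eq a f]
    abel

private theorem two_smul_zero [CharP k 2] (s : T k) : s + s = 0 := by
  have h : (2 : k) = 0 := by exact_mod_cast CharP.cast_eq_zero k 2
  rw [← two_smul k s, h, zero_smul]

theorem Cl_mul_y [CharP k 2] (s : T k) : Cl a L (s * y) = Cl a L s * y + Hl a L s * el a := by
  induction L with
  | nil => simp [Cl, Hl]
  | cons f L ih =>
    have h1 := two_smul_zero (f.eval a • Cl a L s)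
    simp only [Cl, Hl, Dl_cons, ih, map_add, D_mul_el, D_mul_y, add_mul, smul_add, Dl_mul_y a,
      smul_mul_assoc]
    rw [mul_pol_eq a f]
    calc _ = (D f (Cl a L s) * y + f.eval a • (Dl L s * y) +
          (D f (Hl a L s) * el a + f.eval a • (Gl a L s * el a) + Cl a L s * pol (dq a f) * el a)) +
          (f.eval a • Cl a L s + f.eval a • Cl a L s) := by abel
      _ = _ := by rw [h1, add_zero]

theorem Gl_mul_y [CharP k 2] (s : T k) :
    Gl a L (s * y) = Gl a L s * y + Kl a L s + Hl a L s := by
  induction L with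
  | nil => simp [Gl, Kl, Hl]
  | cons f L ih =>
    have h1 := two_smul_zero (Gl a L s * pol (dq a f) * el a)
    have h2 : Gl a L s * el a * pol (dq a f) = Gl a L s * pol (dq a f) * el a := by
      rw [mul_assoc, mul_assoc, pol_comm_el]
    have h3 : Dl L s * y * pol (dq a f) = Dl L s * dlt (dq a f) + Dl L s * pol (dq a f) * y := by
      rw [dlt, mul_assoc, mul_assoc, ← mul_add, sub_add_cancel]
    simp only [Gl, Kl, Hl, Dl_cons, ih, map_add, D_mul_el, D_mul_y, add_mul, Dl_mul_y a]
    rw [mul_pol_eq a f, h2, h3]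
    calc _ = (D f (Gl a L s) * y + Dl L s * pol (dq a f) * y +
          (D f (Kl a L s) + Dl L s * dlt (dq a f)) +
          (D f (Hl a L s) + f.eval a • Gl a L s + Cl a L s * pol (dq a f))) +
          (Gl a L s * pol (dq a f) * el a + Gl a L s * pol (dq a f) * el a) := by abel
      _ = _ := by rw [h1, add_zero]

/-- On constants. -/
theorem Dl_const {L : List (Polynomial k)} (hL : L ≠ []) (c : k) :
    Dl L (algebraMap k (T k) c) = 0 := by
  induction L with
  | nil => exact absurd rfl hL
  | cons f L ih =>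
    rw [Dl_cons]
    cases L with
    | nil => exact D_alg f c
    | cons g L' => rw [ih (List.cons_ne_nil _ _), map_zero]

theorem Cl_const (c : k) : ∃ c' : k, Cl a L (algebraMap k (T k) c) = algebraMap k (T k) c' := by
  induction L with
  | nil => exact ⟨0, by rw [map_zero]; rfl⟩
  | cons f L ih =>
    obtain ⟨c', hc'⟩ := ih
    cases L with
    | nil =>
      refine ⟨f.eval a * c, ?_⟩
      simp only [Cl, Dl, map_zero, zero_add, LinearMap.id_apply]
      rw [Algebra.smul_def, map_mul]
    | cons g L' =>
      refine ⟨0, ?_⟩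
      rw [Cl, hc', D_alg, Dl_const (List.cons_ne_nil _ _), smul_zero, add_zero, map_zero]

theorem Gl_const (c : k) : ∃ q : Polynomial k, Gl a L (algebraMap k (T k) c) = pol q := by
  induction L with
  | nil => exact ⟨0, by rw [map_zero]; rfl⟩
  | cons f L ih =>
    obtain ⟨q, hq⟩ := ih
    cases L with
    | nil =>
      refine ⟨c • dq a f, ?_⟩
      simp only [Gl, Dl, map_zero, zero_add, LinearMap.id_apply]
      rw [map_smul, Algebra.smul_def]
    | cons g L' =>
      refine ⟨0, ?_⟩
      rw [Gl, hq, D_pol, Dl_const (List.cons_ne_nil _ _), zero_mul, add_zero, map_zero]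

end Pool.Agent.Helper26.FI
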