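import Pool.Agent.Helper26.FI.ShDefs

/-!
# Operators that lower the weights `x ↦ 1`, `y ↦ m`

PLAN.  `fl (wm m) n` is the span of the monomials `mon l` with `wt (wm m) l < n` (`mon_mem_fl`, `fl_ind`),
`mul_mem_fl`, `mul_mem_fl'`, `mul_mem_fl''`.
* `pol_mem`: `natDegree q ≤ d` implies `pol q ∈ fl (wm m) (d + 1)`.
* `D_mon_mem`: for every list `l` with `wt (wm m) l = N`: `D f (mon l) ∈ fl (wm m) (N - (m - d) + 1)` and
  `D f (mon l) = 0` if `l` has no letter `1`; induction on `l` (`mon_cons`, `D_mul`).  Note that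
  `N ≥ m ≥ m - d` if `l` contains the letter `1`.  A convenient form to prove by induction on `l`:
  for all `n`, `wt l < n + (m - d)` implies `D f (mon l) ∈ fl (wm m) n`.
  (letter `0`: `D f (x * mon l) = x * D f (mon l)`: if `n ≥ 1` use the induction hypothesis for `n - 1` and
  `mul_mem_fl''`; if `n = 0` the hypothesis for `n = 0` says `D f (mon l) ∈ fl 0 = ⊥` (`fl_zero`), or there is no such `l`.
  letter `1`: `D f (y * mon l) = pol f * mon l + y * D f (mon l)`, `wt (1 :: l) = m + wt l < n + m - d` gives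
  `d + wt l < n`, so `pol f * mon l ∈ fl n`; for the second term use `n - m` if `m ≤ n`, and `n = 0`-type argument otherwise:
  `wt l < n + (m - d) - m ≤ 0 + (m - d)` so `D f (mon l) ∈ fl 0 = ⊥`.)
* `Nsh_low`: first `dsh f (mon l) ∈ fl n` if `wt l < n + (m - d)` (same proof; `shh f (mon l) ∈ fl (wt l + 1)`), then
  `Nsh f (a * b) = Nsh f a * b + (dsh f a) * (dsh f b) + a * Nsh f b` with `Nsh f x = 0`, `Nsh f y = 0`,
  `dsh f x = 0`, `dsh f y = pol f`:
  `Nsh f (y * mon l) = pol f * dsh f (mon l) + y * Nsh f (mon l)`.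
* `D_lead`: `D f - D (X^d) = D (f - X^d)` (`D_add`), and `natDegree (f - X^d) ≤ d - 1` (or `f = 1`, `d = 0`:
  the difference is `0`).
-/

namespace Pool.Agent.Helper26.FI

open Pool.Agent.Helper71.FreeCore Pool.Agent.Helper71.FreeApp

universe u

variable {k : Type u} [Field k]

private theorem low_of_mon {m j : ℕ} {A : T k →ₗ[k] T k}
    (h : ∀ (l : List (Fin 2)) (n : ℕ), wt (wm m) l < n + j →
      A (mon l) ∈ (fl (wm m) n : Submodule k (T k))) : Low m j A := by
  intro n t ht
  refine fl_ind (wm m) (p := fun t => A t ∈ (fl (wm m) n : Submodule k (T k))) ht ?_ ?_ ?_ ?_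
  · intro l hl
    exact h l n hl
  · rw [map_zero]; exact Submodule.zero_mem _
  · intro a b ha hb; rw [map_add]; exact Submodule.add_mem _ ha hb
  · intro c a ha; rw [map_smul]; exact Submodule.smul_mem _ _ ha

private theorem step {m w N j : ℕ} {a B : T k} (ha : a ∈ (fl (wm m) (w + 1) : Submodule k (T k)))
    (hB : ∀ n, N < n + j → B ∈ (fl (wm m) n : Submodule k (T k))) (n : ℕ) (hn : w + N < n + j) :
    a * B ∈ (fl (wm m) n : Submodule k (T k)) := by
  rcases le_or_gt w n with h | h
  · obtain ⟨n', rfl⟩ := Nat.exists_eq_add_of_le h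
    exact mul_mem_fl'' (wm m) ha (hB n' (by omega))
  · have h1 := hB 0 (by omega)
    rw [fl_zero, Submodule.mem_bot] at h1
    rw [h1, mul_zero]
    exact Submodule.zero_mem _

private theorem mon_zero (l : List (Fin 2)) : (mon (0 :: l) : T k) = x * mon l := mon_cons _ _

private theorem mon_one (l : List (Fin 2)) : (mon (1 :: l) : T k) = y * mon l := mon_cons _ _

private theorem x_mem (m : ℕ) : (x : T k) ∈ (fl (wm m) (1 + 1) : Submodule k (T k)) := by
  have h1 : (x : T k) = mon [0] := by rw [mon_zero, mon_nil, mul_one]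
  rw [h1]
  refine mon_mem_fl (wm m) ?_
  simp [wt, wm]

private theorem y_mem (m : ℕ) : (y : T k) ∈ (fl (wm m) (m + 1) : Submodule k (T k)) := by
  have h1 : (y : T k) = mon [1] := by rw [mon_one, mon_nil, mul_one]
  rw [h1]
  refine mon_mem_fl (wm m) ?_
  simp [wt, wm]

private theorem one_mem' (m : ℕ) : (1 : T k) ∈ (fl (wm m) (0 + 1) : Submodule k (T k)) := by
  rw [← mon_nil (X := Fin 2)]
  refine mon_mem_fl (wm m) ?_
  simp [wt]

private theorem wt_zero (m : ℕ) (l : List (Fin 2)) : wt (wm m) (0 :: l) = 1 + wt (wm m) l := by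
  rw [wt_cons]; rfl

private theorem wt_one (m : ℕ) (l : List (Fin 2)) : wt (wm m) (1 :: l) = m + wt (wm m) l := by
  rw [wt_cons]; rfl

private theorem xpow_mem (m n : ℕ) : (x ^ n : T k) ∈ (fl (wm m) (n + 1) : Submodule k (T k)) := by
  induction n with
  | zero => rw [pow_zero]; exact one_mem' m
  | succ n ih =>
    rw [pow_succ]
    exact mul_mem_fl (wm m) ih (x_mem m)

private theorem pol_mem (m : ℕ) {d : ℕ} {q : Polynomial k} (hq : q.natDegree ≤ d) :
    (pol q : T k) ∈ (fl (wm m) (d + 1) : Submodule k (T k)) := by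
  have h1 : (pol q : T k) = ∑ i ∈ Finset.range (d + 1), q.coeff i • x ^ i := by
    rw [pol, Polynomial.aeval_eq_sum_range' (Nat.lt_succ_of_le hq)]
  rw [h1]
  refine Submodule.sum_mem _ fun i hi => Submodule.smul_mem _ _ ?_
  refine fl_mono (wm m) ?_ (xpow_mem m i)
  have := Finset.mem_range.mp hi
  omega

private theorem D_one (f : Polynomial k) : D f (1 : T k) = 0 := by
  have h := D_alg f 1
  rwa [map_one] at h

private theorem D_mon_mem {m d : ℕ} (hd : d ≤ m) {f : Polynomial k} (hf : f.natDegree ≤ d)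
    (l : List (Fin 2)) : ∀ n : ℕ, wt (wm m) l < n + (m - d) →
      D f (mon l) ∈ (fl (wm m) n : Submodule k (T k)) := by
  induction l with
  | nil =>
    intro n _
    rw [mon_nil, D_one]
    exact Submodule.zero_mem _
  | cons i l ih =>
    intro n hn
    have hi : i = 0 ∨ i = 1 := by fin_cases i <;> simp
    rcases hi with rfl | rfl
    · rw [wt_zero] at hn
      rw [mon_zero, D_mul, D_x, zero_mul, zero_add]
      exact step (x_mem m) ih n hn
    · rw [wt_one] at hn
      rw [mon_one, D_mul, D_y]
      refine Submodule.add_mem _ ?_ (step (y_mem m) ih n hn)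
      have h1 : (mon l : T k) ∈ (fl (wm m) (n - d) : Submodule k (T k)) :=
        mon_mem_fl (wm m) (by omega)
      have h2 := mul_mem_fl'' (wm m) (pol_mem m hf) h1
      have h3 : d + (n - d) = n := by omega
      rwa [h3] at h2

private theorem shh_x (f : Polynomial k) : shh f x = x := by
  simp [shh, x]

private theorem shh_y (f : Polynomial k) : shh f y = y + pol f := by
  rw [shh, y, FreeAlgebra.lift_ι_apply]
  simp [y]

private theorem dsh_apply (f : Polynomial k) (t : T k) : dsh f t = shh f t - t := rfl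

private theorem shh_apply (f : Polynomial k) (t : T k) : shh f t = t + dsh f t := by
  rw [dsh_apply]; abel

private theorem Nsh_apply (f : Polynomial k) (t : T k) : Nsh f t = dsh f t - D f t := rfl

private theorem dsh_x_mul (f : Polynomial k) (t : T k) : dsh f (x * t) = x * dsh f t := by
  rw [dsh_apply, dsh_apply, map_mul, shh_x, mul_sub]

private theorem dsh_y_mul (f : Polynomial k) (t : T k) :
    dsh f (y * t) = pol f * shh f t + y * dsh f t := by
  rw [dsh_apply, dsh_apply, map_mul, shh_y]
  noncomm_ring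

private theorem Nsh_x_mul (f : Polynomial k) (t : T k) : Nsh f (x * t) = x * Nsh f t := by
  rw [Nsh_apply, Nsh_apply, dsh_x_mul, D_mul, D_x, zero_mul, zero_add, mul_sub]

private theorem Nsh_y_mul (f : Polynomial k) (t : T k) :
    Nsh f (y * t) = pol f * dsh f t + y * Nsh f t := by
  rw [Nsh_apply, Nsh_apply, dsh_y_mul, D_mul, D_y, shh_apply]
  noncomm_ring

private theorem dsh_one (f : Polynomial k) : dsh f (1 : T k) = 0 := by
  rw [dsh_apply, map_one, sub_self]

private theorem dsh_mon_mem {m d : ℕ} (hd : d ≤ m) {f : Polynomial k} (hf : f.natDegree ≤ d)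
    (l : List (Fin 2)) : ∀ n : ℕ, wt (wm m) l < n + (m - d) →
      dsh f (mon l) ∈ (fl (wm m) n : Submodule k (T k)) := by
  induction l with
  | nil =>
    intro n _
    rw [mon_nil, dsh_one]
    exact Submodule.zero_mem _
  | cons i l ih =>
    intro n hn
    have hi : i = 0 ∨ i = 1 := by fin_cases i <;> simp
    rcases hi with rfl | rfl
    · rw [wt_zero] at hn
      rw [mon_zero, dsh_x_mul]
      exact step (x_mem m) ih n hn
    · rw [wt_one] at hn
      rw [mon_one, dsh_y_mul]
      refine Submodule.add_mem _ ?_ (step (y_mem m) ih n hn)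
      have h1 : shh f (mon l : T k) ∈ (fl (wm m) (n - d) : Submodule k (T k)) := by
        rw [shh_apply]
        refine Submodule.add_mem _ (mon_mem_fl (wm m) (by omega)) (ih _ (by omega))
      have h2 := mul_mem_fl'' (wm m) (pol_mem m hf) h1
      have h3 : d + (n - d) = n := by omega
      rwa [h3] at h2

private theorem Nsh_mon_mem {m d : ℕ} (hd : d ≤ m) {f : Polynomial k} (hf : f.natDegree ≤ d)
    (l : List (Fin 2)) : ∀ n : ℕ, wt (wm m) l < n + 2 * (m - d) →
      Nsh f (mon l) ∈ (fl (wm m) n : Submodule k (T k)) := by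
  induction l with
  | nil =>
    intro n _
    rw [mon_nil, Nsh_apply, dsh_one, D_one, sub_zero]
    exact Submodule.zero_mem _
  | cons i l ih =>
    intro n hn
    have hi : i = 0 ∨ i = 1 := by fin_cases i <;> simp
    rcases hi with rfl | rfl
    · rw [wt_zero] at hn
      rw [mon_zero, Nsh_x_mul]
      exact step (x_mem m) ih n hn
    · rw [wt_one] at hn
      rw [mon_one, Nsh_y_mul]
      refine Submodule.add_mem _ ?_ (step (y_mem m) ih n hn)
      exact step (j := m - d) (pol_mem m hf) (dsh_mon_mem hd hf l) n (by omega)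

theorem Low_comp {m i j : ℕ} {A B : T k →ₗ[k] T k} (hA : Low m i A) (hB : Low m j B) :
    Low m (i + j) (A ∘ₗ B) := by
  intro n t ht
  rw [LinearMap.comp_apply]
  refine hA n _ (hB (n + i) t ?_)
  rwa [add_assoc]

theorem Low_add {m j : ℕ} {A B : T k →ₗ[k] T k} (hA : Low m j A) (hB : Low m j B) :
    Low m j (A + B) := by
  intro n t ht
  rw [LinearMap.add_apply]
  exact Submodule.add_mem _ (hA n t ht) (hB n t ht)

theorem Low_mono {m i j : ℕ} (h : i ≤ j) {A : T k →ₗ[k] T k} (hA : Low m j A) : Low m i A := by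
  intro n t ht
  exact hA n t (fl_mono (wm m) (by omega) ht)

theorem D_low {m d : ℕ} (hd : d ≤ m) {f : Polynomial k} (hf : f.natDegree ≤ d) :
    Low m (m - d) (D f) :=
  low_of_mon (D_mon_mem hd hf)

theorem dsh_low {m d : ℕ} (hd : d ≤ m) {f : Polynomial k} (hf : f.natDegree ≤ d) :
    Low m (m - d) (dsh f) :=
  low_of_mon (dsh_mon_mem hd hf)

theorem Nsh_low {m d : ℕ} (hd : d ≤ m) {f : Polynomial k} (hf : f.natDegree ≤ d) :
    Low m (2 * (m - d)) (Nsh f) :=
  low_of_mon (Nsh_mon_mem hd hf)

theorem D_lead {m : ℕ} {f : Polynomial k} (hf : f.Monic) (hd : f.natDegree ≤ m) :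
    Low m (m - f.natDegree + 1) (D f - D (Polynomial.X ^ f.natDegree)) := by
  have h1 : D f - D (Polynomial.X ^ f.natDegree) = D (f - Polynomial.X ^ f.natDegree) := by
    apply LinearMap.ext
    intro t
    rw [LinearMap.sub_apply, sub_eq_iff_eq_add, ← D_add, sub_add_cancel]
  rw [h1]
  rcases Nat.eq_zero_or_pos f.natDegree with h0 | h0
  · have h2 : f = 1 := Polynomial.eq_one_of_monic_natDegree_zero hf h0
    have h3 : f - Polynomial.X ^ f.natDegree = 0 := by
      rw [h0, pow_zero, h2, sub_self]
    rw [h3]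
    intro n t ht
    have h4 : D (0 : Polynomial k) t = 0 := by
      have h5 := D_add (0 : Polynomial k) 0 t
      rw [add_zero] at h5
      exact left_eq_add.mp h5
    rw [h4]
    exact Submodule.zero_mem _
  · have h2 : (f - Polynomial.X ^ f.natDegree).natDegree ≤ f.natDegree - 1 := by
      rcases eq_or_ne (f - Polynomial.X ^ f.natDegree) 0 with h3 | h3
      · rw [h3, Polynomial.natDegree_zero]; omega
      · have h4 : (f - Polynomial.X ^ f.natDegree).degree < f.degree := by
          refine Polynomial.degree_sub_lt ?_ hf.ne_zero ?_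
          · rw [Polynomial.degree_X_pow, Polynomial.degree_eq_natDegree hf.ne_zero]
          · rw [hf.leadingCoeff, (Polynomial.monic_X_pow _).leadingCoeff]
        have h5 := Polynomial.natDegree_lt_natDegree h3 h4
        omega
    have h3 := D_low (m := m) (d := f.natDegree - 1) (by omega) h2
    have h4 : m - (f.natDegree - 1) = m - f.natDegree + 1 := by omega
    rwa [h4] at h3

end Pool.Agent.Helper26.FI
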