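import Pool.Agent.Helper26.FI.Um

/-!
# The decomposition `k⟨x, y⟩ = ⊕ x ^ i · k⟨y, f, [y, x], …, [y, x ^ e]⟩`, `deg f = e + 1`
-/

namespace Pool.Agent.Helper26.FI

open Module Pool.Agent.Helper71.FreeCore Pool.Agent.Helper71.FreeApp

universe u

variable {k : Type u} [Field k]

/-- The letters: `none` for `y`, `some none` for `f`, `some (some a)` for `[y, x ^ (a + 1)]`. -/
abbrev CI (e : ℕ) := Option (Option (Fin e))

/-- The free algebra on these letters. -/
abbrev CC (k : Type u) [Field k] (e : ℕ) := FreeAlgebra k (CI e)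

/-- The left module of coordinates. -/
abbrev VV (k : Type u) [Field k] (e : ℕ) := Fin (e + 1) → CC k e

variable {e : ℕ}

/-- The letter for `y`. -/
noncomputable def gY : CC k e := FreeAlgebra.ι k none

/-- The letter for `f`. -/
noncomputable def gF : CC k e := FreeAlgebra.ι k (some none)

/-- The letter for `[y, x ^ (a + 1)]`. -/
noncomputable def gc (a : Fin e) : CC k e := FreeAlgebra.ι k (some (some a))

/-- The evaluation of the letters. -/
noncomputable def bet (e : ℕ) (f : Polynomial k) : CC k e →ₐ[k] T k :=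
  FreeAlgebra.lift k (fun o : CI e => match o with
    | none => y
    | some none => pol f
    | some (some a) => dlt (Polynomial.X ^ ((a : ℕ) + 1)))

theorem bet_gY (f : Polynomial k) : bet e f gY = y := by
  rw [bet, gY, FreeAlgebra.lift_ι_apply]

theorem bet_gF (f : Polynomial k) : bet e f gF = pol f := by
  rw [bet, gF, FreeAlgebra.lift_ι_apply]

theorem bet_gc (f : Polynomial k) (a : Fin e) :
    bet e f (gc a) = dlt (Polynomial.X ^ ((a : ℕ) + 1)) := by
  rw [bet, gc, FreeAlgebra.lift_ι_apply]

/-- The coordinates of `x * t` from those of `t`. -/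
noncomputable def Xop (f : Polynomial k) : VV k e →ₗ[k] VV k e where
  toFun v := fun i => (Fin.cons (gF * v (Fin.last e)) (fun a : Fin e => v a.castSucc) : VV k e) i -
    f.coeff i • v (Fin.last e)
  map_add' v w := by
    funext i
    refine Fin.cases ?_ (fun a => ?_) i
    · simp only [Fin.cons_zero, Pi.add_apply, mul_add, smul_add]
      abel
    · simp only [Fin.cons_succ, Pi.add_apply, smul_add]
      abel
  map_smul' c v := by
    funext i
    refine Fin.cases ?_ (fun a => ?_) i
    · simp only [Fin.cons_zero, Pi.smul_apply, RingHom.id_apply, mul_smul_comm, smul_sub,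
        smul_comm c]
    · simp only [Fin.cons_succ, Pi.smul_apply, RingHom.id_apply, smul_sub, smul_comm c]

/-- The coordinates of `y * t` from those of `t`. -/
noncomputable def Yop : VV k e →ₗ[k] VV k e where
  toFun v := fun i => gY * v i +
    (Fin.cons (∑ a : Fin e, gc a * v a.succ) (fun _ => 0) : VV k e) i
  map_add' v w := by
    funext i
    refine Fin.cases ?_ (fun a => ?_) i
    · simp only [Fin.cons_zero, Pi.add_apply, mul_add, Finset.sum_add_distrib]
      abel
    · simp only [Fin.cons_succ, Pi.add_apply, mul_add, add_zero]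
  map_smul' c v := by
    funext i
    refine Fin.cases ?_ (fun a => ?_) i
    · simp only [Fin.cons_zero, Pi.smul_apply, RingHom.id_apply, mul_smul_comm, smul_add,
        Finset.smul_sum]
    · simp only [Fin.cons_succ, Pi.smul_apply, RingHom.id_apply, mul_smul_comm, add_zero]

/-- Evaluation of coordinates. -/
noncomputable def MM (f : Polynomial k) : VV k e →ₗ[k] T k where
  toFun v := ∑ i : Fin (e + 1), x ^ (i : ℕ) * bet e f (v i)
  map_add' v w := by
    simp only [Pi.add_apply, map_add, mul_add, Finset.sum_add_distrib]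
  map_smul' c v := by
    simp only [Pi.smul_apply, map_smul, mul_smul_comm, Finset.smul_sum, RingHom.id_apply]

theorem MM_apply (f : Polynomial k) (v : VV k e) :
    MM f v = ∑ i : Fin (e + 1), x ^ (i : ℕ) * bet e f (v i) := rfl

theorem pol_X' : pol (Polynomial.X : Polynomial k) = x := Polynomial.aeval_X _

theorem pol_eq {f : Polynomial k} (hf : f.Monic) (hd : f.natDegree = e + 1) :
    (pol f : T k) = x ^ (e + 1) + ∑ i : Fin (e + 1), f.coeff i • x ^ (i : ℕ) := by
  have h1 : f.coeff (e + 1) = 1 := by
    rw [← hd]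
    exact hf
  rw [pol, Polynomial.aeval_eq_sum_range' (show f.natDegree < e + 2 by omega),
    Finset.sum_range_succ, h1, one_smul, add_comm, ← Fin.sum_univ_eq_sum_range
      (fun i => f.coeff i • (x : T k) ^ i)]

theorem MM_Xop {f : Polynomial k} (hf : f.Monic) (hd : f.natDegree = e + 1) (v : VV k e) :
    MM f (Xop f v) = x * MM f v := by
  have h1 : MM f (Xop f v) =
      ∑ i : Fin (e + 1), x ^ (i : ℕ) * bet e f
        ((Fin.cons (gF * v (Fin.last e)) (fun a : Fin e => v a.castSucc) : VV k e) i) -
      (∑ i : Fin (e + 1), f.coeff i • x ^ (i : ℕ)) * bet e f (v (Fin.last e)) := by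
    rw [MM_apply, Finset.sum_mul, ← Finset.sum_sub_distrib]
    refine Finset.sum_congr rfl (fun i _ => ?_)
    change x ^ (i : ℕ) * bet e f (_ - _) = _
    rw [map_sub, map_smul, mul_sub, mul_smul_comm, smul_mul_assoc]
  have h2 : x * MM f v = ∑ a : Fin e, x ^ ((a : ℕ) + 1) * bet e f (v a.castSucc) +
      x ^ (e + 1) * bet e f (v (Fin.last e)) := by
    rw [MM_apply, Finset.mul_sum, Fin.sum_univ_castSucc]
    simp only [Fin.val_castSucc, Fin.val_last, ← mul_assoc, ← pow_succ']
  rw [h1, h2, Fin.sum_univ_succ]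
  simp only [Fin.cons_zero, Fin.cons_succ]
  rw [map_mul, bet_gF, pol_eq hf hd]
  simp only [Fin.val_zero, pow_zero, one_mul, Fin.val_succ]
  rw [add_mul]
  abel

theorem MM_Yop (f : Polynomial k) (v : VV k e) : MM f (Yop v) = y * MM f v := by
  have h1 : MM f (Yop v) = ∑ i : Fin (e + 1), x ^ (i : ℕ) * (y * bet e f (v i)) +
      ∑ i : Fin (e + 1), x ^ (i : ℕ) * bet e f
        ((Fin.cons (∑ a : Fin e, gc a * v a.succ) (fun _ => 0) : VV k e) i) := by
    rw [MM_apply, ← Finset.sum_add_distrib]
    refine Finset.sum_congr rfl (fun i _ => ?_)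
    change x ^ (i : ℕ) * bet e f (_ + _) = _
    rw [map_add, map_mul, bet_gY, mul_add]
  rw [h1, Fin.sum_univ_succ, Fin.sum_univ_succ]
  simp only [Fin.cons_zero, Fin.cons_succ, map_zero, mul_zero, Finset.sum_const_zero, add_zero,
    Fin.val_zero, pow_zero, one_mul, map_sum, map_mul, bet_gc]
  rw [MM_apply, Finset.mul_sum, Fin.sum_univ_succ, add_assoc, ← Finset.sum_add_distrib]
  simp only [Fin.val_zero, pow_zero, one_mul]
  congr 1
  refine Finset.sum_congr rfl (fun a _ => ?_)
  rw [dlt, map_pow, pol_X', Fin.val_succ]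
  noncomm_ring

/-- The left action of `T` on coordinates. -/
noncomputable def rep (f : Polynomial k) : T k →ₐ[k] Module.End k (VV k e) :=
  FreeAlgebra.lift k (fun i : Fin 2 => if i = 0 then Xop f else Yop)

theorem rep_x (f : Polynomial k) : (rep f x : Module.End k (VV k e)) = Xop f := by
  rw [rep, x, FreeAlgebra.lift_ι_apply, if_pos rfl]

theorem rep_y (f : Polynomial k) : (rep f y : Module.End k (VV k e)) = Yop := by
  rw [rep, y, FreeAlgebra.lift_ι_apply, if_neg (by decide)]

theorem MM_rep {f : Polynomial k} (hf : f.Monic) (hd : f.natDegree = e + 1) (t : T k) :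
    ∀ v : VV k e, MM f (rep f t v) = t * MM f v := by
  refine FreeAlgebra.induction k (Fin 2)
    (motive := fun t => ∀ v : VV k e, MM f (rep f t v) = t * MM f v) ?_ ?_ ?_ ?_ t
  · intro c v
    rw [AlgHom.commutes, Module.algebraMap_end_apply, map_smul, Algebra.smul_def]
  · intro i v
    fin_cases i
    · change MM f (rep f x v) = x * MM f v
      rw [rep_x, MM_Xop hf hd]
    · change MM f (rep f y v) = y * MM f v
      rw [rep_y, MM_Yop]
  · intro a b ha hb v
    rw [map_mul, Module.End.mul_apply, ha, hb, mul_assoc]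
  · intro a b ha hb v
    rw [map_add, LinearMap.add_apply, map_add, ha, hb, add_mul]

/-- The coordinates of an element. -/
noncomputable def NN (f : Polynomial k) (t : T k) : VV k e := rep f t (Pi.single 0 1)

theorem MM_single (f : Polynomial k) (i : Fin (e + 1)) (w : CC k e) :
    MM f (Pi.single i w) = x ^ (i : ℕ) * bet e f w := by
  rw [MM_apply, Finset.sum_eq_single i]
  · rw [Pi.single_eq_same]
  · intro j _ hj
    rw [Pi.single_eq_of_ne hj, map_zero, mul_zero]
  · intro h
    exact absurd (Finset.mem_univ i) h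

theorem MM_NN {f : Polynomial k} (hf : f.Monic) (hd : f.natDegree = e + 1) (t : T k) :
    MM f (NN f t : VV k e) = t := by
  rw [NN, MM_rep hf hd, MM_single, map_one, Fin.val_zero, pow_zero, mul_one, mul_one]

theorem Xop_single (f : Polynomial k) (i : ℕ) (hi : i < e) (w : CC k e) :
    Xop f (Pi.single (⟨i, by omega⟩ : Fin (e + 1)) w) =
      (Pi.single (⟨i + 1, by omega⟩ : Fin (e + 1)) w : VV k e) := by
  have h0 : (Pi.single (⟨i, by omega⟩ : Fin (e + 1)) w : VV k e) (Fin.last e) = 0 := by
    apply Pi.single_eq_of_ne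
    intro h
    have := congrArg Fin.val h
    simp at this
    omega
  funext j
  change (Fin.cons _ _ : VV k e) j - _ = _
  rw [h0, smul_zero, sub_zero, mul_zero]
  refine Fin.cases ?_ (fun a => ?_) j
  · rw [Fin.cons_zero, Pi.single_eq_of_ne]
    intro h
    have := congrArg Fin.val h
    simp at this
  · rw [Fin.cons_succ]
    by_cases h : (a : ℕ) = i
    · have h1 : a.castSucc = (⟨i, by omega⟩ : Fin (e + 1)) := Fin.ext h
      have h2 : a.succ = (⟨i + 1, by omega⟩ : Fin (e + 1)) := Fin.ext (by simp [h])
      rw [h1, h2, Pi.single_eq_same, Pi.single_eq_same]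
    · rw [Pi.single_eq_of_ne, Pi.single_eq_of_ne]
      · intro h1
        have := congrArg Fin.val h1
        simp at this
        omega
      · intro h1
        have := congrArg Fin.val h1
        simp at this
        omega

theorem Xop_pow_single (f : Polynomial k) (i : ℕ) (hi : i < e + 1) (w : CC k e) :
    (Xop f ^ i : Module.End k (VV k e)) (Pi.single 0 w) =
      (Pi.single (⟨i, hi⟩ : Fin (e + 1)) w : VV k e) := by
  induction i with
  | zero =>
    rw [pow_zero, Module.End.one_apply]
    rfl
  | succ i ih =>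
    rw [pow_succ', Module.End.mul_apply, ih (by omega), Xop_single f i (by omega)]

theorem rep_pol {f : Polynomial k} (hf : f.Monic) (hd : f.natDegree = e + 1) (w : CC k e) :
    rep f (pol f) (Pi.single 0 w) = (Pi.single 0 (gF * w) : VV k e) := by
  rw [pol_eq hf hd, map_add, LinearMap.add_apply, map_pow, rep_x, pow_succ', Module.End.mul_apply,
    Xop_pow_single f e (by omega), map_sum, LinearMap.sum_apply]
  have h1 : ∀ i : Fin (e + 1), rep f (f.coeff i • x ^ (i : ℕ)) (Pi.single 0 w) =
      (Pi.single i (f.coeff i • w) : VV k e) := by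
    intro i
    rw [map_smul, map_pow, rep_x, LinearMap.smul_apply, Xop_pow_single f i i.2, ← Pi.single_smul]
  rw [Finset.sum_congr rfl (fun i _ => h1 i), Finset.univ_sum_single]
  have h2 : (⟨e, by omega⟩ : Fin (e + 1)) = Fin.last e := rfl
  rw [h2]
  funext j
  rw [Pi.add_apply]
  change (Fin.cons _ _ : VV k e) j - _ + _ = _
  rw [Pi.single_eq_same, sub_add_cancel]
  refine Fin.cases ?_ (fun a => ?_) j
  · rw [Fin.cons_zero, Pi.single_eq_same]
  · rw [Fin.cons_succ, Pi.single_eq_of_ne, Pi.single_eq_of_ne]
    · exact Fin.succ_ne_zero a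
    · intro h
      have := congrArg Fin.val h
      simp at this
      omega

theorem Yop_single_zero (w : CC k e) :
    Yop (Pi.single 0 w) = (Pi.single 0 (gY * w) : VV k e) := by
  funext j
  change gY * (Pi.single 0 w : VV k e) j + (Fin.cons _ _ : VV k e) j = _
  have h0 : ∑ a : Fin e, gc a * (Pi.single 0 w : VV k e) a.succ = 0 := by
    refine Finset.sum_eq_zero (fun a _ => ?_)
    rw [Pi.single_eq_of_ne (Fin.succ_ne_zero a), mul_zero]
  rw [h0]
  refine Fin.cases ?_ (fun a => ?_) j
  · rw [Fin.cons_zero, Pi.single_eq_same, Pi.single_eq_same, add_zero]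
  · rw [Fin.cons_succ, Pi.single_eq_of_ne (Fin.succ_ne_zero a),
      Pi.single_eq_of_ne (Fin.succ_ne_zero a), mul_zero, add_zero]

theorem Yop_single_succ (a : Fin e) (w : CC k e) :
    Yop (Pi.single a.succ w) =
      (Pi.single a.succ (gY * w) + Pi.single 0 (gc a * w) : VV k e) := by
  funext j
  change gY * (Pi.single a.succ w : VV k e) j + (Fin.cons _ _ : VV k e) j = _
  have h0 : ∑ b : Fin e, gc b * (Pi.single a.succ w : VV k e) b.succ = gc a * w := by
    rw [Finset.sum_eq_single a]
    · rw [Pi.single_eq_same]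
    · intro b _ hb
      rw [Pi.single_eq_of_ne, mul_zero]
      intro h
      exact hb (Fin.succ_injective e h)
    · intro h
      exact absurd (Finset.mem_univ a) h
  rw [h0, Pi.add_apply]
  refine Fin.cases ?_ (fun b => ?_) j
  · rw [Fin.cons_zero, Pi.single_eq_same, Pi.single_eq_of_ne (Fin.succ_ne_zero a).symm,
      Pi.single_eq_of_ne (Fin.succ_ne_zero a).symm, mul_zero]
  · rw [Fin.cons_succ, Pi.single_eq_of_ne (Fin.succ_ne_zero b)]
    by_cases h : b = a
    · subst h
      rw [Pi.single_eq_same, Pi.single_eq_same]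
    · have h1 : b.succ ≠ a.succ := fun h1 => h (Fin.succ_injective e h1)
      rw [Pi.single_eq_of_ne h1, Pi.single_eq_of_ne h1, mul_zero]

theorem rep_dlt (f : Polynomial k) (a : Fin e) (w : CC k e) :
    rep f (dlt (Polynomial.X ^ ((a : ℕ) + 1))) (Pi.single 0 w) =
      (Pi.single 0 (gc a * w) : VV k e) := by
  have h2 : (⟨(a : ℕ) + 1, by omega⟩ : Fin (e + 1)) = a.succ := rfl
  rw [dlt, map_pow, pol_X', map_sub, map_mul, map_mul, map_pow, rep_x, rep_y,
    LinearMap.sub_apply, Module.End.mul_apply, Module.End.mul_apply,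
    Xop_pow_single f ((a : ℕ) + 1) (by omega), Yop_single_zero,
    Xop_pow_single f ((a : ℕ) + 1) (by omega), h2, Yop_single_succ, add_sub_cancel_left]

theorem rep_bet {f : Polynomial k} (hf : f.Monic) (hd : f.natDegree = e + 1) (w : CC k e) :
    ∀ w' : CC k e, rep f (bet e f w) (Pi.single 0 w') = (Pi.single 0 (w * w') : VV k e) := by
  refine FreeAlgebra.induction k (CI e) (motive := fun w => ∀ w' : CC k e,
    rep f (bet e f w) (Pi.single 0 w') = (Pi.single 0 (w * w') : VV k e)) ?_ ?_ ?_ ?_ w
  · intro c w'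
    rw [AlgHom.commutes, AlgHom.commutes, Module.algebraMap_end_apply, ← Algebra.smul_def,
      Pi.single_smul]
  · intro o w'
    rcases o with _ | _ | a
    · change rep f (bet e f gY) (Pi.single 0 w') = Pi.single 0 (gY * w')
      rw [bet_gY, rep_y, Yop_single_zero]
    · change rep f (bet e f gF) (Pi.single 0 w') = Pi.single 0 (gF * w')
      rw [bet_gF, rep_pol hf hd]
    · change rep f (bet e f (gc a)) (Pi.single 0 w') = Pi.single 0 (gc a * w')
      rw [bet_gc, rep_dlt]
  · intro a b ha hb w'
    rw [map_mul, map_mul, Module.End.mul_apply, hb, ha, mul_assoc]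
  · intro a b ha hb w'
    rw [map_add, map_add, LinearMap.add_apply, ha, hb, add_mul, Pi.single_add]

theorem NN_MM {f : Polynomial k} (hf : f.Monic) (hd : f.natDegree = e + 1) (v : VV k e) :
    NN f (MM f v) = v := by
  rw [NN, MM_apply, map_sum, LinearMap.sum_apply]
  have h1 : ∀ i : Fin (e + 1), rep f (x ^ (i : ℕ) * bet e f (v i)) (Pi.single 0 1) =
      (Pi.single i (v i) : VV k e) := by
    intro i
    rw [map_mul, Module.End.mul_apply, rep_bet hf hd, mul_one, map_pow, rep_x,
      Xop_pow_single f i i.2]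
  rw [Finset.sum_congr rfl (fun i _ => h1 i), Finset.univ_sum_single]

/-- The derivation of a word: `y ↦ f`, the other letters are killed. -/
noncomputable def dlw : List (CI e) → CC k e
  | [] => 0
  | o :: l => (if o = none then gF * mon l else 0) + FreeAlgebra.ι k o * dlw l

/-- The derivation with `y ↦ f`. -/
noncomputable def dl : CC k e →ₗ[k] CC k e := bs.constr k dlw

theorem dl_mon (l : List (CI e)) : dl (mon l : CC k e) = dlw l := by
  rw [← bs_apply, dl, Basis.constr_basis]

theorem D_bet (f : Polynomial k) (w : CC k e) : D f (bet e f w) = bet e f (dl w) := by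
  refine mon_ind (p := fun w : CC k e => D f (bet e f w) = bet e f (dl w)) w ?_ ?_ ?_ ?_
  · intro l
    rw [dl_mon]
    induction l with
    | nil =>
      rw [mon_nil, map_one, ← map_one (algebraMap k (T k)), D_alg]
      change 0 = bet e f 0
      rw [map_zero]
    | cons o l ih =>
      rw [mon_cons, map_mul, D_mul, ih, dlw, map_add, map_mul]
      congr 1
      rcases o with _ | _ | a
      · change D f (bet e f gY) * _ = _
        rw [bet_gY, D_y, if_pos rfl, map_mul, bet_gF]
      · change D f (bet e f gF) * _ = _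
        rw [bet_gF, D_pol, zero_mul, if_neg (by simp), map_zero]
      · change D f (bet e f (gc a)) * _ = _
        rw [bet_gc, D_dlt, zero_mul, if_neg (by simp), map_zero]
  · rw [map_zero, map_zero, map_zero, map_zero]
  · intro a b ha hb
    rw [map_add, map_add, ha, hb, map_add, map_add]
  · intro c a ha
    rw [map_smul, map_smul, ha, map_smul, map_smul]

theorem D_MM (f : Polynomial k) (v : VV k e) : D f (MM f v) = MM f (fun i => dl (v i)) := by
  rw [MM_apply, MM_apply, map_sum]
  refine Finset.sum_congr rfl (fun i _ => ?_)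
  have h1 : (x ^ (i : ℕ) : T k) = pol (Polynomial.X ^ (i : ℕ)) := by rw [map_pow, pol_X']
  rw [h1, D_pol_mul, D_bet]

end Pool.Agent.Helper26.FI
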