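import Pool.Agent.Helper26.FI.LeadB

/-!
# `FW L` is right closed (characteristic two)
-/

namespace Pool.Agent.Helper26.FI

open Pool.Agent.Helper71.FreeCore Pool.Agent.Helper71.FreeCrit Pool.Agent.Helper71.FreeApp

universe u

variable {k : Type u} [Field k]

/-- The leading components are the common kernel of derivations, hence right closed. -/
theorem RC_of_derivations (w : Fin 2 → ℕ) (S : Subalgebra k (T k)) (M : List (Polynomial k))
    (h1 : ∀ n, ∀ z ∈ lead w S n, z ∈ TV M)
    (h2 : ∀ n, ∀ z ∈ (hm w n : Submodule k (T k)), z ∈ TV M → z ∈ lead w S n) : RC w S := by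
  intro I l d hl hld t n f hf hsum i hi
  refine h2 _ _ (hf i hi).2 (fun g hg => ?_)
  have h3 : ∑ i ∈ t, l i * D g (f i) = 0 := by
    have h4 := h1 n _ hsum g hg
    rw [map_sum] at h4
    refine Eq.trans (Finset.sum_congr rfl (fun j _ => ?_)) h4
    rw [D_mul, h1 _ _ (hld j) g hg, zero_mul, zero_add]
  exact hl t _ h3 i hi

theorem natDegree_span_le {d : ℕ} {L : List (Polynomial k)} (hL : ∀ f ∈ L, f.natDegree ≤ d)
    {e : Polynomial k} (he : e ∈ Submodule.span k {f : Polynomial k | f ∈ L}) :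
    e.natDegree ≤ d := by
  refine Submodule.span_induction (p := fun e _ => e.natDegree ≤ d) ?_ ?_ ?_ ?_ he
  · intro f hf
    exact hL f hf
  · simp
  · intro a b _ _ ha hb
    exact (Polynomial.natDegree_add_le a b).trans (max_le ha hb)
  · intro c a _ ha
    exact (Polynomial.natDegree_smul_le c a).trans ha

theorem RC_FW [CharP k 2] {m d : ℕ} (L : List (Polynomial k)) (hLI : LI L)
    (hmd : (L.length + 1) * d + 1 ≤ m) (hmd' : 2 * d < m) (hL : ∀ f ∈ L, f.natDegree ≤ d) :
    RC (wm m) (FW L) := by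
  obtain ⟨E, c, hc, hE1, hE2, hE4, hE5⟩ := exists_ech L hLI
  have hE3 : ∀ e ∈ E, e.natDegree ≤ d := fun e he => natDegree_span_le hL (hE2 e he).2
  refine RC_of_derivations (wm m) (FW L)
    (E.map (fun e => (Polynomial.X : Polynomial k) ^ e.natDegree)) ?_ ?_
  · intro n z hz g hg
    obtain ⟨e, he, rfl⟩ := List.mem_map.1 hg
    exact lead_sub hmd' hL (hE2 e he).1 (hE2 e he).2 (hE3 e he) hz
  · intro n z hz hz'
    exact lead_sup hmd hL hc hE1 (fun e he => (hE2 e he).1) hE3 hE4 hE5 hz hz'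

end Pool.Agent.Helper26.FI
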