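import Pool.Agent.Helper26.FI.Psi
import Pool.Agent.Helper26.FI.RCW

/-!
# The kernel of `D f` and the kernel of its leading part (every characteristic)
-/

namespace Pool.Agent.Helper26.FI

open Module Pool.Agent.Helper71.FreeCore Pool.Agent.Helper71.FreeCrit Pool.Agent.Helper71.FreeApp

universe u

variable {k : Type u} [Field k] {e : ℕ}

/-- The weights of the letters. -/
def wC (m e : ℕ) : CI e → ℕ
  | none => m
  | some none => e + 1
  | some (some a) => m + ((a : ℕ) + 1)

/-- Coordinates of elements of weight `< n`. -/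
def FV (m n : ℕ) (v : VV k e) : Prop :=
  ∀ i : Fin (e + 1), v i ∈ (fl (wC m e) (n - (i : ℕ)) : Submodule k (CC k e))

private theorem mon_zero (l : List (Fin 2)) : (mon (0 :: l) : T k) = x * mon l := mon_cons _ _

private theorem mon_one (l : List (Fin 2)) : (mon (1 :: l) : T k) = y * mon l := mon_cons _ _

private theorem y_mem (m : ℕ) : (y : T k) ∈ (fl (wm m) (m + 1) : Submodule k (T k)) := by
  have h1 : (y : T k) = mon [1] := by rw [mon_one, mon_nil, mul_one]
  rw [h1]
  refine mon_mem_fl (wm m) ?_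
  simp [wt, wm]

theorem iota_mem (m : ℕ) (o : CI e) :
    (FreeAlgebra.ι k o : CC k e) ∈ (fl (wC m e) (wC m e o + 1) : Submodule k (CC k e)) := by
  have h1 : (FreeAlgebra.ι k o : CC k e) = mon [o] := by rw [mon_cons, mon_nil, mul_one]
  rw [h1]
  refine mon_mem_fl _ ?_
  rw [wt_cons, wt_nil]
  omega

theorem smul_fl {a : CC k e} {m A N M : ℕ} (ha : a ∈ (fl (wC m e) (A + 1) : Submodule k (CC k e)))
    {b : CC k e} (hb : b ∈ (fl (wC m e) N : Submodule k (CC k e))) (h : 0 < N → A + N ≤ M) :
    a * b ∈ (fl (wC m e) M : Submodule k (CC k e)) := by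
  rcases Nat.eq_zero_or_pos N with h0 | h0
  · subst h0
    rw [fl_zero, Submodule.mem_bot] at hb
    rw [hb, mul_zero]
    exact Submodule.zero_mem _
  · exact fl_mono _ (h h0) (mul_mem_fl'' _ ha hb)

theorem FV_single (m : ℕ) : FV m 1 (Pi.single 0 1 : VV k e) := by
  intro i
  refine Fin.cases ?_ (fun a => ?_) i
  · rw [Pi.single_eq_same, ← mon_nil (X := CI e)]
    refine mon_mem_fl _ ?_
    rw [wt_nil, Fin.val_zero]
    omega
  · rw [Pi.single_eq_of_ne (Fin.succ_ne_zero a)]
    exact Submodule.zero_mem _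

theorem FV_Xop {m n : ℕ} {v : VV k e} (hv : FV m n v) :
    FV m (n + 1) (Xop (Polynomial.X ^ (e + 1)) v) := by
  intro i
  change (Fin.cons _ _ : VV k e) i - _ ∈ _
  rw [Polynomial.coeff_X_pow, if_neg (by omega), zero_smul, sub_zero]
  refine Fin.cases ?_ (fun a => ?_) i
  · rw [Fin.cons_zero]
    refine smul_fl (A := e + 1) (iota_mem m (some none)) (hv (Fin.last e)) ?_
    rw [Fin.val_last, Fin.val_zero]
    omega
  · rw [Fin.cons_succ]
    refine fl_mono _ ?_ (hv a.castSucc)
    rw [Fin.val_castSucc, Fin.val_succ]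
    omega

theorem FV_Yop {m n : ℕ} {v : VV k e} (hv : FV m n v) : FV m (n + m) (Yop v) := by
  intro i
  change gY * v i + (Fin.cons _ _ : VV k e) i ∈ _
  refine Submodule.add_mem _ ?_ ?_
  · refine smul_fl (A := m) (iota_mem m none) (hv i) ?_
    omega
  · refine Fin.cases ?_ (fun a => ?_) i
    · rw [Fin.cons_zero]
      refine Submodule.sum_mem _ (fun a _ => ?_)
      refine smul_fl (A := m + ((a : ℕ) + 1)) (iota_mem m (some (some a))) (hv a.succ) ?_
      rw [Fin.val_succ, Fin.val_zero]
      omega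
    · rw [Fin.cons_succ]
      exact Submodule.zero_mem _

theorem FV_NN {m n : ℕ} {t : T k} (ht : t ∈ (fl (wm m) n : Submodule k (T k))) :
    FV m n (NN (Polynomial.X ^ (e + 1)) t : VV k e) := by
  refine fl_ind (wm m) (p := fun t => FV m n (NN (Polynomial.X ^ (e + 1)) t : VV k e))
    ht ?_ ?_ ?_ ?_
  · intro l hl
    have key : ∀ l : List (Fin 2),
        FV m (wt (wm m) l + 1) (NN (Polynomial.X ^ (e + 1)) (mon l) : VV k e) := by
      intro l
      induction l with
      | nil =>
        rw [mon_nil, NN, map_one, Module.End.one_apply, wt_nil]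
        exact FV_single m
      | cons i l ih =>
        fin_cases i
        · change FV m (wt (wm m) (0 :: l) + 1)
            (NN (Polynomial.X ^ (e + 1)) (mon (0 :: l)) : VV k e)
          rw [mon_zero, NN, map_mul, Module.End.mul_apply, rep_x, wt_cons]
          have h1 := FV_Xop ih
          have h2 : wm m 0 + wt (wm m) l + 1 = wt (wm m) l + 1 + 1 := by
            change 1 + wt (wm m) l + 1 = _
            omega
          rw [h2]
          exact h1
        · change FV m (wt (wm m) (1 :: l) + 1)
            (NN (Polynomial.X ^ (e + 1)) (mon (1 :: l)) : VV k e)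
          rw [mon_one, NN, map_mul, Module.End.mul_apply, rep_y, wt_cons]
          have h1 := FV_Yop ih
          have h2 : wm m 1 + wt (wm m) l + 1 = wt (wm m) l + 1 + m := by
            change m + wt (wm m) l + 1 = _
            omega
          rw [h2]
          exact h1
    intro i
    exact fl_mono _ (by omega) (key l i)
  · intro i
    rw [NN, map_zero, LinearMap.zero_apply, Pi.zero_apply]
    exact Submodule.zero_mem _
  · intro a b ha hb i
    have h1 : (NN (Polynomial.X ^ (e + 1)) (a + b) : VV k e) i =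
        NN (Polynomial.X ^ (e + 1)) a i + NN (Polynomial.X ^ (e + 1)) b i := by
      rw [NN, map_add]
      rfl
    rw [h1]
    exact Submodule.add_mem _ (ha i) (hb i)
  · intro c a ha i
    have h1 : (NN (Polynomial.X ^ (e + 1)) (c • a) : VV k e) i =
        c • NN (Polynomial.X ^ (e + 1)) a i := by
      rw [NN, map_smul]
      rfl
    rw [h1]
    exact Submodule.smul_mem _ _ (ha i)

theorem bet_ι_mem {m : ℕ} {f : Polynomial k} (hd : f.natDegree = e + 1) (o : CI e) :
    bet e f (FreeAlgebra.ι k o) ∈ (fl (wm m) (wC m e o + 1) : Submodule k (T k)) := by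
  rcases o with _ | _ | a
  · change bet e f gY ∈ (fl (wm m) (m + 1) : Submodule k (T k))
    rw [bet_gY]
    exact y_mem m
  · change bet e f gF ∈ (fl (wm m) (e + 1 + 1) : Submodule k (T k))
    rw [bet_gF]
    exact pol_mem' m (by omega)
  · change bet e f (gc a) ∈ (fl (wm m) (m + ((a : ℕ) + 1) + 1) : Submodule k (T k))
    rw [bet_gc, dlt, map_pow, pol_X']
    refine Submodule.sub_mem _ ?_ ?_
    · exact mul_mem_fl (wm m) (y_mem m) (xpow_mem' m _)
    · have h1 := mul_mem_fl (wm m) (xpow_mem' (k := k) m ((a : ℕ) + 1)) (y_mem m)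
      exact fl_mono (wm m) (by omega) h1

theorem bet_ι_sub {m : ℕ} {f : Polynomial k} (hf : f.Monic) (hd : f.natDegree = e + 1)
    (o : CI e) : bet e f (FreeAlgebra.ι k o) - bet e (Polynomial.X ^ (e + 1)) (FreeAlgebra.ι k o) ∈
      (fl (wm m) (wC m e o) : Submodule k (T k)) := by
  rcases o with _ | _ | a
  · change bet e f gY - bet e (Polynomial.X ^ (e + 1)) gY ∈ _
    rw [bet_gY, bet_gY, sub_self]
    exact Submodule.zero_mem _
  · change bet e f gF - bet e (Polynomial.X ^ (e + 1)) gF ∈
      (fl (wm m) (e + 1) : Submodule k (T k))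
    rw [bet_gF, bet_gF, ← map_sub]
    refine pol_mem' m ?_
    have h1 : f.degree = (Polynomial.X ^ (e + 1) : Polynomial k).degree := by
      rw [Polynomial.degree_X_pow, Polynomial.degree_eq_natDegree hf.ne_zero, hd]
    have h2 := Polynomial.degree_sub_lt_left h1 hf.ne_zero
      (by rw [hf.leadingCoeff, Polynomial.leadingCoeff_X_pow])
    by_cases h3 : f - Polynomial.X ^ (e + 1) = 0
    · rw [h3, Polynomial.natDegree_zero]
      omega
    · have h4 := Polynomial.natDegree_lt_natDegree h3 h2
      rwa [hd] at h4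
  · change bet e f (gc a) - bet e (Polynomial.X ^ (e + 1)) (gc a) ∈ _
    rw [bet_gc, bet_gc, sub_self]
    exact Submodule.zero_mem _

theorem bet_mem {m n : ℕ} {f : Polynomial k} (hf : f.Monic) (hd : f.natDegree = e + 1)
    {w : CC k e} (hw : w ∈ (fl (wC m e) (n + 1) : Submodule k (CC k e))) :
    bet e f w - bet e (Polynomial.X ^ (e + 1)) w ∈ (fl (wm m) n : Submodule k (T k)) := by
  refine fl_ind (wC m e) (p := fun w => bet e f w - bet e (Polynomial.X ^ (e + 1)) w ∈
    (fl (wm m) n : Submodule k (T k))) hw ?_ ?_ ?_ ?_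
  · intro l hl
    have key : ∀ l : List (CI e),
        bet e f (mon l) ∈ (fl (wm m) (wt (wC m e) l + 1) : Submodule k (T k)) ∧
        bet e f (mon l) - bet e (Polynomial.X ^ (e + 1)) (mon l) ∈
          (fl (wm m) (wt (wC m e) l) : Submodule k (T k)) := by
      intro l
      induction l with
      | nil =>
        rw [mon_nil, map_one, map_one, sub_self, wt_nil]
        refine ⟨?_, Submodule.zero_mem _⟩
        have h1 := xpow_mem' (k := k) m 0
        rwa [pow_zero] at h1
      | cons o l ih =>
        rw [mon_cons, map_mul, map_mul, wt_cons]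
        refine ⟨mul_mem_fl (wm m) (bet_ι_mem hd o) ih.1, ?_⟩
        have h1 : ∀ A B C E : T k, A * B - C * E = (A - C) * B + C * (B - E) := by
          intro A B C E
          noncomm_ring
        rw [h1]
        refine Submodule.add_mem _ (mul_mem_fl' (wm m) (bet_ι_sub hf hd o) ih.1) ?_
        exact mul_mem_fl'' (wm m) (bet_ι_mem (by rw [Polynomial.natDegree_X_pow]) o) ih.2
    exact fl_mono _ (by omega) (key l).2
  · rw [map_zero, map_zero, sub_zero]
    exact Submodule.zero_mem _
  · intro a b ha hb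
    have h1 : bet e f (a + b) - bet e (Polynomial.X ^ (e + 1)) (a + b) =
        (bet e f a - bet e (Polynomial.X ^ (e + 1)) a) +
        (bet e f b - bet e (Polynomial.X ^ (e + 1)) b) := by
      rw [map_add, map_add]
      abel
    rw [h1]
    exact Submodule.add_mem _ ha hb
  · intro c a ha
    rw [map_smul, map_smul, ← smul_sub]
    exact Submodule.smul_mem _ _ ha

theorem MM_sub {m n : ℕ} {f : Polynomial k} (hf : f.Monic) (hd : f.natDegree = e + 1)
    {v : VV k e} (hv : FV m (n + 1) v) :
    MM f v - MM (Polynomial.X ^ (e + 1)) v ∈ (fl (wm m) n : Submodule k (T k)) := by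
  rw [MM_apply, MM_apply, ← Finset.sum_sub_distrib]
  refine Submodule.sum_mem _ (fun i _ => ?_)
  rw [← mul_sub]
  rcases le_or_gt (i : ℕ) n with h | h
  · obtain ⟨n', rfl⟩ := Nat.exists_eq_add_of_le h
    have h1 : v i ∈ (fl (wC m e) (n' + 1) : Submodule k (CC k e)) := by
      have h2 := hv i
      rwa [show (i : ℕ) + n' + 1 - i = n' + 1 by omega] at h2
    exact mul_mem_fl'' (wm m) (xpow_mem' m i) (bet_mem hf hd h1)
  · have h2 := hv i
    rw [show n + 1 - (i : ℕ) = 0 by omega, fl_zero, Submodule.mem_bot] at h2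
    rw [h2, map_zero, map_zero, sub_zero, mul_zero]
    exact Submodule.zero_mem _

/-- Every element of the kernel of `D (X ^ deg f)` is the leading part of an element of the
kernel of `D f`. -/
theorem exists_ker {m n : ℕ} {f : Polynomial k} (hf : f.Monic) {z : T k}
    (hz : z ∈ (fl (wm m) (n + 1) : Submodule k (T k)))
    (h : D (Polynomial.X ^ f.natDegree : Polynomial k) z = 0) :
    ∃ z' : T k, D f z' = 0 ∧ z' - z ∈ (fl (wm m) n : Submodule k (T k)) := by
  rcases Nat.eq_zero_or_pos f.natDegree with h0 | h0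
  · have h1 : f = 1 := by
      rw [Polynomial.eq_C_of_natDegree_eq_zero h0]
      have h2 : f.coeff 0 = 1 := by
        have h3 := hf.leadingCoeff
        rwa [Polynomial.leadingCoeff, h0] at h3
      rw [h2, Polynomial.C_1]
    rw [h0, pow_zero] at h
    exact ⟨z, by rw [h1]; exact h, by rw [sub_self]; exact Submodule.zero_mem _⟩
  · obtain ⟨e, he⟩ : ∃ e, f.natDegree = e + 1 := ⟨f.natDegree - 1, by omega⟩
    rw [he] at h
    have hX : (Polynomial.X ^ (e + 1) : Polynomial k).Monic := Polynomial.monic_X_pow _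
    have hXd : (Polynomial.X ^ (e + 1) : Polynomial k).natDegree = e + 1 :=
      Polynomial.natDegree_X_pow _
    let v : VV k e := NN (Polynomial.X ^ (e + 1)) z
    have hMv : MM (Polynomial.X ^ (e + 1)) v = z := MM_NN hX hXd z
    have h1 : MM (Polynomial.X ^ (e + 1)) (fun i => dl (v i)) = 0 := by
      rw [← D_MM, hMv, h]
    have h2 : (fun i => dl (v i)) = (0 : VV k e) := by
      rw [← NN_MM hX hXd (fun i => dl (v i)), h1, NN, map_zero, LinearMap.zero_apply]
    refine ⟨MM f v, ?_, ?_⟩
    · rw [D_MM, h2, map_zero]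
    · have h3 := MM_sub (m := m) (n := n) hf he (v := v) (FV_NN hz)
      rwa [hMv] at h3

/-- `FW [f]` is right closed, in every characteristic. -/
theorem RC_FW_one {m : ℕ} {f : Polynomial k} (hf : f ≠ 0) (hm : 2 * f.natDegree < m) :
    RC (wm m) (FW [f]) := by
  set c := f.leadingCoeff with hc
  have hc0 : c ≠ 0 := Polynomial.leadingCoeff_ne_zero.2 hf
  set g := c⁻¹ • f with hg
  have hgm : g.Monic := by
    rw [Polynomial.Monic, hg, Polynomial.smul_eq_C_mul, Polynomial.leadingCoeff_mul,
      Polynomial.leadingCoeff_C, ← hc, inv_mul_cancel₀ hc0]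
  have hgd : g.natDegree = f.natDegree := by
    rw [hg, Polynomial.natDegree_smul _ (inv_ne_zero hc0)]
  have hfg : f = c • g := by rw [hg, smul_smul, mul_inv_cancel₀ hc0, one_smul]
  refine RC_of_derivations (wm m) (FW [f]) [Polynomial.X ^ f.natDegree] ?_ ?_
  · intro n z hz q hq
    rw [List.mem_singleton] at hq
    rw [hq, ← hgd]
    refine lead_sub hm (L := [f]) ?_ hgm ?_ (by rw [hgd]) hz
    · intro q hq
      rw [List.mem_singleton] at hq
      rw [hq]
    · have h1 : {q : Polynomial k | q ∈ [f]} = {f} := by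
        ext q
        simp
      rw [h1, Submodule.mem_span_singleton]
      exact ⟨c⁻¹, rfl⟩
  · intro n z hz hz'
    have h1 := hz' _ (List.mem_singleton.2 rfl)
    rw [← hgd] at h1
    obtain ⟨z', h2, h3⟩ := exists_ker (m := m) hgm (hm_le_fl (wm m) n hz) h1
    have h4 : D f z' = 0 := by rw [hfg, D_smul, h2, smul_zero]
    have h5 : z' ∈ (fl (wm m) (n + 1) : Submodule k (T k)) := by
      have h6 : z' = z + (z' - z) := by abel
      rw [h6]
      exact Submodule.add_mem _ (hm_le_fl (wm m) n hz) (fl_mono (wm m) (Nat.le_succ n) h3)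
    obtain ⟨s, hs1, hs2⟩ := exists_inv (f := f) (show f.natDegree < m by omega) n z' h5 h4
    have h7 : s - z ∈ (fl (wm m) n : Submodule k (T k)) := by
      have h8 : s - z = (s - z') + (z' - z) := by abel
      rw [h8]
      exact Submodule.add_mem _ hs2 h3
    rw [mem_lead]
    refine ⟨s, hs1, ?_, ?_⟩
    · have h9 : s = z + (s - z) := by abel
      rw [h9]
      exact Submodule.add_mem _ (hm_le_fl (wm m) n hz) (fl_mono (wm m) (Nat.le_succ n) h7)
    · have h9 : s = z + (s - z) := by abel
      rw [h9, map_add, cmp_of_hm (wm m) hz, cmp_of_fl (wm m) h7 le_rfl, add_zero]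

theorem RC_FW_nil (m : ℕ) : RC (wm m) (FW ([] : List (Polynomial k))) := by
  have h1 : FW ([] : List (Polynomial k)) = ⊤ := by
    rw [eq_top_iff]
    intro t _
    rw [mem_FW]
    intro f hf
    exact absurd hf (List.not_mem_nil)
  rw [h1]
  exact RC_top _

end Pool.Agent.Helper26.FI
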