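import Pool.Agent.Helper26.FI.ListAux

/-!
# The subalgebra `R0 = k⟨x, z⟩` and the space `Q L`

PLAN.
* `pol_mem_R0`, `z_mem_R0`: `Algebra.subset_adjoin`, `pol q ∈ adjoin {x}`.
* `dlt_mem_R0`: `Polynomial.induction_on'`: `dlt` is additive in `q`; `dlt (monomial)`: induction on the
  exponent, `[y, q x] = [y, q] x + q [y, x] = [y,q] x - q z`.
* `R0_dec`: `Algebra.adjoin_induction` is awkward for this; better: the set of all
  `c + r1 * el a + r2 * z` (`c : k`, `r1 r2 ∈ R0`) is a submodule containing `1` and closed under right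
  multiplication by `x` (`(c + r1 el a + r2 z) x = (…) * el a + a (…)`, with `(…) ∈ R0`) and by `z`
  (`(…) ∈ R0`, times `z`), so it contains `R0` (`Algebra.adjoin_induction_right` or
  `Algebra.adjoin_eq_span` + `Submonoid.closure_induction_right`).
* `R0_cmp`: `cmp w n` maps `R0` to `R0` for every weight `w`: the set of `r` all of whose components
  are in `R0` is a subalgebra (`cmp w n (r * r') = Σ_{i+j=n} cmp i r * cmp j r'`; or by closure induction on products
  of generators, which are homogeneous: `x ∈ hm w (w 0)`, `z ∈ hm w (w 0 + w 1)`, `mul_mem_hm`,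
  `cmp_of_hm`, `cmp_of_hm_ne`; `Algebra.adjoin_eq_span`).
* `Q_mul_R0`: `Dl_mul_R0`.  `Q_mul_pol`, `Q_mul_dlt`: special cases.
* `Q_cmp`: `R0_cmp` and `Dl_cmp`.  `Q_le_TV`: `D_R0`, `Dl_mem_TV`.  `TV_cmp`: `D_cmp`.
-/

namespace Pool.Agent.Helper26.FI

open Pool.Agent.Helper71.FreeCore

universe u

variable {k : Type u} [Field k]

theorem x_mem_R0 : (x : T k) ∈ R0 k := Algebra.subset_adjoin (by simp)

theorem z_mem_R0 : (z : T k) ∈ R0 k := Algebra.subset_adjoin (by simp)

theorem pol_mem_R0 (q : Polynomial k) : (pol q : T k) ∈ R0 k := by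
  have h1 : (pol q : T k) ∈ Algebra.adjoin k {(x : T k)} :=
    Polynomial.aeval_mem_adjoin_singleton k x
  exact Algebra.adjoin_mono (by simp) h1

theorem el_mem_R0 (a : k) : (el a : T k) ∈ R0 k :=
  (R0 k).sub_mem x_mem_R0 ((R0 k).algebraMap_mem a)

theorem dlt_mem_R0 (q : Polynomial k) : (dlt q : T k) ∈ R0 k := by
  have hx : ∀ n : ℕ, (y * x ^ n - x ^ n * y : T k) ∈ R0 k := by
    intro n
    induction n with
    | zero => simp
    | succ n ih =>
      have e : (y * x ^ (n + 1) - x ^ (n + 1) * y : T k) =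
          (y * x ^ n - x ^ n * y) * x - x ^ n * z := by
        rw [pow_succ, z]
        noncomm_ring
      rw [e]
      exact (R0 k).sub_mem ((R0 k).mul_mem ih x_mem_R0)
        ((R0 k).mul_mem ((R0 k).pow_mem x_mem_R0 n) z_mem_R0)
  induction q using Polynomial.induction_on' with
  | add p q hp hq =>
    have e : (dlt (p + q) : T k) = dlt p + dlt q := by
      unfold dlt
      rw [map_add]
      noncomm_ring
    rw [e]
    exact (R0 k).add_mem hp hq
  | monomial n c =>
    have e : (dlt (Polynomial.monomial n c) : T k) = c • (y * x ^ n - x ^ n * y) := by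
      unfold dlt pol
      rw [Polynomial.aeval_monomial, ← Algebra.smul_def, mul_smul_comm, smul_mul_assoc, smul_sub]
    rw [e]
    exact (R0 k).smul_mem (hx n) c

theorem R0_dec (a : k) {r : T k} (hr : r ∈ R0 k) :
    ∃ (c : k), ∃ r1 ∈ R0 k, ∃ r2 ∈ R0 k,
      r = algebraMap k (T k) c + r1 * el a + r2 * z := by
  unfold R0 at hr
  induction hr using Algebra.adjoin_induction with
  | mem r hr =>
    simp only [Set.mem_insert_iff, Set.mem_singleton_iff] at hr
    rcases hr with rfl | rfl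
    · refine ⟨a, 1, (R0 k).one_mem, 0, (R0 k).zero_mem, ?_⟩
      unfold el
      simp
    · refine ⟨0, 0, (R0 k).zero_mem, 1, (R0 k).one_mem, ?_⟩
      simp
  | algebraMap c => exact ⟨c, 0, (R0 k).zero_mem, 0, (R0 k).zero_mem, by simp⟩
  | add r r' _ _ h h' =>
    obtain ⟨c, r1, hr1, r2, hr2, e⟩ := h
    obtain ⟨c', r1', hr1', r2', hr2', e'⟩ := h'
    refine ⟨c + c', r1 + r1', (R0 k).add_mem hr1 hr1', r2 + r2', (R0 k).add_mem hr2 hr2', ?_⟩
    rw [e, e', map_add]
    noncomm_ring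
  | mul r r' hr _ h h' =>
    obtain ⟨c, r1, hr1, r2, hr2, e⟩ := h
    obtain ⟨c', r1', hr1', r2', hr2', e'⟩ := h'
    refine ⟨c * c', c' • r1 + r * r1', (R0 k).add_mem ((R0 k).smul_mem hr1 c')
      ((R0 k).mul_mem hr hr1'), c' • r2 + r * r2', (R0 k).add_mem ((R0 k).smul_mem hr2 c')
      ((R0 k).mul_mem hr hr2'), ?_⟩
    have e1 : r * r' = c' • r + (r * r1' * el a + r * r2' * z) := by
      conv_lhs => rw [e']
      rw [mul_add, mul_add, ← Algebra.commutes, ← Algebra.smul_def, add_assoc, ← mul_assoc,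
        ← mul_assoc]
    have e2 : c' • r = algebraMap k (T k) (c * c') + c' • r1 * el a + c' • r2 * z := by
      rw [e, smul_add, smul_add, smul_mul_assoc, smul_mul_assoc, map_mul,
        Algebra.smul_def c' (algebraMap k (T k) c), Algebra.commutes]
    rw [e1, e2, add_mul, add_mul]
    abel

private theorem cmp_mul_mem_aux (w : Fin 2 → ℕ) (N : ℕ) : ∀ a b : T k, a ∈ fl w N →
    (∀ n, cmp w n a ∈ R0 k) → (∀ n, cmp w n b ∈ R0 k) → ∀ n, cmp w n (a * b) ∈ R0 k := by
  induction N with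
  | zero =>
    intro a b ha _ _ n
    rw [fl_zero, Submodule.mem_bot] at ha
    rw [ha, zero_mul, map_zero]
    exact (R0 k).zero_mem
  | succ N ih =>
    intro a b ha hca hcb n
    have e : a * b = cmp w N a * b + (a - cmp w N a) * b := by noncomm_ring
    rw [e, map_add]
    refine (R0 k).add_mem ?_ ?_
    · rw [cmp_hm_mul w (cmp_mem_hm w N a)]
      split_ifs
      · exact (R0 k).mul_mem (hca N) (hcb _)
      · exact (R0 k).zero_mem
    · refine ih _ b (sub_cmp_mem w ha) (fun m => ?_) hcb n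
      rw [map_sub]
      by_cases hm : N = m
      · subst hm
        rw [cmp_of_hm w (cmp_mem_hm w N a), sub_self]
        exact (R0 k).zero_mem
      · rw [cmp_of_hm_ne w (cmp_mem_hm w N a) hm, sub_zero]
        exact hca m

private theorem cmp_mem_of_hm (w : Fin 2 → ℕ) {m : ℕ} {r : T k} (h : r ∈ hm w m)
    (hr : r ∈ R0 k) (n : ℕ) : cmp w n r ∈ R0 k := by
  by_cases hm : m = n
  · subst hm
    rw [cmp_of_hm w h]
    exact hr
  · rw [cmp_of_hm_ne w h hm]
    exact (R0 k).zero_mem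

private theorem x_hm (w : Fin 2 → ℕ) : (x : T k) ∈ hm w (w 0) := by
  have h1 : (mon [0] : T k) ∈ hm w (w 0) := mon_mem_hm w (by simp [wt])
  simpa [mon, x] using h1

private theorem y_hm (w : Fin 2 → ℕ) : (y : T k) ∈ hm w (w 1) := by
  have h1 : (mon [1] : T k) ∈ hm w (w 1) := mon_mem_hm w (by simp [wt])
  simpa [mon, y] using h1

private theorem z_hm (w : Fin 2 → ℕ) : (z : T k) ∈ hm w (w 0 + w 1) := by
  refine Submodule.sub_mem _ (mul_mem_hm w (x_hm w) (y_hm w)) ?_
  rw [add_comm]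
  exact mul_mem_hm w (y_hm w) (x_hm w)

private theorem alg_hm (w : Fin 2 → ℕ) (c : k) : (algebraMap k (T k) c) ∈ hm w 0 := by
  rw [Algebra.algebraMap_eq_smul_one, ← mon_nil]
  exact Submodule.smul_mem _ _ (mon_mem_hm w (wt_nil w))

theorem R0_cmp (w : Fin 2 → ℕ) (n : ℕ) {r : T k} (hr : r ∈ R0 k) : cmp w n r ∈ R0 k := by
  have hr' := hr
  unfold R0 at hr'
  revert n
  induction hr' using Algebra.adjoin_induction with
  | mem r hr' =>
    simp only [Set.mem_insert_iff, Set.mem_singleton_iff] at hr'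
    rcases hr' with rfl | rfl
    · exact cmp_mem_of_hm w (x_hm w) hr
    · exact cmp_mem_of_hm w (z_hm w) hr
  | algebraMap c => exact cmp_mem_of_hm w (alg_hm w c) hr
  | add r r' h h' ih ih' =>
    intro n
    rw [map_add]
    exact (R0 k).add_mem (ih h n) (ih' h' n)
  | mul r r' h h' ih ih' =>
    obtain ⟨N, hN⟩ := exists_fl w r
    exact cmp_mul_mem_aux w N r r' hN (ih h) (ih' h')

theorem R0_le_Q (L : List (Polynomial k)) {r : T k} (hr : r ∈ R0 k) : r ∈ Q L :=
  Submodule.mem_sup_left hr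

theorem Dl_mem_Q (L : List (Polynomial k)) (s : T k) : Dl L s ∈ Q L :=
  Submodule.mem_sup_right ⟨s, rfl⟩

theorem mem_Q {L : List (Polynomial k)} {t : T k} :
    t ∈ Q L ↔ ∃ r ∈ R0 k, ∃ c : T k, t = r + Dl L c := by
  unfold Q
  rw [Submodule.mem_sup]
  constructor
  · rintro ⟨r, hr, _, ⟨c, rfl⟩, rfl⟩
    exact ⟨r, hr, c, rfl⟩
  · rintro ⟨r, hr, c, rfl⟩
    exact ⟨r, hr, _, ⟨c, rfl⟩, rfl⟩

theorem Q_mul_R0 (L : List (Polynomial k)) {t r : T k} (ht : t ∈ Q L) (hr : r ∈ R0 k) :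
    t * r ∈ Q L := by
  obtain ⟨r', hr', c, rfl⟩ := mem_Q.1 ht
  rw [add_mul, ← Dl_mul_R0 L c hr]
  exact mem_Q.2 ⟨_, (R0 k).mul_mem hr' hr, _, rfl⟩

theorem Q_mul_pol (L : List (Polynomial k)) {t : T k} (ht : t ∈ Q L) (q : Polynomial k) :
    t * pol q ∈ Q L := Q_mul_R0 L ht (pol_mem_R0 q)

theorem Q_mul_el (L : List (Polynomial k)) {t : T k} (ht : t ∈ Q L) (a : k) :
    t * el a ∈ Q L := Q_mul_R0 L ht (el_mem_R0 a)

theorem Q_mul_dlt (L : List (Polynomial k)) {t : T k} (ht : t ∈ Q L) (q : Polynomial k) :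
    t * dlt q ∈ Q L := Q_mul_R0 L ht (dlt_mem_R0 q)

theorem Q_cmp (L : List (Polynomial k)) (n : ℕ) {t : T k} (ht : t ∈ Q L) :
    cmp yw n t ∈ Q L := by
  obtain ⟨r, hr, c, rfl⟩ := mem_Q.1 ht
  rw [map_add, ← Dl_cmp]
  exact mem_Q.2 ⟨_, R0_cmp yw n hr, _, rfl⟩

theorem Q_le_TV [CharP k 2] (L : List (Polynomial k)) : Q L ≤ TV L := by
  intro t ht
  obtain ⟨r, hr, c, rfl⟩ := mem_Q.1 ht
  exact Submodule.add_mem _ (fun f _ => D_R0 f hr) (Dl_mem_TV L c)

theorem TV_cmp (L : List (Polynomial k)) (n : ℕ) {t : T k} (ht : t ∈ TV L) :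
    cmp yw n t ∈ TV L := by
  intro f hf
  cases n with
  | zero => exact D_yhom_zero f (cmp_mem_hm yw 0 t)
  | succ n => rw [D_cmp, ht f hf, map_zero]

theorem TV_mul_el (L : List (Polynomial k)) {t : T k} (a : k) :
    t * el a ∈ TV L ↔ t ∈ TV L := by
  constructor
  · intro h f hf
    have h1 := h f hf
    rw [D_mul_el] at h1
    exact mul_el_cancel a h1
  · intro h f hf
    rw [D_mul_el, h f hf, zero_mul]

theorem TV_mul_pol (L : List (Polynomial k)) {t : T k} (ht : t ∈ TV L) (q : Polynomial k) :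
    t * pol q ∈ TV L := by
  intro f hf
  rw [D_mul_pol, ht f hf, zero_mul]

end Pool.Agent.Helper26.FI
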