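import Pool.Agent.Helper26.FI.Defs
import Pool.Agent.Helper26.FI.Elim

/-!
# The invariants of all translations of the plane over the field with two elements

PLAN.  Apply `elim` twice.
(1) `I = Unit`: `Option Unit ≃ Fin 2`, `none ↦ 0`, `some () ↦ 1`: the invariants of `x ↦ x + 1` are freely generated by
`x^2 + x, y, [x, y] = z`.  (2) `I = Fin 2` (or `Bool`): `Option I ≃ {y; x^2 + x, z}`; the automorphism `y ↦ y + 1` fixes
`x^2 + x` and `z` (`[x, y + 1] = [x, y]`), so its invariants in `k⟨y, x^2 + x, z⟩` are freely generated by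
`y^2 + y, x^2 + x, z, [y, x^2 + x], [y, z]`.  And `[y, x^2 + x] = [x, z] + z` in characteristic two
(`[y,x^2] = [y,x] x + x [y,x] = z x + x z = [x,z]`, `[y,x] = z`).  Finally the substitution `c3 ↦ c3 + c2` is an automorphism of
`FreeAlgebra (ZMod 2) (Fin 5)` (an involution), so `x^2+x, y^2+y, z, [x,z], [y,z]` are free generators as well.
-/

namespace Pool.Agent.Helper26.FI

/-- The five generators. -/
noncomputable def gen5 : Fin 5 → T (ZMod 2) :=
  ![x ^ 2 + x, y ^ 2 + y, z, x * z - z * x, y * z - z * y]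

/-- The translations. -/
noncomputable def tx : T (ZMod 2) →ₐ[ZMod 2] T (ZMod 2) :=
  FreeAlgebra.lift (ZMod 2) ![x + 1, y]

/-- The translations. -/
noncomputable def ty : T (ZMod 2) →ₐ[ZMod 2] T (ZMod 2) :=
  FreeAlgebra.lift (ZMod 2) ![x, y + 1]

private noncomputable def s4e : FreeAlgebra (ZMod 2) (Option Unit) →ₐ[ZMod 2] T (ZMod 2) :=
  FreeAlgebra.lift (ZMod 2) (fun j => match j with
    | none => x
    | some _ => y)

private noncomputable def s4e' : T (ZMod 2) →ₐ[ZMod 2] FreeAlgebra (ZMod 2) (Option Unit) :=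
  FreeAlgebra.lift (ZMod 2) ![FreeAlgebra.ι (ZMod 2) none, FreeAlgebra.ι (ZMod 2) (some ())]

private theorem s4e_left (u : FreeAlgebra (ZMod 2) (Option Unit)) : s4e' (s4e u) = u := by
  have h : s4e'.comp s4e = AlgHom.id (ZMod 2) _ := by
    apply FreeAlgebra.hom_ext
    funext j
    rcases j with _ | ⟨⟩ <;> simp [s4e, s4e', x, y]
  exact AlgHom.congr_fun h u

private theorem s4e_right (u : T (ZMod 2)) : s4e (s4e' u) = u := by
  have h : s4e.comp s4e' = AlgHom.id (ZMod 2) _ := by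
    apply FreeAlgebra.hom_ext
    funext j
    fin_cases j <;> simp [s4e, s4e', x, y]
  exact AlgHom.congr_fun h u

private noncomputable def s4f : FreeAlgebra (ZMod 2) (Option Bool) →ₐ[ZMod 2]
    FreeAlgebra (ZMod 2) (Option (Unit ⊕ Unit)) :=
  FreeAlgebra.lift (ZMod 2) (fun j => match j with
    | none => FreeAlgebra.ι (ZMod 2) (some (Sum.inl ()))
    | some false => FreeAlgebra.ι (ZMod 2) none
    | some true => FreeAlgebra.ι (ZMod 2) (some (Sum.inr ())))

private noncomputable def s4f' : FreeAlgebra (ZMod 2) (Option (Unit ⊕ Unit)) →ₐ[ZMod 2]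
    FreeAlgebra (ZMod 2) (Option Bool) :=
  FreeAlgebra.lift (ZMod 2) (fun j => match j with
    | none => FreeAlgebra.ι (ZMod 2) (some false)
    | some (Sum.inl _) => FreeAlgebra.ι (ZMod 2) none
    | some (Sum.inr _) => FreeAlgebra.ι (ZMod 2) (some true))

private theorem s4f_left (u : FreeAlgebra (ZMod 2) (Option Bool)) : s4f' (s4f u) = u := by
  have h : s4f'.comp s4f = AlgHom.id (ZMod 2) _ := by
    apply FreeAlgebra.hom_ext
    funext j
    rcases j with _ | b
    · simp [s4f, s4f']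
    · cases b <;> simp [s4f, s4f']
  exact AlgHom.congr_fun h u

private theorem s4f_right (u : FreeAlgebra (ZMod 2) (Option (Unit ⊕ Unit))) :
    s4f (s4f' u) = u := by
  have h : s4f.comp s4f' = AlgHom.id (ZMod 2) _ := by
    apply FreeAlgebra.hom_ext
    funext j
    rcases j with _ | b
    · simp [s4f, s4f']
    · rcases b with ⟨⟩ | ⟨⟩ <;> simp [s4f, s4f']
  exact AlgHom.congr_fun h u

private noncomputable def s4g : FreeAlgebra (ZMod 2) (Fin 5) →ₐ[ZMod 2]
    FreeAlgebra (ZMod 2) (Option (Bool ⊕ Bool)) :=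
  FreeAlgebra.lift (ZMod 2) ![FreeAlgebra.ι (ZMod 2) (some (Sum.inl false)),
    FreeAlgebra.ι (ZMod 2) none, FreeAlgebra.ι (ZMod 2) (some (Sum.inl true)),
    FreeAlgebra.ι (ZMod 2) (some (Sum.inr false)) + FreeAlgebra.ι (ZMod 2) (some (Sum.inl true)),
    FreeAlgebra.ι (ZMod 2) (some (Sum.inr true))]

private noncomputable def s4g' : FreeAlgebra (ZMod 2) (Option (Bool ⊕ Bool)) →ₐ[ZMod 2]
    FreeAlgebra (ZMod 2) (Fin 5) :=
  FreeAlgebra.lift (ZMod 2) (fun j => match j with
    | none => FreeAlgebra.ι (ZMod 2) 1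
    | some (Sum.inl false) => FreeAlgebra.ι (ZMod 2) 0
    | some (Sum.inl true) => FreeAlgebra.ι (ZMod 2) 2
    | some (Sum.inr false) => FreeAlgebra.ι (ZMod 2) 3 + FreeAlgebra.ι (ZMod 2) 2
    | some (Sum.inr true) => FreeAlgebra.ι (ZMod 2) 4)

private theorem s4_two {X : Type} : (2 : FreeAlgebra (ZMod 2) X) = 0 := by
  have h : (algebraMap (ZMod 2) (FreeAlgebra (ZMod 2) X)) 2 = 2 := map_ofNat _ 2
  have h2 : (2 : ZMod 2) = 0 := by decide
  rw [← h, h2, map_zero]

private theorem s4_add_self {X : Type} (a : FreeAlgebra (ZMod 2) X) : a + a = 0 := by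
  rw [← two_mul, s4_two, zero_mul]

private theorem s4g_left (u : FreeAlgebra (ZMod 2) (Fin 5)) : s4g' (s4g u) = u := by
  have h : s4g'.comp s4g = AlgHom.id (ZMod 2) _ := by
    apply FreeAlgebra.hom_ext
    funext j
    fin_cases j
    · simp [s4g, s4g']
    · simp [s4g, s4g']
    · simp [s4g, s4g']
    · simp [s4g, s4g', add_assoc, s4_add_self]
    · simp [s4g, s4g']
  exact AlgHom.congr_fun h u

private theorem s4g_right (u : FreeAlgebra (ZMod 2) (Option (Bool ⊕ Bool))) :
    s4g (s4g' u) = u := by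
  have h : s4g.comp s4g' = AlgHom.id (ZMod 2) _ := by
    apply FreeAlgebra.hom_ext
    funext j
    rcases j with _ | (b | b)
    · simp [s4g, s4g']
    · cases b <;> simp [s4g, s4g']
    · cases b
      · simp [s4g, s4g', add_assoc, s4_add_self]
      · simp [s4g, s4g']
  exact AlgHom.congr_fun h u

/-- invariants of `tx` -/
private noncomputable def s4phi : FreeAlgebra (ZMod 2) (Option Bool) →ₐ[ZMod 2] T (ZMod 2) :=
  (s4e.comp (FreeAlgebra.lift (ZMod 2) (elimGen (ZMod 2) (I := Unit)))).comp s4f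

private theorem s4phi_inj : Function.Injective s4phi := by
  intro u v huv
  have h1 : s4e (FreeAlgebra.lift (ZMod 2) (elimGen (ZMod 2) (I := Unit)) (s4f u)) =
      s4e (FreeAlgebra.lift (ZMod 2) (elimGen (ZMod 2) (I := Unit)) (s4f v)) := huv
  have h2 := congrArg s4e' h1
  rw [s4e_left, s4e_left] at h2
  have h3 := (elim (k := ZMod 2) (I := Unit)).1 h2
  have h4 := congrArg s4f' h3
  rwa [s4f_left, s4f_left] at h4

private theorem s4tx (u : FreeAlgebra (ZMod 2) (Option Unit)) :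
    tx (s4e u) = s4e (elimTau (ZMod 2) u) := by
  have h : tx.comp s4e = s4e.comp (elimTau (ZMod 2)) := by
    apply FreeAlgebra.hom_ext
    funext j
    rcases j with _ | ⟨⟩ <;> simp [s4e, tx, elimTau, x, y]
  exact AlgHom.congr_fun h u

private theorem s4phi_range (t : T (ZMod 2)) : tx t = t ↔ ∃ u, s4phi u = t := by
  have h1 : tx t = t ↔ elimTau (ZMod 2) (s4e' t) = s4e' t := by
    conv_lhs => rw [← s4e_right t, s4tx]
    constructor
    · intro h
      have h2 := congrArg s4e' h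
      rwa [s4e_left, s4e_left] at h2
    · intro h
      rw [h]
  rw [h1, (elim (k := ZMod 2) (I := Unit)).2]
  constructor
  · rintro ⟨u, hu⟩
    refine ⟨s4f' u, ?_⟩
    show s4e (FreeAlgebra.lift (ZMod 2) (elimGen (ZMod 2) (I := Unit)) (s4f (s4f' u))) = t
    rw [s4f_right, hu, s4e_right]
  · rintro ⟨u, rfl⟩
    refine ⟨s4f u, ?_⟩
    show _ = s4e' (s4e (FreeAlgebra.lift (ZMod 2) (elimGen (ZMod 2) (I := Unit)) (s4f u)))
    rw [s4e_left]

private theorem s4ty (u : FreeAlgebra (ZMod 2) (Option Bool)) :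
    ty (s4phi u) = s4phi (elimTau (ZMod 2) u) := by
  have h : ty.comp s4phi = s4phi.comp (elimTau (ZMod 2)) := by
    apply FreeAlgebra.hom_ext
    funext j
    rcases j with _ | b
    · simp [s4phi, s4e, s4f, ty, elimTau, elimGen, x, y]
    · cases b
      · simp [s4phi, s4e, s4f, ty, elimTau, elimGen, x, y]
      · simp [s4phi, s4e, s4f, ty, elimTau, elimGen, x, y]
        noncomm_ring
  exact AlgHom.congr_fun h u

private theorem s4_gen (u : FreeAlgebra (ZMod 2) (Fin 5)) :
    FreeAlgebra.lift (ZMod 2) gen5 u =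
      s4phi (FreeAlgebra.lift (ZMod 2) (elimGen (ZMod 2) (I := Bool)) (s4g u)) := by
  have h : FreeAlgebra.lift (ZMod 2) gen5 =
      (s4phi.comp (FreeAlgebra.lift (ZMod 2) (elimGen (ZMod 2) (I := Bool)))).comp s4g := by
    apply FreeAlgebra.hom_ext
    funext j
    fin_cases j
    · simp [gen5, s4phi, s4e, s4f, s4g, elimGen, x, y, z]
    · simp [gen5, s4phi, s4e, s4f, s4g, elimGen, x, y, z]
    · simp [gen5, s4phi, s4e, s4f, s4g, elimGen, x, y, z]
    · simp [gen5, s4phi, s4e, s4f, s4g, elimGen]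
      have h2 := s4_two (X := Fin 2)
      have h3 : (y : T (ZMod 2)) * (x ^ 2 + x) - (x ^ 2 + x) * y + (x * y - y * x) =
          x * z - z * x + 2 * (x * y * x - x * x * y) := by
        unfold z
        noncomm_ring
      rw [h3, h2, zero_mul, add_zero]
    · simp [gen5, s4phi, s4e, s4f, s4g, elimGen, x, y, z]
  exact AlgHom.congr_fun h u

theorem gen5_free : Function.Injective (FreeAlgebra.lift (ZMod 2) gen5) ∧
    ∀ t : T (ZMod 2), (tx t = t ∧ ty t = t) ↔ ∃ u, FreeAlgebra.lift (ZMod 2) gen5 u = t := by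
  constructor
  · intro u v huv
    rw [s4_gen, s4_gen] at huv
    have h1 := (elim (k := ZMod 2) (I := Bool)).1 (s4phi_inj huv)
    have h2 := congrArg s4g' h1
    rwa [s4g_left, s4g_left] at h2
  · intro t
    constructor
    · rintro ⟨h1, h2⟩
      obtain ⟨u, rfl⟩ := (s4phi_range t).1 h1
      rw [s4ty] at h2
      obtain ⟨w, hw⟩ := ((elim (k := ZMod 2) (I := Bool)).2 u).1 (s4phi_inj h2)
      refine ⟨s4g' w, ?_⟩
      rw [s4_gen, s4g_right, hw]
    · rintro ⟨u, rfl⟩
      rw [s4_gen]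
      refine ⟨(s4phi_range _).2 ⟨_, rfl⟩, ?_⟩
      rw [s4ty, ((elim (k := ZMod 2) (I := Bool)).2 _).2 ⟨_, rfl⟩]

end Pool.Agent.Helper26.FI
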