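import Pool.Agent.Helper26.FI.S4B
import Pool.Agent.Helper26.FI.ConjF

/-!
# Affine groups over the field with two elements containing all translations

PLAN.  Let `ψ = FreeAlgebra.lift (ZMod 2) gen5`.  Every affine automorphism `g` maps each `gen5 i` into the span of the `gen5 j`:
write `g x = a x + b y + e`, `g y = c x + d y + f` with entries in `ZMod 2` (`a, b, c, d, e, f`; case distinction
`0` or `1` for all of them is possible (`fin_cases`), `a d - b c ≠ 0` because `g` is bijective, e.g. `g x, g y, 1` are linearly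
independent).  `g z = (a d - b c) z = z`; `g (x^2 + x) = a^2 x^2 + b^2 y^2 + a b (x y + y x) + … = a (x^2+x) + b (y^2+y) + a b z`
(`x y + y x = z` in characteristic 2; the terms with `e` cancel: `e^2 + e = 0`, `2 e (…) = 0`), similarly `y^2 + y`;
`g [x,z] = a [x,z] + b [y,z]`, `g [y,z] = c [x,z] + d [y,z]`.
So for `g ∈ G` there is a linear endomorphism `gh : FreeAlgebra (ZMod 2) (Fin 5) →ₐ …` (images of the generators in the span of the
generators) with `ψ (gh u) = g (ψ u)` for all `u`.  Let `Gh` be the set of these `gh`.  By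
`FreeThms.homogeneous` with all weights `1`, `fixedAlgebra Gh` is free: a linear endomorphism preserves the components
(`component_eq`, `cmp`; `gh (mon l)` is homogeneous of weight `l.length`), so `cmp n f` is fixed if `f` is.
`t ∈ invariants G ↔ ∃ u ∈ fixedAlgebra Gh, ψ u = t`: `t` invariant is fixed by the translations, so `t = ψ u` by
`gen5_free`, and `ψ (gh u) = g t = t = ψ u` gives `gh u = u` by injectivity.  Conclude with `isFree_transport`.
-/

namespace Pool.Agent.Helper26.FI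

open Pool.Agent.Helper71.FreeDefs Pool.Agent.Helper71.FreeCore Pool.Agent.Helper71.FreeThms

/-- The map of the free algebra on the five generators onto the invariants. -/
private noncomputable def s4psi : FreeAlgebra (ZMod 2) (Fin 5) →ₐ[ZMod 2] T (ZMod 2) :=
  FreeAlgebra.lift (ZMod 2) gen5

private theorem s4c_coef {t : T (ZMod 2)} (ht : t ∈
      Submodule.span (ZMod 2) (insert 1 (Set.range (FreeAlgebra.ι (ZMod 2) (X := Fin 2))))) :
    ∃ a b e : ZMod 2, t = a • x + b • y + e • (1 : T (ZMod 2)) := by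
  rw [Submodule.mem_span_insert] at ht
  obtain ⟨e, z, hz, rfl⟩ := ht
  rw [Submodule.mem_span_range_iff_exists_fun] at hz
  obtain ⟨c, rfl⟩ := hz
  refine ⟨c 0, c 1, e, ?_⟩
  rw [Fin.sum_univ_two, add_comm]
  rfl

private theorem s4c_sq (a b e : ZMod 2) :
    (a • x + b • y + e • (1 : T (ZMod 2))) ^ 2 + (a • x + b • y + e • (1 : T (ZMod 2))) =
      a • (x ^ 2 + x) + b • (y ^ 2 + y) + (a * b) • z := by
  unfold z
  simp only [pow_two, mul_add, add_mul, smul_mul_assoc, mul_smul_comm, smul_smul, one_mul, mul_one,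
    smul_add, smul_sub]
  match_scalars <;> (revert a b e; decide)

private theorem s4c_com (a b e c d f : ZMod 2) :
    (a • x + b • y + e • (1 : T (ZMod 2))) * (c • x + d • y + f • (1 : T (ZMod 2))) -
      (c • x + d • y + f • (1 : T (ZMod 2))) * (a • x + b • y + e • (1 : T (ZMod 2))) =
      (a * d - b * c) • z := by
  unfold z
  simp only [mul_add, add_mul, smul_mul_assoc, mul_smul_comm, smul_smul, one_mul, mul_one,
    smul_add, smul_sub]
  match_scalars <;> ring

private theorem s4c_com2 (a b e D : ZMod 2) (w : T (ZMod 2)) :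
    (a • x + b • y + e • (1 : T (ZMod 2))) * (D • w) -
      (D • w) * (a • x + b • y + e • (1 : T (ZMod 2))) =
      (D * a) • (x * w - w * x) + (D * b) • (y * w - w * y) := by
  simp only [mul_add, add_mul, smul_mul_assoc, mul_smul_comm, smul_smul, one_mul, mul_one,
    smul_add, smul_sub]
  match_scalars <;> ring

/-- Linear endomorphisms. -/
private def S4Lin (h : FreeAlgebra (ZMod 2) (Fin 5) →ₐ[ZMod 2] FreeAlgebra (ZMod 2) (Fin 5)) :
    Prop :=
  ∀ i, h (FreeAlgebra.ι (ZMod 2) i) ∈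
    (hm (fun _ => 1) 1 : Submodule (ZMod 2) (FreeAlgebra (ZMod 2) (Fin 5)))

private theorem s4c_ι (i : Fin 5) : (FreeAlgebra.ι (ZMod 2) i) ∈
    (hm (fun _ => 1) 1 : Submodule (ZMod 2) (FreeAlgebra (ZMod 2) (Fin 5))) := by
  have h : (mon [i] : FreeAlgebra (ZMod 2) (Fin 5)) = FreeAlgebra.ι (ZMod 2) i := by
    rw [mon_cons, mon_nil, mul_one]
  rw [← h]
  exact mon_mem_hm _ (by simp [wt])

private theorem s4c_key (g : T (ZMod 2) →ₐ[ZMod 2] T (ZMod 2)) (hg : ∀ i,
      g (FreeAlgebra.ι (ZMod 2) i) ∈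
        Submodule.span (ZMod 2) (insert 1 (Set.range (FreeAlgebra.ι (ZMod 2) (X := Fin 2))))) :
    ∃ h : FreeAlgebra (ZMod 2) (Fin 5) →ₐ[ZMod 2] FreeAlgebra (ZMod 2) (Fin 5),
      S4Lin h ∧ ∀ u, s4psi (h u) = g (s4psi u) := by
  obtain ⟨a, b, e, h0⟩ := s4c_coef (hg 0)
  obtain ⟨c, d, f, h1⟩ := s4c_coef (hg 1)
  have hx : g x = a • x + b • y + e • (1 : T (ZMod 2)) := h0
  have hy : g y = c • x + d • y + f • (1 : T (ZMod 2)) := h1
  have hz : g z = (a * d - b * c) • z := by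
    unfold z
    rw [map_sub, map_mul, map_mul, hx, hy, s4c_com]
    rfl
  set D : ZMod 2 := a * d - b * c with hD
  refine ⟨FreeAlgebra.lift (ZMod 2) ![
    a • FreeAlgebra.ι (ZMod 2) 0 + b • FreeAlgebra.ι (ZMod 2) 1 + (a * b) • FreeAlgebra.ι (ZMod 2) 2,
    c • FreeAlgebra.ι (ZMod 2) 0 + d • FreeAlgebra.ι (ZMod 2) 1 + (c * d) • FreeAlgebra.ι (ZMod 2) 2,
    D • FreeAlgebra.ι (ZMod 2) 2,
    (D * a) • FreeAlgebra.ι (ZMod 2) 3 + (D * b) • FreeAlgebra.ι (ZMod 2) 4,
    (D * c) • FreeAlgebra.ι (ZMod 2) 3 + (D * d) • FreeAlgebra.ι (ZMod 2) 4], ?_, ?_⟩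
  · have hs : ∀ (r : ZMod 2) (i : Fin 5), r • FreeAlgebra.ι (ZMod 2) i ∈
        (hm (fun _ => 1) 1 : Submodule (ZMod 2) (FreeAlgebra (ZMod 2) (Fin 5))) :=
      fun r i => Submodule.smul_mem _ r (s4c_ι i)
    intro i
    rw [FreeAlgebra.lift_ι_apply]
    fin_cases i
    · exact Submodule.add_mem _ (Submodule.add_mem _ (hs _ _) (hs _ _)) (hs _ _)
    · exact Submodule.add_mem _ (Submodule.add_mem _ (hs _ _) (hs _ _)) (hs _ _)
    · exact hs _ _
    · exact Submodule.add_mem _ (hs _ _) (hs _ _)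
    · exact Submodule.add_mem _ (hs _ _) (hs _ _)
  · intro u
    refine AlgHom.congr_fun (φ₁ := s4psi.comp (FreeAlgebra.lift (ZMod 2) ![
      a • FreeAlgebra.ι (ZMod 2) 0 + b • FreeAlgebra.ι (ZMod 2) 1 +
        (a * b) • FreeAlgebra.ι (ZMod 2) 2,
      c • FreeAlgebra.ι (ZMod 2) 0 + d • FreeAlgebra.ι (ZMod 2) 1 +
        (c * d) • FreeAlgebra.ι (ZMod 2) 2,
      D • FreeAlgebra.ι (ZMod 2) 2,
      (D * a) • FreeAlgebra.ι (ZMod 2) 3 + (D * b) • FreeAlgebra.ι (ZMod 2) 4,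
      (D * c) • FreeAlgebra.ι (ZMod 2) 3 + (D * d) • FreeAlgebra.ι (ZMod 2) 4]))
      (φ₂ := g.comp s4psi) ?_ u
    have hp : ∀ i, s4psi (FreeAlgebra.ι (ZMod 2) i) = gen5 i := fun i => by
      unfold s4psi
      rw [FreeAlgebra.lift_ι_apply]
    apply FreeAlgebra.hom_ext
    funext j
    simp only [Function.comp_apply, AlgHom.comp_apply, FreeAlgebra.lift_ι_apply, hp]
    fin_cases j
    · change s4psi (a • FreeAlgebra.ι (ZMod 2) 0 + b • FreeAlgebra.ι (ZMod 2) 1 +
        (a * b) • FreeAlgebra.ι (ZMod 2) 2) = g (x ^ 2 + x)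
      rw [map_add, map_add, map_smul, map_smul, map_smul, hp, hp, hp, map_add, map_pow, hx, s4c_sq]
      rfl
    · change s4psi (c • FreeAlgebra.ι (ZMod 2) 0 + d • FreeAlgebra.ι (ZMod 2) 1 +
        (c * d) • FreeAlgebra.ι (ZMod 2) 2) = g (y ^ 2 + y)
      rw [map_add, map_add, map_smul, map_smul, map_smul, hp, hp, hp, map_add, map_pow, hy, s4c_sq]
      rfl
    · change s4psi (D • FreeAlgebra.ι (ZMod 2) 2) = g z
      rw [map_smul, hp, hz]
      rfl
    · change s4psi ((D * a) • FreeAlgebra.ι (ZMod 2) 3 + (D * b) • FreeAlgebra.ι (ZMod 2) 4) =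
        g (x * z - z * x)
      rw [map_add, map_smul, map_smul, hp, hp, map_sub, map_mul, map_mul, hx, hz, s4c_com2]
      rfl
    · change s4psi ((D * c) • FreeAlgebra.ι (ZMod 2) 3 + (D * d) • FreeAlgebra.ι (ZMod 2) 4) =
        g (y * z - z * y)
      rw [map_add, map_smul, map_smul, hp, hp, map_sub, map_mul, map_mul, hy, hz, s4c_com2]
      rfl

private theorem s4c_mon {h : FreeAlgebra (ZMod 2) (Fin 5) →ₐ[ZMod 2] FreeAlgebra (ZMod 2) (Fin 5)}
    (hl : S4Lin h) (l : List (Fin 5)) : h (mon l) ∈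
      (hm (fun _ => 1) (wt (fun _ => 1) l) :
        Submodule (ZMod 2) (FreeAlgebra (ZMod 2) (Fin 5))) := by
  induction l with
  | nil =>
    rw [mon_nil, map_one, ← mon_nil]
    exact mon_mem_hm _ rfl
  | cons i l ih =>
    rw [mon_cons, map_mul, wt_cons]
    exact mul_mem_hm _ (hl i) ih

private theorem s4c_cmp {h : FreeAlgebra (ZMod 2) (Fin 5) →ₐ[ZMod 2] FreeAlgebra (ZMod 2) (Fin 5)}
    (hl : S4Lin h) (n : ℕ) (t : FreeAlgebra (ZMod 2) (Fin 5)) :
    cmp (fun _ => 1) n (h t) = h (cmp (fun _ => 1) n t) := by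
  refine mon_ind (p := fun t => cmp (fun _ => 1) n (h t) = h (cmp (fun _ => 1) n t)) t ?_ ?_ ?_ ?_
  · intro l
    rw [cmp_mon]
    split_ifs with hn
    · subst hn
      exact cmp_of_hm _ (s4c_mon hl l)
    · rw [map_zero]
      exact cmp_of_hm_ne _ (s4c_mon hl l) hn
  · simp only [map_zero]
  · intro a b ha hb
    simp only [map_add, ha, hb]
  · intro c a ha
    simp only [map_smul, ha]

theorem aff_all (G : Subgroup (FreeAlgebra (ZMod 2) (Fin 2) ≃ₐ[ZMod 2] FreeAlgebra (ZMod 2) (Fin 2)))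
    (haff : ∀ g ∈ G, ∀ i, g (FreeAlgebra.ι (ZMod 2) i) ∈
      Submodule.span (ZMod 2) (insert 1 (Set.range (FreeAlgebra.ι (ZMod 2)))))
    (h1 : ∃ g ∈ G, g (x : T (ZMod 2)) = x + 1 ∧ g (y : T (ZMod 2)) = y)
    (h2 : ∃ g ∈ G, g (x : T (ZMod 2)) = x ∧ g (y : T (ZMod 2)) = y + 1) :
    IsFree (invariants G) := by
  set Gh : Set (FreeAlgebra (ZMod 2) (Fin 5) →ₐ[ZMod 2] FreeAlgebra (ZMod 2) (Fin 5)) :=
    {h | S4Lin h ∧ ∃ g ∈ G, ∀ u, s4psi (h u) = g (s4psi u)} with hGh
  have hfree : IsFree (fixedAlgebra Gh) := by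
    refine homogeneous (fun _ => 1) (fun _ => one_pos) Gh ?_
    intro f hf n h hh
    rw [component_eq, ← s4c_cmp hh.1, hf h hh]
  refine isFree_transport s4psi gen5_free.1 (fixedAlgebra Gh) hfree (invariants G) ?_
  intro t
  constructor
  · intro ht
    have ht' : ∀ g ∈ G, g t = t := ht
    obtain ⟨g1, hg1, hg1x, hg1y⟩ := h1
    obtain ⟨g2, hg2, hg2x, hg2y⟩ := h2
    have e1 : tx = (g1 : T (ZMod 2) →ₐ[ZMod 2] T (ZMod 2)) := by
      apply FreeAlgebra.hom_ext
      funext j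
      fin_cases j
      · simp only [tx, Function.comp_apply, FreeAlgebra.lift_ι_apply]
        exact hg1x.symm
      · simp only [tx, Function.comp_apply, FreeAlgebra.lift_ι_apply]
        exact hg1y.symm
    have e2 : ty = (g2 : T (ZMod 2) →ₐ[ZMod 2] T (ZMod 2)) := by
      apply FreeAlgebra.hom_ext
      funext j
      fin_cases j
      · simp only [ty, Function.comp_apply, FreeAlgebra.lift_ι_apply]
        exact hg2x.symm
      · simp only [ty, Function.comp_apply, FreeAlgebra.lift_ι_apply]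
        exact hg2y.symm
    have ht1 : tx t = t := by
      rw [e1]
      exact ht' g1 hg1
    have ht2 : ty t = t := by
      rw [e2]
      exact ht' g2 hg2
    obtain ⟨u, rfl⟩ := (gen5_free.2 t).1 ⟨ht1, ht2⟩
    refine ⟨u, ?_, rfl⟩
    rintro h ⟨_, g, hg, hgh⟩
    apply gen5_free.1
    exact (hgh u).trans (ht' g hg)
  · rintro ⟨u, hu, rfl⟩
    intro g hg
    obtain ⟨h, hl, hh⟩ := s4c_key (g : T (ZMod 2) →ₐ[ZMod 2] T (ZMod 2)) (haff g hg)
    have h3 : h u = u := hu h ⟨hl, g, hg, hh⟩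
    have h4 := hh u
    rw [h3] at h4
    exact h4.symm

end Pool.Agent.Helper26.FI
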