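import Pool.Agent.Helper26.FI.ShDefs

/-!
# The automorphisms `x ↦ x, y ↦ y + f(x)`

PLAN.  `shh_comp`, `shh_zero`: `FreeAlgebra.hom_ext`, `shh f (pol q) = pol q` (`pol` is `aeval x`).
`dsh_comm`: from `shh_comp` and `add_comm`.  `dsh_sq` (char 2): `(shh f - 1)^2 = shh (f+f) - 2 shh f + 1`,
`f + f = 0`, `2 = 0` in `T k`.  `dsh_Tl_mem`: for `f ∈ L` move `dsh f` to the position of `f` (induction on `L`
with `dsh_comm`, `dsh_sq`).  `Tl_mem_FW`: `mem_FW`, `shh f t = t ↔ dsh f t = 0`.
`R0_le_FW`: `shh f z = z`, `shh f x = x`; `FW L` is a subalgebra (`Algebra.adjoin_le`).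
`FW_span`: if `s ∈ FW L` and `e = Σ c_f f` (`f ∈ L`) then `0 = Σ c_f dsh f s = D e s + Σ c_f Nsh f s`, so
`D e s = - Σ c_f Nsh f s`; formulated with `Submodule.span_induction` as: for every submodule `M` containing all `Nsh f s`, `f ∈ L`,
`D e s ∈ M` for all `e` in the span (`D_add`, `D_smul`, `D 0 = 0`; for `e = f ∈ L`: `D f s = dsh f s - Nsh f s = - Nsh f s`).
-/

namespace Pool.Agent.Helper26.FI

open Pool.Agent.Helper71.FreeCore Pool.Agent.Helper71.FreeApp

universe u

variable {k : Type u} [Field k]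

theorem shh_x (f : Polynomial k) : shh f (x : T k) = x := by
  unfold shh
  conv_lhs => rw [x]
  rw [FreeAlgebra.lift_ι_apply, if_pos rfl]
  rfl

theorem shh_y (f : Polynomial k) : shh f (y : T k) = y + pol f := by
  unfold shh
  conv_lhs => rw [y]
  rw [FreeAlgebra.lift_ι_apply, if_neg (by decide)]
  rfl

theorem shh_pol (f q : Polynomial k) : shh f (pol q : T k) = pol q := by
  unfold pol
  rw [← Polynomial.aeval_algHom_apply, shh_x]

private theorem hom_ext' {A B : T k →ₐ[k] T k} (h0 : A x = B x) (h1 : A y = B y) (t : T k) :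
    A t = B t := by
  have h : A = B := by
    apply FreeAlgebra.hom_ext
    funext i
    fin_cases i
    · exact h0
    · exact h1
  rw [h]

theorem shh_comp (f g : Polynomial k) (t : T k) : shh f (shh g t) = shh (f + g) t := by
  refine hom_ext' (A := (shh f).comp (shh g)) (B := shh (f + g)) ?_ ?_ t
  · rw [AlgHom.comp_apply, shh_x, shh_x, shh_x]
  · rw [AlgHom.comp_apply, shh_y, map_add, shh_y, shh_pol, shh_y, map_add]
    abel

theorem shh_zero (t : T k) : shh (0 : Polynomial k) t = t := by
  refine hom_ext' (A := shh (0 : Polynomial k)) (B := AlgHom.id k (T k)) ?_ ?_ t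
  · rw [shh_x]
    rfl
  · rw [shh_y, map_zero, add_zero]
    rfl

theorem dsh_apply (f : Polynomial k) (t : T k) : dsh f t = shh f t - t := rfl

private theorem dsh_dsh (f g : Polynomial k) (t : T k) :
    dsh f (dsh g t) = shh (f + g) t - shh f t - shh g t + t := by
  rw [dsh_apply, dsh_apply, map_sub, shh_comp]
  abel

theorem dsh_comm (f g : Polynomial k) (t : T k) : dsh f (dsh g t) = dsh g (dsh f t) := by
  rw [dsh_dsh, dsh_dsh, add_comm f g]
  abel

private theorem add_self_T [CharP k 2] (t : T k) : t + t = 0 := by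
  rw [← two_smul k t]
  have h : (2 : k) = 0 := CharTwo.two_eq_zero
  rw [h, zero_smul]

theorem dsh_sq [CharP k 2] (f : Polynomial k) (t : T k) : dsh f (dsh f t) = 0 := by
  have h : f + f = 0 := by
    rw [← two_smul k f]
    have h : (2 : k) = 0 := CharTwo.two_eq_zero
    rw [h, zero_smul]
  rw [dsh_dsh, h, shh_zero]
  have h1 := add_self_T t
  have h2 := add_self_T (shh f t)
  have h3 : t - shh f t - shh f t + t = (t + t) - (shh f t + shh f t) := by abel
  rw [h3, h1, h2, sub_zero]

theorem Tl_mem_FW [CharP k 2] (L : List (Polynomial k)) (t : T k) : Tl L t ∈ FW L := by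
  rw [mem_FW]
  have h : ∀ (L : List (Polynomial k)), ∀ f ∈ L, dsh f (Tl L t) = 0 := by
    intro L
    induction L with
    | nil => simp
    | cons g L ih =>
      intro f hf
      show dsh f (dsh g (Tl L t)) = 0
      rcases List.mem_cons.1 hf with h1 | h1
      · rw [h1, dsh_sq]
      · rw [dsh_comm, ih f h1, map_zero]
  intro f hf
  have h1 := h L f hf
  rwa [dsh_apply, sub_eq_zero] at h1

theorem R0_le_FW (L : List (Polynomial k)) : R0 k ≤ FW L := by
  unfold R0
  refine Algebra.adjoin_le ?_
  rintro a (rfl | rfl)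
  · exact mem_FW.2 fun f _ => shh_x f
  · refine mem_FW.2 fun f _ => ?_
    have hx : (x : T k) * pol f = pol f * x := by
      have h1 : (x : T k) = pol Polynomial.X := by
        unfold pol
        rw [Polynomial.aeval_X]
      rw [h1, ← map_mul, ← map_mul, mul_comm]
    unfold z
    rw [map_sub, map_mul, map_mul, shh_x, shh_y, mul_add, add_mul, hx]
    abel

theorem FW_span {L : List (Polynomial k)} {s : T k} (hs : s ∈ FW L) (M : Submodule k (T k))
    (hM : ∀ f ∈ L, Nsh f s ∈ M) {e : Polynomial k}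
    (he : e ∈ Submodule.span k {f : Polynomial k | f ∈ L}) : D e s ∈ M := by
  rw [mem_FW] at hs
  refine Submodule.span_induction (p := fun e _ => D e s ∈ M) ?_ ?_ ?_ ?_ he
  · intro f hf
    have h1 : Nsh f s = dsh f s - D f s := rfl
    have h2 : dsh f s = 0 := by
      rw [dsh_apply, hs f hf, sub_self]
    have h3 : D f s = - Nsh f s := by
      rw [h1, h2]
      abel
    rw [h3]
    exact M.neg_mem (hM f hf)
  · have h1 : D (0 : Polynomial k) s = 0 := by
      have h2 := D_smul (0 : k) (0 : Polynomial k) s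
      rwa [zero_smul, zero_smul] at h2
    rw [h1]
    exact M.zero_mem
  · intro a b _ _ ha hb
    rw [D_add]
    exact M.add_mem ha hb
  · intro c a _ ha
    rw [D_smul]
    exact M.smul_mem c ha

end Pool.Agent.Helper26.FI
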