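import Pool.Agent.Helper26.FI.R0M

/-!
# The automorphisms `x ↦ x, y ↦ y + f(x)`: definitions
-/

namespace Pool.Agent.Helper26.FI

open Pool.Agent.Helper71.FreeCore Pool.Agent.Helper71.FreeApp

universe u

variable {k : Type u} [Field k]

/-- The endomorphism `x ↦ x, y ↦ y + f(x)`. -/
noncomputable def shh (f : Polynomial k) : T k →ₐ[k] T k :=
  FreeAlgebra.lift k (fun i : Fin 2 => if i = 0 then x else y + pol f)

/-- The operator `shh f - 1`. -/
noncomputable def dsh (f : Polynomial k) : T k →ₗ[k] T k :=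
  (shh f).toLinearMap - LinearMap.id

/-- The higher part `shh f - 1 - D f`. -/
noncomputable def Nsh (f : Polynomial k) : T k →ₗ[k] T k := dsh f - D f

/-- The product of the operators `shh f - 1`, `f ∈ L`. -/
noncomputable def Tl : List (Polynomial k) → (T k →ₗ[k] T k)
  | [] => LinearMap.id
  | f :: L => dsh f ∘ₗ Tl L

/-- The subalgebra of elements fixed by all `shh f`, `f ∈ L`. -/
noncomputable def FW (L : List (Polynomial k)) : Subalgebra k (T k) :=
  fixedBy {g | ∃ f ∈ L, g = shh f}

theorem mem_FW {L : List (Polynomial k)} {t : T k} : t ∈ FW L ↔ ∀ f ∈ L, shh f t = t := by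
  constructor
  · intro h f hf
    exact h _ ⟨f, hf, rfl⟩
  · rintro h g ⟨f, hf, rfl⟩
    exact h f hf

/-- The weights `x ↦ 1`, `y ↦ m`. -/
def wm (m : ℕ) : Fin 2 → ℕ := ![1, m]

/-- The operator `A` lowers the weights by at least `j`. -/
def Low (m j : ℕ) (A : T k →ₗ[k] T k) : Prop :=
  ∀ n, ∀ t ∈ (fl (wm m) (n + j) : Submodule k (T k)), A t ∈ (fl (wm m) n : Submodule k (T k))

end Pool.Agent.Helper26.FI
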