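import Pool.Agent.Helper26.FI.Cls

/-!
# Transport from `ZMod 2` to every field with two elements
-/

namespace Pool.Agent.Helper26.FI

open Pool.Agent.Helper71.FreeCore Pool.Agent.Helper71.FreeDefs

universe u v

section

variable {k : Type u} [Field k] (e : ZMod 2 ≃+* k) (X : Type v)

/-- The change of scalars `k₂⟨X⟩ → k⟨X⟩`. -/
noncomputable def up : FreeAlgebra (ZMod 2) X →+* FreeAlgebra k X :=
  letI : Algebra (ZMod 2) (FreeAlgebra k X) :=
    ((algebraMap k (FreeAlgebra k X)).comp e.toRingHom).toAlgebra'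
      (fun c t => Algebra.commutes (e c) t)
  (FreeAlgebra.lift (ZMod 2) (fun i => FreeAlgebra.ι k i) :
    FreeAlgebra (ZMod 2) X →ₐ[ZMod 2] FreeAlgebra k X).toRingHom

/-- The change of scalars `k⟨X⟩ → k₂⟨X⟩`. -/
noncomputable def dn : FreeAlgebra k X →+* FreeAlgebra (ZMod 2) X :=
  letI : Algebra k (FreeAlgebra (ZMod 2) X) :=
    ((algebraMap (ZMod 2) (FreeAlgebra (ZMod 2) X)).comp e.symm.toRingHom).toAlgebra'
      (fun c t => Algebra.commutes (e.symm c) t)
  (FreeAlgebra.lift k (fun i => FreeAlgebra.ι (ZMod 2) i) :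
    FreeAlgebra k X →ₐ[k] FreeAlgebra (ZMod 2) X).toRingHom

theorem up_ι (i : X) : up e X (FreeAlgebra.ι (ZMod 2) i) = FreeAlgebra.ι k i := by
  let _ : Algebra (ZMod 2) (FreeAlgebra k X) :=
    ((algebraMap k (FreeAlgebra k X)).comp e.toRingHom).toAlgebra'
      (fun c t => Algebra.commutes (e c) t)
  exact FreeAlgebra.lift_ι_apply (R := ZMod 2) (A := FreeAlgebra k X) _ i

theorem up_alg (c : ZMod 2) : up e X (algebraMap (ZMod 2) _ c) = algebraMap k _ (e c) := by
  let _ : Algebra (ZMod 2) (FreeAlgebra k X) :=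
    ((algebraMap k (FreeAlgebra k X)).comp e.toRingHom).toAlgebra'
      (fun c t => Algebra.commutes (e c) t)
  exact (FreeAlgebra.lift (ZMod 2) (fun i => FreeAlgebra.ι k i) :
    FreeAlgebra (ZMod 2) X →ₐ[ZMod 2] FreeAlgebra k X).commutes c

theorem dn_ι (i : X) : dn e X (FreeAlgebra.ι k i) = FreeAlgebra.ι (ZMod 2) i := by
  let _ : Algebra k (FreeAlgebra (ZMod 2) X) :=
    ((algebraMap (ZMod 2) (FreeAlgebra (ZMod 2) X)).comp e.symm.toRingHom).toAlgebra'
      (fun c t => Algebra.commutes (e.symm c) t)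
  exact FreeAlgebra.lift_ι_apply (R := k) (A := FreeAlgebra (ZMod 2) X) _ i

theorem dn_alg (c : k) : dn e X (algebraMap k _ c) = algebraMap (ZMod 2) _ (e.symm c) := by
  let _ : Algebra k (FreeAlgebra (ZMod 2) X) :=
    ((algebraMap (ZMod 2) (FreeAlgebra (ZMod 2) X)).comp e.symm.toRingHom).toAlgebra'
      (fun c t => Algebra.commutes (e.symm c) t)
  exact (FreeAlgebra.lift k (fun i => FreeAlgebra.ι (ZMod 2) i) :
    FreeAlgebra k X →ₐ[k] FreeAlgebra (ZMod 2) X).commutes c

theorem dn_up (t : FreeAlgebra (ZMod 2) X) : dn e X (up e X t) = t := by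
  induction t using FreeAlgebra.induction with
  | grade0 c => rw [up_alg, dn_alg, RingEquiv.symm_apply_apply]
  | grade1 i => rw [up_ι, dn_ι]
  | mul a b ha hb => rw [map_mul, map_mul, ha, hb]
  | add a b ha hb => rw [map_add, map_add, ha, hb]

theorem up_dn (t : FreeAlgebra k X) : up e X (dn e X t) = t := by
  induction t using FreeAlgebra.induction with
  | grade0 c => rw [dn_alg, up_alg, RingEquiv.apply_symm_apply]
  | grade1 i => rw [dn_ι, up_ι]
  | mul a b ha hb => rw [map_mul, map_mul, ha, hb]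
  | add a b ha hb => rw [map_add, map_add, ha, hb]

/-- The transported automorphism. -/
noncomputable def dnA : (FreeAlgebra k X ≃ₐ[k] FreeAlgebra k X) →*
    (FreeAlgebra (ZMod 2) X ≃ₐ[ZMod 2] FreeAlgebra (ZMod 2) X) where
  toFun g :=
    { toFun := fun t => dn e X (g (up e X t))
      invFun := fun t => dn e X (g.symm (up e X t))
      left_inv := fun t => by
        change dn e X (g.symm (up e X (dn e X (g (up e X t))))) = t
        rw [up_dn, g.symm_apply_apply, dn_up]
      right_inv := fun t => by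
        change dn e X (g (up e X (dn e X (g.symm (up e X t))))) = t
        rw [up_dn, g.apply_symm_apply, dn_up]
      map_mul' := fun a b => by rw [map_mul, map_mul, map_mul]
      map_add' := fun a b => by rw [map_add, map_add, map_add]
      commutes' := fun c => by rw [up_alg, g.commutes, dn_alg, RingEquiv.symm_apply_apply] }
  map_one' := by
    refine AlgEquiv.ext (fun t => ?_)
    change dn e X (up e X t) = t
    rw [dn_up]
  map_mul' g h := by
    refine AlgEquiv.ext (fun t => ?_)
    change dn e X (g (h (up e X t))) = dn e X (g (up e X (dn e X (h (up e X t)))))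
    rw [up_dn]

theorem dnA_apply (g : FreeAlgebra k X ≃ₐ[k] FreeAlgebra k X) (t : FreeAlgebra (ZMod 2) X) :
    dnA e X g t = dn e X (g (up e X t)) := rfl

theorem isFree_up (G : Subgroup (FreeAlgebra k X ≃ₐ[k] FreeAlgebra k X))
    (h : IsFree (invariants (G.map (dnA e X)))) : IsFree (invariants G) := by
  obtain ⟨Y, hY⟩ := h
  let ψ : FreeAlgebra k Y →ₐ[k] FreeAlgebra k X :=
    FreeAlgebra.lift k (fun y : Y => up e X (y : invariants (G.map (dnA e X))))
  have hψ : ∀ P : FreeAlgebra (ZMod 2) Y, ψ (up e Y P) =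
      up e X (FreeAlgebra.lift (ZMod 2) (fun y : Y => (y : invariants (G.map (dnA e X)))) P :
        invariants (G.map (dnA e X))) := by
    intro P
    induction P using FreeAlgebra.induction with
    | grade0 c =>
      rw [up_alg, AlgHom.commutes, AlgHom.commutes]
      change _ = up e X (algebraMap (ZMod 2) _ c)
      rw [up_alg]
    | grade1 i =>
      rw [up_ι, FreeAlgebra.lift_ι_apply]
      simp only [FreeAlgebra.lift_ι_apply]
    | mul a b ha hb => rw [map_mul, map_mul, map_mul, ha, hb, Subalgebra.coe_mul, map_mul]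
    | add a b ha hb => rw [map_add, map_add, map_add, ha, hb, Subalgebra.coe_add, map_add]
  refine isFree_of_lift ψ ?_ _ ?_
  · intro P Q hPQ
    have h1 : ψ (up e Y (dn e Y P)) = ψ (up e Y (dn e Y Q)) := by rw [up_dn, up_dn, hPQ]
    rw [hψ, hψ] at h1
    have h2 := congrArg (dn e X) h1
    rw [dn_up, dn_up] at h2
    have h3 := hY.1 (Subtype.ext h2)
    have h4 := congrArg (up e Y) h3
    rwa [up_dn, up_dn] at h4
  · intro t
    constructor
    · intro ht
      have h1 : dn e X t ∈ invariants (G.map (dnA e X)) := by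
        rintro _ ⟨g, hg, rfl⟩
        change dnA e X g (dn e X t) = dn e X t
        rw [dnA_apply, up_dn, ht g hg]
      obtain ⟨P, hP⟩ := hY.2 ⟨_, h1⟩
      refine ⟨up e Y P, ?_⟩
      rw [hψ, hP, up_dn]
    · rintro ⟨u, rfl⟩ g hg
      have h1 := (FreeAlgebra.lift (ZMod 2) (fun y : Y => (y : invariants (G.map (dnA e X))))
        (dn e Y u)).2 _ ⟨g, hg, rfl⟩
      change dnA e X g _ = _ at h1
      rw [dnA_apply, ← hψ, up_dn] at h1
      have h2 := congrArg (up e X) h1
      rwa [up_dn, ← hψ, up_dn] at h2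

include e in
theorem aff_two (G : Subgroup (FreeAlgebra k (Fin 2) ≃ₐ[k] FreeAlgebra k (Fin 2))) [Finite G]
    (haff : ∀ g ∈ G, ∀ i, g (FreeAlgebra.ι k i) ∈
      Submodule.span k (insert 1 (Set.range (FreeAlgebra.ι k)))) : IsFree (invariants G) := by
  apply isFree_up e (Fin 2) G
  have : Finite (G.map (dnA e (Fin 2))) := by
    have : Finite ((G : Set (FreeAlgebra k (Fin 2) ≃ₐ[k] FreeAlgebra k (Fin 2))) : Type _) := ‹_›
    exact Set.Finite.image _ this
  apply f2_aff
  rintro _ ⟨g, hg, rfl⟩ i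
  change dnA e (Fin 2) g _ ∈ _
  rw [dnA_apply, up_ι]
  have key : ∀ t ∈ Submodule.span k (insert 1 (Set.range (FreeAlgebra.ι k : Fin 2 → _))),
      dn e (Fin 2) t ∈ Submodule.span (ZMod 2)
        (insert 1 (Set.range (FreeAlgebra.ι (ZMod 2) : Fin 2 → _))) := by
    intro t ht
    refine Submodule.span_induction (p := fun t _ => dn e (Fin 2) t ∈ Submodule.span (ZMod 2)
        (insert 1 (Set.range (FreeAlgebra.ι (ZMod 2) : Fin 2 → _)))) ?_ ?_ ?_ ?_ ht
    · intro s hs
      rcases hs with rfl | ⟨j, rfl⟩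
      · rw [map_one]
        exact Submodule.subset_span (Set.mem_insert _ _)
      · rw [dn_ι]
        exact Submodule.subset_span (Set.mem_insert_of_mem _ ⟨j, rfl⟩)
    · rw [map_zero]
      exact Submodule.zero_mem _
    · intro a b _ _ ha hb
      rw [map_add]
      exact Submodule.add_mem _ ha hb
    · intro c a _ ha
      rw [Algebra.smul_def, map_mul, dn_alg, ← Algebra.smul_def]
      exact Submodule.smul_mem _ _ ha
  exact key _ (haff g hg i)

end

end Pool.Agent.Helper26.FI
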