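import Pool.Agent.Helper26.FI.GrpC
import Pool.Agent.Helper26.FI.PsiF

/-!
# Finite triangular groups with split unipotent part which is cyclic or of characteristic two
-/

namespace Pool.Agent.Helper26.FI

open Pool.Agent.Helper71.FreeCore Pool.Agent.Helper71.FreeCrit Pool.Agent.Helper71.FreeApp
  Pool.Agent.Helper71.FreeTrace Pool.Agent.Helper71.FreeDefs

universe u

theorem tri_all {k : Type u} [Field k]
    (G : Subgroup (FreeAlgebra k (Fin 2) ≃ₐ[k] FreeAlgebra k (Fin 2))) [Finite G]
    (htri : ∀ g ∈ G, (∃ a b : k, g (x : T k) = a • x + algebraMap k (T k) b) ∧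
      ∃ (c : k) (f : Polynomial k), g (y : T k) = c • y + pol f)
    (L : List (Polynomial k)) (hLI : LI L) (h : CharP k 2 ∨ L.length ≤ 1)
    (hL : ∀ f : Polynomial k, (∃ g ∈ G, g (x : T k) = x ∧ g (y : T k) = y + pol f) ↔
      f ∈ AddSubgroup.closure {f : Polynomial k | f ∈ L}) : IsFree (invariants G) := by
  rcases h with h | h
  · exact tri_free G htri L hLI hL
  · rcases L with _ | ⟨f, _ | ⟨g, L⟩⟩
    · exact tri_free_of_RC G htri [] ⟨0, fun m _ => RC_FW_nil m⟩ hL
    · have hf : f ≠ 0 := by
        have := hLI.ne_zero ⟨0, by simp⟩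
        simpa using this
      exact tri_free_of_RC G htri [f]
        ⟨2 * f.natDegree + 1, fun m hm => RC_FW_one hf (by omega)⟩ hL
    · simp at h

end Pool.Agent.Helper26.FI
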