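import Pool.Agent.Helper26.FI.Sh
import Pool.Agent.Helper26.FI.LowB

/-!
# The umbral map (every characteristic)

`th f c` replaces the letter `y` number `j` of a word (`j = 0, 1, …` from the left) by `y - (c + j) f(x)`.
It intertwines `D f` and `shh f - 1`.
-/

namespace Pool.Agent.Helper26.FI

open Module Pool.Agent.Helper71.FreeCore Pool.Agent.Helper71.FreeApp

universe u

variable {k : Type u} [Field k]

/-- The umbral image of a word. -/
noncomputable def thw (f : Polynomial k) : List (Fin 2) → k → T k
  | [], _ => 1
  | i :: l, c => if i = 0 then x * thw f l c else (y - c • pol f) * thw f l (c + 1)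

/-- The umbral map. -/
noncomputable def th (f : Polynomial k) (c : k) : T k →ₗ[k] T k :=
  bs.constr k (fun l => thw f l c)

theorem th_mon (f : Polynomial k) (c : k) (l : List (Fin 2)) : th f c (mon l) = thw f l c := by
  rw [← bs_apply, th, Basis.constr_basis]

private theorem mon_zero (l : List (Fin 2)) : (mon (0 :: l) : T k) = x * mon l := mon_cons _ _

private theorem mon_one (l : List (Fin 2)) : (mon (1 :: l) : T k) = y * mon l := mon_cons _ _

private theorem thw_zero (f : Polynomial k) (l : List (Fin 2)) (c : k) :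
    thw f (0 :: l) c = x * thw f l c := by
  rw [thw, if_pos rfl]

private theorem thw_one (f : Polynomial k) (l : List (Fin 2)) (c : k) :
    thw f (1 :: l) c = (y - c • pol f) * thw f l (c + 1) := by
  rw [thw, if_neg (by decide)]

theorem th_x_mul (f : Polynomial k) (c : k) (t : T k) : th f c (x * t) = x * th f c t := by
  refine mon_ind (p := fun t => th f c (x * t) = x * th f c t) t ?_ ?_ ?_ ?_
  · intro l
    rw [← mon_zero, th_mon, th_mon, thw_zero]
  · rw [mul_zero, map_zero, mul_zero]
  · intro a b ha hb
    rw [mul_add, map_add, ha, hb, map_add, mul_add]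
  · intro s a ha
    rw [mul_smul_comm, map_smul, ha, map_smul, mul_smul_comm]

theorem th_y_mul (f : Polynomial k) (c : k) (t : T k) :
    th f c (y * t) = (y - c • pol f) * th f (c + 1) t := by
  refine mon_ind (p := fun t => th f c (y * t) = (y - c • pol f) * th f (c + 1) t) t ?_ ?_ ?_ ?_
  · intro l
    rw [← mon_one, th_mon, th_mon, thw_one]
  · rw [mul_zero, map_zero, map_zero, mul_zero]
  · intro a b ha hb
    rw [mul_add, map_add, ha, hb, map_add, mul_add]
  · intro s a ha
    rw [mul_smul_comm, map_smul, ha, map_smul, mul_smul_comm]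

theorem th_xpow_mul (f : Polynomial k) (c : k) (n : ℕ) (t : T k) :
    th f c (x ^ n * t) = x ^ n * th f c t := by
  induction n with
  | zero => rw [pow_zero, one_mul, one_mul]
  | succ n ih => rw [pow_succ', mul_assoc, th_x_mul, ih, ← mul_assoc]

theorem th_pol_mul (f q : Polynomial k) (c : k) (t : T k) :
    th f c (pol q * t) = pol q * th f c t := by
  induction q using Polynomial.induction_on' with
  | add p q hp hq => rw [map_add, add_mul, map_add, hp, hq, add_mul]
  | monomial n a =>
    have h1 : (pol (Polynomial.monomial n a) : T k) = a • x ^ n := by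
      rw [← Polynomial.C_mul_X_pow_eq_monomial, ← Polynomial.smul_eq_C_mul, map_smul, map_pow,
        pol, Polynomial.aeval_X]
    rw [h1, smul_mul_assoc, map_smul, th_xpow_mul, smul_mul_assoc]

private theorem D_one' (f : Polynomial k) : D f (1 : T k) = 0 := by
  rw [← map_one (algebraMap k (T k)), D_alg]

theorem th_sub (f : Polynomial k) (l : List (Fin 2)) : ∀ c : k,
    thw f l (c - 1) = thw f l c + th f c (D f (mon l)) := by
  induction l with
  | nil =>
    intro c
    rw [mon_nil, D_one', map_zero, add_zero]
    rfl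
  | cons i l ih =>
    intro c
    fin_cases i
    · change thw f (0 :: l) (c - 1) = thw f (0 :: l) c + th f c (D f (mon (0 :: l)))
      rw [thw_zero, thw_zero, mon_zero, D_mul, D_x, zero_mul, zero_add, th_x_mul, ← mul_add, ih]
    · change thw f (1 :: l) (c - 1) = thw f (1 :: l) c + th f c (D f (mon (1 :: l)))
      have h1 := ih (c + 1)
      rw [add_sub_cancel_right] at h1
      rw [thw_one, thw_one, mon_one, D_mul, D_y, map_add, th_pol_mul, th_mon, th_y_mul,
        sub_add_cancel, sub_smul, one_smul]
      have h2 : (y - (c • pol f - pol f)) * thw f l c =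
          (y - c • pol f) * thw f l c + pol f * thw f l c := by noncomm_ring
      rw [h2, h1]
      noncomm_ring

theorem shh_thw (f : Polynomial k) (l : List (Fin 2)) : ∀ c : k,
    shh f (thw f l c) = thw f l (c - 1) := by
  induction l with
  | nil =>
    intro c
    change shh f (1 : T k) = 1
    rw [map_one]
  | cons i l ih =>
    intro c
    fin_cases i
    · change shh f (thw f (0 :: l) c) = thw f (0 :: l) (c - 1)
      rw [thw_zero, thw_zero, map_mul, shh_x, ih]
    · change shh f (thw f (1 :: l) c) = thw f (1 :: l) (c - 1)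
      rw [thw_one, thw_one, map_mul, ih, map_sub, shh_y, map_smul, shh_pol, sub_add_cancel,
        add_sub_cancel_right, sub_smul, one_smul]
      congr 1
      abel

/-- The umbral map intertwines `D f` and `shh f - 1`. -/
theorem shh_th (f : Polynomial k) (c : k) (t : T k) :
    shh f (th f c t) = th f c t + th f c (D f t) := by
  refine mon_ind (p := fun t => shh f (th f c t) = th f c t + th f c (D f t)) t ?_ ?_ ?_ ?_
  · intro l
    rw [th_mon, shh_thw, th_sub]
  · rw [map_zero, map_zero, map_zero, map_zero, add_zero]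
  · intro a b ha hb
    rw [map_add, map_add, ha, hb, map_add, map_add]
    abel
  · intro s a ha
    rw [map_smul, map_smul, ha, map_smul, map_smul, smul_add]

private theorem x_mem (m : ℕ) : (x : T k) ∈ (fl (wm m) (1 + 1) : Submodule k (T k)) := by
  have h1 : (x : T k) = mon [0] := by rw [mon_zero, mon_nil, mul_one]
  rw [h1]
  refine mon_mem_fl (wm m) ?_
  simp [wt, wm]

private theorem y_mem (m : ℕ) : (y : T k) ∈ (fl (wm m) (m + 1) : Submodule k (T k)) := by
  have h1 : (y : T k) = mon [1] := by rw [mon_one, mon_nil, mul_one]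
  rw [h1]
  refine mon_mem_fl (wm m) ?_
  simp [wt, wm]

private theorem one_mem' (m : ℕ) : (1 : T k) ∈ (fl (wm m) (0 + 1) : Submodule k (T k)) := by
  rw [← mon_nil (X := Fin 2)]
  refine mon_mem_fl (wm m) ?_
  simp [wt]

private theorem wt_zero (m : ℕ) (l : List (Fin 2)) : wt (wm m) (0 :: l) = 1 + wt (wm m) l := by
  rw [wt_cons]; rfl

private theorem wt_one (m : ℕ) (l : List (Fin 2)) : wt (wm m) (1 :: l) = m + wt (wm m) l := by
  rw [wt_cons]; rfl

theorem xpow_mem' (m n : ℕ) : (x ^ n : T k) ∈ (fl (wm m) (n + 1) : Submodule k (T k)) := by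
  induction n with
  | zero => rw [pow_zero]; exact one_mem' m
  | succ n ih =>
    rw [pow_succ]
    exact mul_mem_fl (wm m) ih (x_mem m)

theorem pol_mem' (m : ℕ) {d : ℕ} {q : Polynomial k} (hq : q.natDegree < d) :
    (pol q : T k) ∈ (fl (wm m) d : Submodule k (T k)) := by
  have h1 : (pol q : T k) = ∑ i ∈ Finset.range d, q.coeff i • x ^ i := by
    rw [pol, Polynomial.aeval_eq_sum_range' hq]
  rw [h1]
  refine Submodule.sum_mem _ fun i hi => Submodule.smul_mem _ _ ?_
  refine fl_mono (wm m) ?_ (xpow_mem' m i)
  have := Finset.mem_range.mp hi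
  omega

theorem thw_low {m : ℕ} {f : Polynomial k} (hf : f.natDegree < m) (l : List (Fin 2)) : ∀ c : k,
    thw f l c - mon l ∈ (fl (wm m) (wt (wm m) l) : Submodule k (T k)) := by
  induction l with
  | nil =>
    intro c
    change (1 : T k) - mon [] ∈ _
    rw [mon_nil, sub_self]
    exact Submodule.zero_mem _
  | cons i l ih =>
    intro c
    fin_cases i
    · change thw f (0 :: l) c - mon (0 :: l) ∈ (fl (wm m) (wt (wm m) (0 :: l)) : Submodule k (T k))
      rw [thw_zero, mon_zero, wt_zero, ← mul_sub]
      exact mul_mem_fl'' (wm m) (x_mem m) (ih c)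
    · change thw f (1 :: l) c - mon (1 :: l) ∈ (fl (wm m) (wt (wm m) (1 :: l)) : Submodule k (T k))
      rw [thw_one, mon_one, wt_one]
      have h1 : (y - c • pol f) * thw f l (c + 1) - y * mon l =
          y * (thw f l (c + 1) - mon l) - (c • pol f) * thw f l (c + 1) := by noncomm_ring
      rw [h1]
      refine Submodule.sub_mem _ (mul_mem_fl'' (wm m) (y_mem m) (ih (c + 1))) ?_
      refine mul_mem_fl' (wm m) (Submodule.smul_mem _ _ (pol_mem' m hf)) ?_
      have h2 : thw f l (c + 1) = mon l + (thw f l (c + 1) - mon l) := by abel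
      rw [h2]
      exact Submodule.add_mem _ (mon_mem_fl (wm m) (Nat.lt_succ_self _))
        (fl_mono (wm m) (Nat.le_succ _) (ih (c + 1)))

/-- The umbral map is the identity up to terms of smaller weight. -/
theorem th_low {m : ℕ} {f : Polynomial k} (hf : f.natDegree < m) (c : k) (n : ℕ) (t : T k)
    (ht : t ∈ (fl (wm m) (n + 1) : Submodule k (T k))) :
    th f c t - t ∈ (fl (wm m) n : Submodule k (T k)) := by
  refine fl_ind (wm m) (p := fun t => th f c t - t ∈ (fl (wm m) n : Submodule k (T k)))
    ht ?_ ?_ ?_ ?_
  · intro l hl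
    rw [th_mon]
    exact fl_mono (wm m) (by omega) (thw_low hf l c)
  · rw [map_zero, sub_zero]
    exact Submodule.zero_mem _
  · intro a b ha hb
    have h1 : th f c (a + b) - (a + b) = (th f c a - a) + (th f c b - b) := by
      rw [map_add]; abel
    rw [h1]
    exact Submodule.add_mem _ ha hb
  · intro s a ha
    have h1 : th f c (s • a) - s • a = s • (th f c a - a) := by
      rw [map_smul, smul_sub]
    rw [h1]
    exact Submodule.smul_mem _ _ ha

/-- Every element of the kernel of `D f` is the leading part of an invariant. -/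
theorem exists_inv {m : ℕ} {f : Polynomial k} (hf : f.natDegree < m) (n : ℕ) (t : T k)
    (ht : t ∈ (fl (wm m) (n + 1) : Submodule k (T k))) (h : D f t = 0) :
    ∃ s ∈ FW [f], s - t ∈ (fl (wm m) n : Submodule k (T k)) := by
  refine ⟨th f 0 t, ?_, th_low hf 0 n t ht⟩
  rw [mem_FW]
  intro g hg
  rw [List.mem_singleton] at hg
  rw [hg, shh_th, h, map_zero, add_zero]

end Pool.Agent.Helper26.FI
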